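import Mathlib

set_option autoImplicit false

open Polynomial

universe u

namespace Pool.Agent.Helper198.Eqs

variable {k : Type u} [Field k]

/-- `k[t]/(t^n)` -/
abbrev Tr (k : Type u) [Field k] (n : ℕ) : Type u := k[X] ⧸ (Ideal.span {(X : k[X]) ^ n})

lemma span_le_32 : Ideal.span {(X : k[X]) ^ 3} ≤ Ideal.span {(X : k[X]) ^ 2} := by
  rw [Ideal.span_singleton_le_span_singleton]
  exact pow_dvd_pow X (by norm_num)

/-- the reduction `k[t]/(t^3) → k[t]/(t^2)` -/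
noncomputable def red32 (k : Type u) [Field k] : Tr k 3 →ₐ[k] Tr k 2 :=
  Ideal.Quotient.factorₐ k span_le_32

lemma red32_mk (p : k[X]) : red32 k (Ideal.Quotient.mk _ p) = Ideal.Quotient.mk _ p := rfl

lemma red32_surjective : Function.Surjective (red32 k) := by
  intro x
  obtain ⟨p, rfl⟩ := Ideal.Quotient.mk_surjective x
  exact ⟨Ideal.Quotient.mk _ p, red32_mk p⟩

lemma mk_eq_zero_iff (n : ℕ) (p : k[X]) :
    (Ideal.Quotient.mk (Ideal.span {(X : k[X]) ^ n}) p) = 0 ↔ X ^ n ∣ p := by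
  rw [Ideal.Quotient.eq_zero_iff_mem, Ideal.mem_span_singleton]

lemma red32_ker_nilp : IsNilpotent (RingHom.ker (red32 k)) := by
  refine ⟨2, ?_⟩
  rw [Ideal.zero_eq_bot, eq_bot_iff]
  have e : RingHom.ker (red32 k) ^ 2 = RingHom.ker (red32 k) * RingHom.ker (red32 k) := sq _
  rw [e, Ideal.mul_le]
  intro a ha b hb
  obtain ⟨p, rfl⟩ := Ideal.Quotient.mk_surjective a
  obtain ⟨q, rfl⟩ := Ideal.Quotient.mk_surjective b
  rw [RingHom.mem_ker, red32_mk, mk_eq_zero_iff] at ha hb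
  rw [← map_mul]
  refine (mk_eq_zero_iff 3 _).2 ?_
  calc (X : k[X]) ^ 3 ∣ X ^ 4 := pow_dvd_pow X (by norm_num)
    _ = X ^ 2 * X ^ 2 := by ring
    _ ∣ p * q := mul_dvd_mul ha hb

/-- A formally smooth algebra has no elements with `w² = u v²` and a tangent vector along which
`u = v = 0` and `w = t`. -/
theorem smooth_contra {C : Type u} [CommRing C] [Algebra k C] [Algebra.FormallySmooth k C]
    (u v w : C) (h : w ^ 2 = u * v ^ 2) (τ : C →ₐ[k] Tr k 2) (hu : τ u = 0) (hv : τ v = 0)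
    (hw : τ w = Ideal.Quotient.mk _ X) : False := by
  let μ := Algebra.FormallySmooth.liftOfSurjective τ (red32 k) red32_surjective red32_ker_nilp
  have hμ : ∀ c, red32 k (μ c) = τ c := fun c =>
    Algebra.FormallySmooth.liftOfSurjective_apply τ (red32 k) red32_surjective red32_ker_nilp c
  obtain ⟨pu, hpu⟩ := Ideal.Quotient.mk_surjective (μ u)
  obtain ⟨pv, hpv⟩ := Ideal.Quotient.mk_surjective (μ v)
  obtain ⟨pw, hpw⟩ := Ideal.Quotient.mk_surjective (μ w)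
  have h1 : X ^ 2 ∣ pu := by rw [← mk_eq_zero_iff, ← red32_mk, hpu, hμ, hu]
  have h2 : X ^ 2 ∣ pv := by rw [← mk_eq_zero_iff, ← red32_mk, hpv, hμ, hv]
  have h3 : X ^ 2 ∣ pw - X := by
    rw [← mk_eq_zero_iff, map_sub, sub_eq_zero, ← hw, ← hμ w, ← hpw, red32_mk]
  have h4 : X ^ 3 ∣ pw ^ 2 - pu * pv ^ 2 := by
    rw [← mk_eq_zero_iff, map_sub, map_mul, map_pow, map_pow, hpu, hpv, hpw, ← map_pow, ← map_pow,
      ← map_mul, h, sub_self]
  obtain ⟨a, ha⟩ := h1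
  obtain ⟨b, hb⟩ := h2
  obtain ⟨c, hc⟩ := h3
  have h5 : pw = X + X ^ 2 * c := by rw [← hc]; ring
  have h6 : X ^ 3 ∣ (X : k[X]) ^ 2 := by
    have e : (X : k[X]) ^ 2 = (pw ^ 2 - pu * pv ^ 2) - X ^ 3 * (2 * c + X * c ^ 2 - X ^ 3 * a * b ^ 2) := by
      rw [h5, ha, hb]; ring
    rw [e]
    exact dvd_sub h4 (Dvd.intro _ rfl)
  have := (Polynomial.X_pow_dvd_iff.1 h6) 2 (by norm_num)
  simp at this

/-- Nullstellensatz -/
theorem eq_zero_of_points [IsAlgClosed k] {C : Type u} [CommRing C] [Algebra k C]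
    [Algebra.FiniteType k C] [IsReduced C] (c : C) (h : ∀ ψ : C →ₐ[k] k, ψ c = 0) : c = 0 := by
  have hJ : IsJacobsonRing C := isJacobsonRing_of_finiteType (A := k)
  have h1 : c ∈ Ideal.jacobson (⊥ : Ideal C) := by
    unfold Ideal.jacobson
    rw [Submodule.mem_sInf]
    rintro m ⟨-, hm⟩
    let _ : Field (C ⧸ m) := Ideal.Quotient.field m
    have hf : Module.Finite k (C ⧸ m) := finite_of_finite_type_of_isJacobsonRing k (C ⧸ m)
    have hb : Function.Bijective (algebraMap k (C ⧸ m)) :=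
      IsAlgClosed.algebraMap_bijective_of_isIntegral
    let e : k ≃ₐ[k] (C ⧸ m) := AlgEquiv.ofBijective (Algebra.ofId k (C ⧸ m)) hb
    have h3 := h ((e.symm : (C ⧸ m) →ₐ[k] k).comp (Ideal.Quotient.mkₐ k m))
    have h4 : e.symm (Ideal.Quotient.mk m c) = 0 := h3
    rw [map_eq_zero_iff _ e.symm.injective] at h4
    exact Ideal.Quotient.eq_zero_iff_mem.1 h4
  have h2 : Ideal.jacobson (⊥ : Ideal C) = ⊥ := by
    apply isJacobsonRing_iff.1 hJ
    intro x hx
    obtain ⟨n, hn⟩ := hx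
    exact IsNilpotent.eq_zero ⟨n, hn⟩
  rw [h2] at h1
  exact h1

end Pool.Agent.Helper198.Eqs
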