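import Mathlib
import Pool.Agent.Helper226.LociDefs

set_option autoImplicit false

open MvPolynomial CategoryTheory AlgebraicGeometry
open Pool.Agent.Helper226

universe u

namespace Pool.Agent.Helper198.Eqs

/-- The coordinate ring `k[x, y]` of the affine plane `S` over `k`, with `x = X 0`, `y = X 1`. -/
abbrev Pl (k : Type u) [Field k] : Type u := MvPolynomial (Fin 2) k

/-- A `k`-point of the plane or a point infinitely near to it: the point `(a, b)` of the plane and
the finite list `dirs` of the directions of the successive point blow-ups. A direction is a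
point of the exceptional curve `ℙ¹(k) = k ∪ {∞}`: `some c` is the direction `y / x = c`, and `none`
is the direction `∞`, that is `x / y = 0`, where `x, y` are the coordinates at the blown-up point. -/
@[ext] structure InfPt (k : Type u) where
  a : k
  b : k
  dirs : List (Option k)

variable {k : Type u} [Field k]

/-- The coordinates at the point `(a, b)` of the plane are `x - a, y - b`: substitution
`x ↦ x + a`, `y ↦ y + b`. -/
noncomputable def shift (a b : k) : Pl k →ₐ[k] Pl k := aeval ![X 0 + C a, X 1 + C b]

/-- The blow-up of the origin near the direction `c`, in coordinates centred there: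
`x ↦ x`, `y ↦ x (y + c)` for a finite direction `c`, and `x ↦ x y`, `y ↦ y` for the direction `∞`. -/
noncomputable def blow : Option k → (Pl k →ₐ[k] Pl k)
  | some c => aeval ![X 0, X 0 * (X 1 + C c)]
  | none => aeval ![X 0 * X 1, X 1]

/-- The equation of the exceptional curve of that blow-up, in the same coordinates. -/
noncomputable def exc : Option k → Pl k
  | some _ => X 0
  | none => X 1

/-- The order at the origin of an ideal: the largest `m` with `I ⊆ (x, y)^m`. -/
noncomputable def ordAt (I : Ideal (Pl k)) : ℕ := sSup {m | I ≤ Ideal.span {X 0, X 1} ^ m}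

/-- The transform of an ideal `I` under the blow-up of the origin, near the direction `c`: the
inverse image ideal of `I` divided by the `ordAt I`-th power of the exceptional curve. -/
noncomputable def transform (I : Ideal (Pl k)) (c : Option k) : Ideal (Pl k) where
  carrier := {f | exc c ^ ordAt I * f ∈ I.map (blow c)}
  add_mem' := by
    intro f g hf hg
    simp only [Set.mem_ofPred_eq, mul_add] at *
    exact Ideal.add_mem _ hf hg
  zero_mem' := by simp
  smul_mem' := by
    intro r f hf
    simp only [Set.mem_ofPred_eq, smul_eq_mul] at *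
    rw [mul_left_comm]
    exact Ideal.mul_mem_left _ r hf

/-- The transform of the ideal `I` at the (infinitely near) point `p`, in the coordinates at `p`. -/
noncomputable def idealAt (I : Ideal (Pl k)) (p : InfPt k) : Ideal (Pl k) :=
  p.dirs.foldl transform (I.map (shift p.a p.b))

/-- The weight of `I` at `p`: the order at `p` of the transform of `I`. -/
noncomputable def weight (I : Ideal (Pl k)) (p : InfPt k) : ℕ := ordAt (idealAt I p)

/-- The cluster of `I`: the points, proper or infinitely near, through which `I` passes. -/
def cluster (I : Ideal (Pl k)) : Set (InfPt k) := {p | 0 < weight I p}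

/-- The precedence relation: `q` is equal to `p` or infinitely near to `p`. -/
def Precedes (p q : InfPt k) : Prop := p.a = q.a ∧ p.b = q.b ∧ p.dirs <+: q.dirs

/-- The proximity relation: `q` is proximate to `p` if `q` is infinitely near to `p` and lies on the
strict transform of the exceptional curve of the blow-up of `p`. -/
def Proximate (q p : InfPt k) : Prop :=
  p.a = q.a ∧ p.b = q.b ∧ ∃ (c : Option k) (l : List (Option k)), q.dirs = p.dirs ++ c :: l ∧
    0 < ordAt (l.foldl transform (Ideal.span {exc c}))

/-- Two ideals are equisingular if there is a bijection between their clusters which preserves the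
precedence relation, the proximity relation and the weights. -/
def Equisingular (I J : Ideal (Pl k)) : Prop :=
  ∃ e : cluster I ≃ cluster J,
    (∀ p q, Precedes p.1 q.1 ↔ Precedes (e p).1 (e q).1) ∧
    (∀ p q, Proximate p.1 q.1 ↔ Proximate (e p).1 (e q).1) ∧
    ∀ p, weight I p.1 = weight J (e p).1

/-- An ideal is complete (integrally closed) if it contains every `r` with
`r ^ n + a₁ r ^ (n - 1) + ⋯ + aₙ = 0` for some `n > 0` and `aᵢ ∈ I ^ i`. -/
def IsComplete {R : Type u} [CommRing R] (I : Ideal R) : Prop :=
  ∀ (r : R) (n : ℕ) (a : ℕ → R), 0 < n → (∀ i, a i ∈ I ^ i) →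
    r ^ n + ∑ i ∈ Finset.Icc 1 n, a i * r ^ (n - i) = 0 → r ∈ I

/-- The ideal `I₀ = (y² - x⁵, x⁴ y, x⁶)`. -/
noncomputable def baseIdeal (k : Type u) [Field k] : Ideal (Pl k) :=
  Ideal.span {X 1 ^ 2 - X 0 ^ 5, X 0 ^ 4 * X 1, X 0 ^ 6}

/-- The point of `Spec k`. -/
noncomputable def specPt (k : Type u) [Field k] : Spec (CommRingCat.of k) := (⊥ : PrimeSpectrum k)

/-- The point of the Hilbert scheme `𝓗` underlying a `k`-point. -/
noncomputable def pt {n : ℕ} (𝓗 : HilbertScheme k (Pl k) n) (f : PointsOver k 𝓗.H 𝓗.s k) : 𝓗.H :=
  f.1 (specPt k)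

/-- `j : Z ⟶ 𝓗.H` is, on the open set `U`, the stratum `E(I₀)`, the set of the complete ideals equisingular to
`I₀`, with its structure of a reduced locally closed subscheme. -/
def IsStratumOn {n : ℕ} (𝓗 : HilbertScheme k (Pl k) n) (I₀ : Ideal (Pl k)) (U : 𝓗.H.Opens)
    {Z : Scheme.{u}} (j : Z ⟶ 𝓗.H) : Prop :=
  IsImmersion j ∧ IsReduced Z ∧ Set.range j ⊆ U ∧ ∀ f : PointsOver k 𝓗.H 𝓗.s k, pt 𝓗 f ∈ U →
    (pt 𝓗 f ∈ Set.range j ↔ IsComplete (𝓗.idealOf f) ∧ Equisingular I₀ (𝓗.idealOf f))

end Pool.Agent.Helper198.Eqs
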