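import Mathlib
import Pool.Agent.Helper198.Eqs.Defs

set_option autoImplicit false

open MvPolynomial

universe u

namespace Pool.Agent.Helper198.Eqs

variable {k : Type u} [Field k]

/-- the maximal ideal of the origin -/
noncomputable abbrev org (k : Type u) [Field k] : Ideal (Pl k) := Ideal.span {X 0, X 1}

lemma ordAt_def (I : Ideal (Pl k)) : ordAt I = sSup {m | I ≤ org k ^ m} := rfl

lemma ordAt_eq {I : Ideal (Pl k)} {m : ℕ} (h : I ≤ org k ^ m) (h' : ¬ I ≤ org k ^ (m + 1)) :
    ordAt I = m := by
  have : IsGreatest {m | I ≤ org k ^ m} m := by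
    refine ⟨h, fun n hn => ?_⟩
    by_contra hc
    exact h' (le_trans hn (Ideal.pow_le_pow_right (by omega)))
  exact this.csSup_eq

lemma le_org_ordAt (I : Ideal (Pl k)) : I ≤ org k ^ ordAt I := by
  rcases Nat.eq_zero_or_pos (ordAt I) with h | h
  · rw [h, pow_zero, Ideal.one_eq_top]; exact le_top
  · have hb : BddAbove {m | I ≤ org k ^ m} := by
      by_contra hb
      rw [ordAt_def, Nat.sSup_of_not_bddAbove hb] at h
      omega
    exact Nat.sSup_mem ⟨0, by simp [Ideal.one_eq_top]⟩ hb

lemma ordAt_eq_zero {I : Ideal (Pl k)} (h : ¬ I ≤ org k) : ordAt I = 0 :=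
  ordAt_eq (by rw [pow_zero, Ideal.one_eq_top]; exact le_top) (by simpa using h)

lemma ordAt_eq_zero' {I : Ideal (Pl k)} (h : ∀ m, I ≤ org k ^ m) : ordAt I = 0 := by
  rw [ordAt_def]
  apply Nat.sSup_of_not_bddAbove
  rintro ⟨m, hm⟩
  have := hm (h (m + 1))
  omega

lemma ordAt_zero_cases {I : Ideal (Pl k)} (h : ordAt I = 0) :
    ¬ I ≤ org k ∨ ∀ m, I ≤ org k ^ m := by
  by_contra hc
  push Not at hc
  obtain ⟨h1, m, h2⟩ := hc
  have hb : BddAbove {m | I ≤ org k ^ m} := by
    refine ⟨m, fun n hn => ?_⟩
    by_contra hlt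
    exact h2 (le_trans hn (Ideal.pow_le_pow_right (by omega)))
  have : 1 ≤ ordAt I := le_csSup hb (by simpa using h1)
  omega

@[simp] lemma blow_some_zero (c : k) : blow (some c) (X 0 : Pl k) = X 0 := by simp [blow]
@[simp] lemma blow_some_one (c : k) : blow (some c) (X 1 : Pl k) = X 0 * (X 1 + C c) := by
  simp [blow]
@[simp] lemma blow_none_zero : blow none (X 0 : Pl k) = X 0 * X 1 := by simp [blow]
@[simp] lemma blow_none_one : blow none (X 1 : Pl k) = X 1 := by simp [blow]
@[simp] lemma blow_C (c : Option k) (r : k) : blow c (C r : Pl k) = C r := by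
  cases c <;> simp [blow, algebraMap_eq]
@[simp] lemma exc_some (c : k) : exc (some c) = (X 0 : Pl k) := rfl
@[simp] lemma exc_none : exc (none : Option k) = (X 1 : Pl k) := rfl
@[simp] lemma shift_zero' (a b : k) : shift a b (X 0 : Pl k) = X 0 + C a := by simp [shift]
@[simp] lemma shift_one' (a b : k) : shift a b (X 1 : Pl k) = X 1 + C b := by simp [shift]
@[simp] lemma shift_C (a b r : k) : shift a b (C r : Pl k) = C r := by simp [shift, algebraMap_eq]

lemma exc_ne_zero (c : Option k) : exc c ≠ 0 := by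
  cases c <;> simp

/-- the value at the origin -/
noncomputable abbrev ev0 : Pl k →ₐ[k] k := aeval ![0, 0]

lemma mem_org_iff (f : Pl k) : f ∈ org k ↔ ev0 f = 0 := by
  have h1 : org k = MvPolynomial.idealOfVars (Fin 2) k := by
    have : ({X 0, X 1} : Set (Pl k)) = Set.range X := by
      apply Set.ext
      intro x
      simp [Fin.exists_fin_two, eq_comm]
    show Ideal.span _ = Ideal.span _
    rw [this]
  rw [h1, ← pow_one (MvPolynomial.idealOfVars (Fin 2) k), MvPolynomial.mem_pow_idealOfVars_iff']
  have h2 : (ev0 f : k) = MvPolynomial.coeff 0 f := by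
    have : (![0, 0] : Fin 2 → k) = 0 := by ext i; fin_cases i <;> rfl
    rw [ev0, this]
    simp [constantCoeff_eq]
  rw [h2]
  constructor
  · intro h; exact h 0 (by simp)
  · intro h x hx
    have : x = 0 := by
      rw [Nat.lt_one_iff, Finsupp.degree_eq_zero_iff] at hx
      exact hx
    rw [this, h]

lemma ev0_blow (c : Option k) (f : Pl k) : ev0 (blow c f) = (ev0 f : k) := by
  have : (ev0 : Pl k →ₐ[k] k).comp (blow c) = ev0 := by
    apply MvPolynomial.algHom_ext
    intro i
    cases c <;> fin_cases i <;> simp [ev0]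
  exact DFunLike.congr_fun this f

lemma map_org_le (c : Option k) : (org k).map (blow c) ≤ Ideal.span {exc c} := by
  rw [Ideal.map_span, Ideal.span_le]
  rintro _ ⟨x, (rfl | rfl), rfl⟩
  · cases c
    · simp only [blow_none_zero, exc_none, SetLike.mem_coe, Ideal.mem_span_singleton]
      exact Dvd.intro_left _ rfl
    · simp [Ideal.mem_span_singleton]
  · cases c
    · simp [Ideal.mem_span_singleton]
    · simp only [blow_some_one, exc_some, SetLike.mem_coe, Ideal.mem_span_singleton]
      exact Dvd.intro _ rfl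

lemma exc_dvd_blow (c : Option k) (m : ℕ) {f : Pl k} (hf : f ∈ org k ^ m) :
    exc c ^ m ∣ blow c f := by
  have h1 : blow c f ∈ ((org k) ^ m).map (blow c) := Ideal.mem_map_of_mem _ hf
  rw [Ideal.map_pow] at h1
  have h2 := Ideal.pow_right_mono (map_org_le c) m h1
  rwa [Ideal.span_singleton_pow, Ideal.mem_span_singleton] at h2

lemma mem_transform {I : Ideal (Pl k)} {c : Option k} {f : Pl k} :
    f ∈ transform I c ↔ exc c ^ ordAt I * f ∈ I.map (blow c) := Iff.rfl

lemma mem_transform_of {I : Ideal (Pl k)} {c : Option k} {f g : Pl k} {m : ℕ} (hm : ordAt I = m)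
    (hf : f ∈ I) (h : blow c f = exc c ^ m * g) : g ∈ transform I c := by
  rw [mem_transform, hm, ← h]
  exact Ideal.mem_map_of_mem _ hf

lemma exists_transform {I : Ideal (Pl k)} (c : Option k) {f : Pl k} (hf : f ∈ I) :
    ∃ g ∈ transform I c, blow c f = exc c ^ ordAt I * g := by
  obtain ⟨g, hg⟩ := exc_dvd_blow c (ordAt I) (le_org_ordAt I hf)
  exact ⟨g, mem_transform_of rfl hf hg, hg⟩

lemma transform_span {ι : Type} (g g' : ι → Pl k) (c : Option k) (m : ℕ)
    (hm : ordAt (Ideal.span (Set.range g)) = m) (h : ∀ i, blow c (g i) = exc c ^ m * g' i) :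
    transform (Ideal.span (Set.range g)) c = Ideal.span (Set.range g') := by
  have h1 : (Ideal.span (Set.range g)).map (blow c) =
      Ideal.span {exc c ^ m} * Ideal.span (Set.range g') := by
    rw [Ideal.map_span, Ideal.span_mul_span', ← Set.range_comp]
    congr 1
    ext x
    simp only [Set.mem_range, Function.comp_apply, Set.mem_mul, Set.mem_singleton_iff,
      exists_eq_left, exists_exists_eq_and]
    constructor
    · rintro ⟨i, rfl⟩; exact ⟨i, (h i).symm⟩
    · rintro ⟨i, rfl⟩; exact ⟨i, h i⟩
  ext f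
  rw [mem_transform, hm, h1, Ideal.mem_span_singleton_mul]
  constructor
  · rintro ⟨z, hz, he⟩
    rwa [← mul_left_cancel₀ (pow_ne_zero m (exc_ne_zero c)) he]
  · intro hf; exact ⟨f, hf, rfl⟩

lemma ordAt_transform_zero {I : Ideal (Pl k)} (c : Option k) (h : ordAt I = 0) :
    ordAt (transform I c) = 0 := by
  rcases ordAt_zero_cases h with h1 | h1
  · apply ordAt_eq_zero
    rw [SetLike.not_le_iff_exists] at h1 ⊢
    obtain ⟨f, hf, hf'⟩ := h1
    refine ⟨blow c f, mem_transform_of h hf (by simp), ?_⟩
    rwa [mem_org_iff, ev0_blow, ← mem_org_iff]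
  · apply ordAt_eq_zero'
    intro m f hf
    rw [mem_transform, h, pow_zero, one_mul] at hf
    have h2 : (org k ^ m).map (blow c) ≤ org k ^ m := by
      rw [Ideal.map_pow]
      apply Ideal.pow_right_mono
      rw [Ideal.map_le_iff_le_comap]
      intro x hx
      rw [Ideal.mem_comap, mem_org_iff]
      rw [mem_org_iff] at hx
      rw [← hx]
      exact ev0_blow c x
    exact h2 (Ideal.map_mono (h1 m) hf)

lemma ordAt_foldl_zero {I : Ideal (Pl k)} (l : List (Option k)) (h : ordAt I = 0) :
    ordAt (l.foldl transform I) = 0 := by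
  induction l generalizing I with
  | nil => exact h
  | cons c l ih => exact ih (ordAt_transform_zero c h)

lemma weight_append_zero {I : Ideal (Pl k)} {a b : k} {l : List (Option k)} (l' : List (Option k))
    (h : weight I ⟨a, b, l⟩ = 0) : weight I ⟨a, b, l ++ l'⟩ = 0 := by
  unfold weight idealAt at *
  simp only [List.foldl_append]
  exact ordAt_foldl_zero l' h

lemma mem_cluster {I : Ideal (Pl k)} {p : InfPt k} : p ∈ cluster I ↔ 0 < weight I p := Iff.rfl

lemma mem_cluster_of_append {I : Ideal (Pl k)} {a b : k} {l l' : List (Option k)}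
    (h : (⟨a, b, l ++ l'⟩ : InfPt k) ∈ cluster I) : (⟨a, b, l⟩ : InfPt k) ∈ cluster I := by
  rw [mem_cluster] at *
  by_contra hc
  rw [weight_append_zero l' (by omega)] at h
  omega

lemma mem_cluster_of_precedes {I : Ideal (Pl k)} {p q : InfPt k} (h : Precedes p q)
    (hq : q ∈ cluster I) : p ∈ cluster I := by
  obtain ⟨a, b, l⟩ := p
  obtain ⟨a', b', l'⟩ := q
  obtain ⟨rfl, rfl, t, rfl⟩ := h
  exact mem_cluster_of_append hq

/-- explicit form of the proximity relation -/
def OnExc : List (Option k) → Prop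
  | [] => False
  | some _ :: l => ∀ d ∈ l, d = none
  | none :: l => ∀ d ∈ l, d = some 0

lemma test_org_pow (f : Pl k) (m : ℕ) (h : f ∈ org k ^ m) (a b : k) :
    (Polynomial.X : Polynomial k) ^ m ∣
      aeval ![Polynomial.C a * Polynomial.X, Polynomial.C b * Polynomial.X] f := by
  have h0 : (org k).map (aeval (R := k) ![Polynomial.C a * Polynomial.X, Polynomial.C b * Polynomial.X]
      : Pl k →ₐ[k] Polynomial k) ≤ Ideal.span {Polynomial.X} := by
    rw [Ideal.map_span, Ideal.span_le]
    rintro _ ⟨x, (rfl | rfl), rfl⟩ <;>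
    simp [Ideal.mem_span_singleton]
  have h1 := Ideal.mem_map_of_mem (aeval (R := k) ![Polynomial.C a * Polynomial.X, Polynomial.C b * Polynomial.X]
      : Pl k →ₐ[k] Polynomial k) h
  rw [Ideal.map_pow] at h1
  have h2 := Ideal.pow_right_mono h0 m h1
  rwa [Ideal.span_singleton_pow, Ideal.mem_span_singleton] at h2

lemma ordAt_span_X0 : ordAt (Ideal.span {(X 0 : Pl k)}) = 1 := by
  apply ordAt_eq
  · rw [pow_one]
    exact Ideal.span_mono (by simp)
  · intro h
    have := test_org_pow (X 0 : Pl k) 2 (h (Ideal.mem_span_singleton_self _)) 1 1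
    simp only [map_one, one_mul, aeval_X, Matrix.cons_val_zero] at this
    have := (Polynomial.X_pow_dvd_iff.1 this) 1 (by norm_num)
    simp at this

lemma ordAt_span_X1 : ordAt (Ideal.span {(X 1 : Pl k)}) = 1 := by
  apply ordAt_eq
  · rw [pow_one]
    exact Ideal.span_mono (by simp)
  · intro h
    have := test_org_pow (X 1 : Pl k) 2 (h (Ideal.mem_span_singleton_self _)) 1 1
    simp only [map_one, one_mul, aeval_X, Matrix.cons_val_one] at this
    have := (Polynomial.X_pow_dvd_iff.1 this) 1 (by norm_num)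
    simp at this

lemma transform_singleton (g g' : Pl k) (c : Option k) (m : ℕ)
    (hm : ordAt (Ideal.span {g}) = m) (h : blow c g = exc c ^ m * g') :
    transform (Ideal.span {g}) c = Ideal.span {g'} := by
  have := transform_span (fun _ : Unit => g) (fun _ => g') c m (by simpa using hm) (fun _ => h)
  simpa using this

lemma ordAt_span_one : ordAt (Ideal.span {(1 : Pl k)}) = 0 := by
  apply ordAt_eq_zero
  rw [SetLike.not_le_iff_exists]
  exact ⟨1, Ideal.mem_span_singleton_self _, by rw [mem_org_iff]; simp⟩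

lemma foldl_X0 (l : List (Option k)) :
    0 < ordAt (l.foldl transform (Ideal.span {(X 0 : Pl k)})) ↔ ∀ d ∈ l, d = none := by
  induction l with
  | nil => simp [ordAt_span_X0]
  | cons c l ih =>
    rw [List.foldl_cons]
    cases c with
    | none =>
      rw [transform_singleton (X 0) (X 0) none 1 ordAt_span_X0 (by simp [mul_comm])]
      rw [ih]; simp
    | some c =>
      rw [transform_singleton (X 0) 1 (some c) 1 ordAt_span_X0 (by simp)]
      rw [ordAt_foldl_zero l ordAt_span_one]
      simp

lemma foldl_X1 (l : List (Option k)) :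
    0 < ordAt (l.foldl transform (Ideal.span {(X 1 : Pl k)})) ↔ ∀ d ∈ l, d = some 0 := by
  induction l with
  | nil => simp [ordAt_span_X1]
  | cons c l ih =>
    rw [List.foldl_cons]
    cases c with
    | none =>
      rw [transform_singleton (X 1) 1 none 1 ordAt_span_X1 (by simp)]
      rw [ordAt_foldl_zero l ordAt_span_one]
      simp
    | some c =>
      rw [transform_singleton (X 1) (X 1 + C c) (some c) 1 ordAt_span_X1 (by simp)]
      by_cases hc : c = 0
      · subst hc
        simp only [map_zero, add_zero]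
        rw [ih]; simp
      · have : ordAt (Ideal.span {(X 1 + C c : Pl k)}) = 0 := by
          apply ordAt_eq_zero
          rw [SetLike.not_le_iff_exists]
          exact ⟨_, Ideal.mem_span_singleton_self _, by rw [mem_org_iff]; simpa using hc⟩
        rw [ordAt_foldl_zero l this]
        simp [hc]

lemma onExc_iff (c : Option k) (l : List (Option k)) :
    0 < ordAt (l.foldl transform (Ideal.span {exc c})) ↔ OnExc (c :: l) := by
  cases c with
  | none => rw [exc_none, foldl_X1]; rfl
  | some c => rw [exc_some, foldl_X0]; rfl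

lemma proximate_iff (p q : InfPt k) : Proximate q p ↔
    p.a = q.a ∧ p.b = q.b ∧ ∃ l, q.dirs = p.dirs ++ l ∧ OnExc l := by
  unfold Proximate
  constructor
  · rintro ⟨h1, h2, c, l, h3, h4⟩
    exact ⟨h1, h2, c :: l, h3, (onExc_iff c l).1 h4⟩
  · rintro ⟨h1, h2, l, h3, h4⟩
    cases l with
    | nil => exact absurd h4 (by simp [OnExc])
    | cons c l => exact ⟨h1, h2, c, l, h3, (onExc_iff c l).2 h4⟩

end Pool.Agent.Helper198.Eqs
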