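import Mathlib
import Pool.Agent.Helper198.Eqs.Basic
import Pool.Agent.Helper226.HilbChart

set_option autoImplicit false

open MvPolynomial

universe u

namespace Pool.Agent.Helper198.Eqs

/-- the monomial basis `x^i (i ≤ 5)`, `y x^j (j ≤ 3)` -/
noncomputable def bas (k : Type u) [Field k] : Fin 10 → Pl k :=
  ![1, X 0, X 0 ^ 2, X 0 ^ 3, X 0 ^ 4, X 0 ^ 5, X 1, X 1 * X 0, X 1 * X 0 ^ 2, X 1 * X 0 ^ 3]

variable {k : Type u} [Field k]

/-- the branch at the origin: `x ↦ u = t² (G + b t)`, `y ↦ a₁ u + a₂ u² + t (G + b t) u²` -/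
noncomputable def br (a₁ a₂ G b : k) : Pl k →ₐ[k] Polynomial k :=
  aeval ![Polynomial.X ^ 2 * (Polynomial.C G + Polynomial.C b * Polynomial.X),
    Polynomial.C a₁ * (Polynomial.X ^ 2 * (Polynomial.C G + Polynomial.C b * Polynomial.X)) +
    Polynomial.C a₂ * (Polynomial.X ^ 2 * (Polynomial.C G + Polynomial.C b * Polynomial.X)) ^ 2 +
    Polynomial.X * (Polynomial.C G + Polynomial.C b * Polynomial.X) *
      (Polynomial.X ^ 2 * (Polynomial.C G + Polynomial.C b * Polynomial.X)) ^ 2]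

/-- the ideal of all `f` with `t^12 ∣ f(branch)` -/
noncomputable def KK (x₀ y₀ a₁ a₂ G b : k) : Ideal (Pl k) :=
  (Ideal.span {(Polynomial.X : Polynomial k) ^ 12}).comap ((br a₁ a₂ G b).comp (shift x₀ y₀))

/-- the explicit ideal at the origin; used with `B = b / G` -/
noncomputable def JJ (a₁ a₂ G B : k) : Ideal (Pl k) :=
  Ideal.span (Set.range ![
    (X 1 - C a₁ * X 0 - C a₂ * X 0 ^ 2) ^ 2 - C G * X 0 ^ 5
      - C B * (X 1 - C a₁ * X 0 - C a₂ * X 0 ^ 2) * X 0 ^ 3,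
    (X 1 - C a₁ * X 0 - C a₂ * X 0 ^ 2) * X 0 ^ 4,
    X 0 ^ 6])

/-- the cluster of `I` consists of the root `(a, b)` and the prefixes of the word `w` (of length
5), with weights `2, 2, 1, 1, 1, 1` -/
def IsType (I : Ideal (Pl k)) (a b : k) (w : List (Option k)) : Prop :=
  w.length = 5 ∧ (∀ p : InfPt k, 0 < weight I p ↔ p.a = a ∧ p.b = b ∧ p.dirs <+: w) ∧
    ∀ i : Fin 6, weight I ⟨a, b, w.take i⟩ = ![2, 2, 1, 1, 1, 1] i

end Pool.Agent.Helper198.Eqs
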