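import Mathlib
import Pool.Agent.Helper198.Eqs.AlgPart

set_option autoImplicit false

open CategoryTheory CategoryTheory.Limits AlgebraicGeometry

universe u

namespace Pool.Agent.Helper198.Eqs

variable {k : Type u} [Field k]

/-- the point of `Spec A` of an algebra map to `k` -/
noncomputable def kpt {A : Type u} [CommRing A] [Algebra k A] (φ : A →ₐ[k] k) :
    Spec (CommRingCat.of A) :=
  (⟨RingHom.ker φ, RingHom.ker_isPrime φ⟩ : PrimeSpectrum A)

lemma kpt_comp {A A' : Type u} [CommRing A] [Algebra k A] [CommRing A'] [Algebra k A']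
    (ψ : A →ₐ[k] A') (φ : A' →ₐ[k] k) :
    Spec.map (CommRingCat.ofHom ψ.toRingHom) (kpt φ) = kpt (φ.comp ψ) := by
  apply PrimeSpectrum.ext
  rfl

/-- Key lemma: the algebra at the bottom. `J ⊆ A_h` is the ideal of the reduced closed
subscheme. -/
theorem alg_core [IsAlgClosed k] {A : Type u} [CommRing A] [Algebra k A]
    [Algebra.FiniteType k A] (E : (A →ₐ[k] k) → Prop) (u v w : A)
    (hrel : ∀ φ, E φ → φ w ^ 2 = φ u * φ v ^ 2)
    {S : Type u} [CommRing S] [IsDomain S] [Algebra k S] (θ : A →ₐ[k] S) (g : S)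
    (hpts : ∀ f : S, (∀ ρ : S →ₐ[k] k, ρ f = 0) → f = 0)
    (hg : g ≠ 0) (hθ : ∀ ρ : S →ₐ[k] k, ρ g ≠ 0 → E (ρ.comp θ))
    (τ : A →ₐ[k] Tr k 2) (hτ : ∀ a, θ a = 0 → τ a = 0)
    (hu : τ u = 0) (hv : τ v = 0) (hw : τ w = Ideal.Quotient.mk _ Polynomial.X)
    (h : A) (hunit : IsUnit (τ h))
    (J : Ideal (Localization.Away h)) [IsReduced (Localization.Away h ⧸ J)]
    (hJ : ∀ φ : Localization.Away h →ₐ[k] k, (∀ x ∈ J, φ x = 0) ↔
      E (φ.comp (IsScalarTower.toAlgHom k A (Localization.Away h))))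
    [Algebra.FormallySmooth k (Localization.Away h ⧸ J)] : False := by
  have hfp : Algebra.FinitePresentation A (Localization.Away h) :=
    IsLocalization.Away.finitePresentation h
  have hft : Algebra.FiniteType k (Localization.Away h) :=
    Algebra.FiniteType.trans (inferInstance : Algebra.FiniteType k A)
      (inferInstance : Algebra.FiniteType A (Localization.Away h))
  have hft2 : Algebra.FiniteType k (Localization.Away h ⧸ J) :=
    Algebra.FiniteType.of_surjective (Ideal.Quotient.mkₐ k J)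
      (Ideal.Quotient.mkₐ_surjective k J)
  let ι := IsScalarTower.toAlgHom k A (Localization.Away h)
  let q := Ideal.Quotient.mkₐ k J
  -- the relation in the quotient
  have hrel' : (q (ι w)) ^ 2 = q (ι u) * (q (ι v)) ^ 2 := by
    rw [← sub_eq_zero]
    apply eq_zero_of_points (k := k)
    intro ψ
    have h1 : E ((ψ.comp q).comp ι) := by
      rw [← hJ]
      intro x hx
      have : q x = 0 := Ideal.Quotient.eq_zero_iff_mem.2 hx
      rw [AlgHom.comp_apply, this, map_zero]
    have h2 := hrel _ h1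
    simp only [AlgHom.comp_apply] at h2
    simp only [map_sub, map_mul, map_pow, h2, sub_self]
  -- the tangent vector kills J
  let τh : Localization.Away h →ₐ[k] Tr k 2 :=
    IsLocalization.liftAlgHom (M := Submonoid.powers h) (f := τ) (by
      rintro ⟨_, n, rfl⟩
      simpa using hunit.pow n)
  have hτh : ∀ a, τh (ι a) = τ a := by
    intro a
    simp [τh, ι]
  have hθh : θ h ≠ 0 := by
    intro h0
    have h1 := hτ h h0
    rw [h1] at hunit
    have h2 : Nontrivial (Tr k 2) := by
      refine ⟨⟨0, 1, ?_⟩⟩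
      intro h3
      have h4 : (Ideal.Quotient.mk (Ideal.span {(Polynomial.X : Polynomial k) ^ 2})) 1 = 0 := h3.symm
      rw [mk_eq_zero_iff] at h4
      have := (Polynomial.X_pow_dvd_iff.1 h4) 0 (by norm_num)
      simp at this
    exact not_isUnit_zero hunit
  have hkill : ∀ a : A, ι a ∈ J → θ a = 0 := by
    intro a ha
    have h1 : θ a * g * θ h = 0 := by
      apply hpts
      intro ρ
      rw [map_mul, map_mul]
      by_cases h2 : ρ g = 0
      · rw [h2]; ring
      by_cases h3 : ρ (θ h) = 0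
      · rw [h3]; ring
      have h4 := hθ ρ h2
      let φ : Localization.Away h →ₐ[k] k :=
        IsLocalization.liftAlgHom (M := Submonoid.powers h) (f := ρ.comp θ) (by
          rintro ⟨_, n, rfl⟩
          have : IsUnit (ρ (θ h)) := IsUnit.mk0 _ h3
          simpa using this.pow n)
      have h5 : φ.comp ι = ρ.comp θ := by
        ext x
        simp [φ, ι]
      have h6 : φ (ι a) = 0 := by
        apply (hJ φ).2
        · rw [h5]; exact h4
        · exact ha
      have h7 : ρ (θ a) = 0 := by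
        have := DFunLike.congr_fun h5 a
        simp only [AlgHom.comp_apply] at this
        rw [← this]; exact h6
      rw [h7]; ring
    rcases mul_eq_zero.1 h1 with h2 | h2
    · rcases mul_eq_zero.1 h2 with h3 | h3
      · exact h3
      · exact absurd h3 hg
    · exact absurd h2 hθh
  have hτJ : ∀ x ∈ J, τh x = 0 := by
    intro x hx
    obtain ⟨n, a, ha⟩ := IsLocalization.Away.surj h x
    have h1 : ι a ∈ J := by
      have : ι a = algebraMap A (Localization.Away h) a := rfl
      rw [this, ← ha]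
      exact J.mul_mem_right _ hx
    have h2 := hτ a (hkill a h1)
    rw [← hτh, show ι a = x * (ι h) ^ n from ha.symm, map_mul, map_pow, hτh] at h2
    exact (IsUnit.mul_left_eq_zero (hunit.pow n)).1 h2
  let τJ : (Localization.Away h ⧸ J) →ₐ[k] Tr k 2 := Ideal.Quotient.liftₐ J τh hτJ
  have hτJ' : ∀ a, τJ (q (ι a)) = τ a := by
    intro a
    rw [← hτh]
    rfl
  exact smooth_contra (q (ι u)) (q (ι v)) (q (ι w)) hrel' τJ (by rw [hτJ', hu]) (by rw [hτJ', hv])
    (by rw [hτJ', hw])

theorem not_smooth_at [IsAlgClosed k] {A : Type u} [CommRing A] [Algebra k A]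
    [Algebra.FiniteType k A] {X : Scheme.{u}} (s : X ⟶ Spec (CommRingCat.of k))
    (ι : Spec (CommRingCat.of A) ⟶ X) [IsOpenImmersion ι]
    (hι : ι ≫ s = Spec.map (CommRingCat.ofHom (algebraMap k A)))
    {Z : Scheme.{u}} (j : Z ⟶ X) [IsImmersion j] [IsReduced Z] (U : X.Opens)
    (E : (A →ₐ[k] k) → Prop)
    (hE : ∀ φ : A →ₐ[k] k, ι (kpt φ) ∈ U → (ι (kpt φ) ∈ Set.range j ↔ E φ))
    (φ₀ : A →ₐ[k] k) (h₀ : ι (kpt φ₀) ∈ U) (u v w : A)
    (hrel : ∀ φ, E φ → φ w ^ 2 = φ u * φ v ^ 2)
    {S : Type u} [CommRing S] [IsDomain S] [Algebra k S] (θ : A →ₐ[k] S) (g : S)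
    (hpts : ∀ f : S, (∀ ρ : S →ₐ[k] k, ρ f = 0) → f = 0)
    (hg : g ≠ 0) (hθ : ∀ ρ : S →ₐ[k] k, ρ g ≠ 0 → E (ρ.comp θ))
    (τ : A →ₐ[k] Tr k 2) (hτ : ∀ a, θ a = 0 → τ a = 0)
    (hu : τ u = 0) (hv : τ v = 0) (hw : τ w = Ideal.Quotient.mk _ Polynomial.X)
    (hφτ : ∀ a, φ₀ a ≠ 0 → IsUnit (τ a))
    (z : Z) (hz : j z = ι (kpt φ₀)) (W : Z.Opens) (hzW : z ∈ W)
    (hW : Smooth (W.ι ≫ j ≫ s)) : False := by
  obtain ⟨O, hO, hOW⟩ := j.isEmbedding.isInducing.isOpen_iff.1 W.2
  let V : Set (Spec (CommRingCat.of A)) := ι ⁻¹' ((U : Set X) ∩ O ∩ coborder (Set.range j))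
  have hVo : IsOpen V := by
    apply IsOpen.preimage ι.continuous
    exact (U.2.inter hO).inter j.isLocallyClosed_range.isOpen_coborder
  have hV0 : kpt φ₀ ∈ V := by
    refine ⟨⟨h₀, ?_⟩, ?_⟩
    · rw [← hz]
      have : z ∈ j ⁻¹' O := by rw [hOW]; exact hzW
      exact this
    · rw [← hz]
      exact subset_coborder ⟨z, rfl⟩
  obtain ⟨D, ⟨h, rfl⟩, hD0, hDV⟩ :=
    PrimeSpectrum.isTopologicalBasis_basic_opens.exists_subset_of_mem_open hV0 hVo
  let κ : Spec (CommRingCat.of (Localization.Away h)) ⟶ X :=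
    Spec.map (CommRingCat.ofHom (algebraMap A (Localization.Away h))) ≫ ι
  have hκo : IsOpenImmersion κ := inferInstance
  have hκV : ∀ x, κ x ∈ (U : Set X) ∩ O ∩ coborder (Set.range j) := by
    intro x
    have h1 : Spec.map (CommRingCat.ofHom (algebraMap A (Localization.Away h))) x ∈
        (PrimeSpectrum.basicOpen h : Set (PrimeSpectrum A)) := by
      have := PrimeSpectrum.localization_away_comap_range (Localization.Away h) h
      rw [← this]
      exact ⟨x, rfl⟩
    exact hDV h1
  have hclosed : IsClosed (Set.range (pullback.snd j κ)) := by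
    rw [Scheme.Pullback.range_snd]
    have : κ ⁻¹' Set.range j = κ ⁻¹' closure (Set.range j) := by
      ext x
      constructor
      · intro hx; exact subset_closure hx
      · intro hx
        have h1 : κ x ∈ closure (Set.range j) ∩ coborder (Set.range j) := ⟨hx, (hκV x).2⟩
        rwa [closure_inter_coborder] at h1
    rw [this]
    exact isClosed_closure.preimage κ.continuous
  have hci : IsClosedImmersion (pullback.snd j κ) := IsClosedImmersion.of_isPreimmersion _ hclosed
  obtain ⟨J, e, he⟩ := IsClosedImmersion.Spec_iff.1 hci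
  have hsm1 : Smooth (pullback.fst j κ ≫ j ≫ s) := by
    have hr : Set.range (pullback.fst j κ) ⊆ Set.range W.ι := by
      rw [Scheme.Pullback.range_fst, Scheme.Opens.range_ι]
      rintro y ⟨x, hx⟩
      have h1 : j y ∈ O := by rw [← hx]; exact (hκV x).1.2
      have h2 : y ∈ j ⁻¹' O := h1
      rw [hOW] at h2
      exact h2
    let l := IsOpenImmersion.lift W.ι (pullback.fst j κ) hr
    have hl : l ≫ W.ι = pullback.fst j κ := IsOpenImmersion.lift_fac _ _ _
    have hlo : IsOpenImmersion (l ≫ W.ι) := by rw [hl]; infer_instance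
    have hlo' : IsOpenImmersion l := IsOpenImmersion.of_comp l W.ι
    have h1 : pullback.fst j κ ≫ j ≫ s = l ≫ (W.ι ≫ j ≫ s) := by
      rw [← Category.assoc l, hl]
    rw [h1]
    infer_instance
  have hsm2 : Smooth (Spec.map (CommRingCat.ofHom (algebraMap k (Localization.Away h ⧸ J)))) := by
    have h1 : Spec.map (CommRingCat.ofHom (algebraMap k (Localization.Away h ⧸ J))) =
        e.inv ≫ (pullback.fst j κ ≫ j ≫ s) := by
      rw [← Category.assoc (pullback.fst j κ), pullback.condition, he]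
      simp only [Category.assoc, Iso.inv_hom_id_assoc, κ]
      rw [hι, ← Spec.map_comp, ← Spec.map_comp, ← CommRingCat.ofHom_comp, ← CommRingCat.ofHom_comp]
    rw [h1]
    infer_instance
  have hsm3 : Algebra.Smooth k (Localization.Away h ⧸ J) := by
    rw [HasRingHomProperty.Spec_iff (P := @Smooth)] at hsm2
    exact RingHom.smooth_algebraMap.1 hsm2
  have hred1 : IsReduced (Spec (CommRingCat.of (Localization.Away h ⧸ J))) := by
    have h1 : IsReduced (pullback j κ) := isReduced_of_isOpenImmersion (pullback.fst j κ)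
    exact isReduced_of_isOpenImmersion e.inv
  have hred : _root_.IsReduced (Localization.Away h ⧸ J) := by
    exact (affine_isReduced_iff (CommRingCat.of (Localization.Away h ⧸ J))).1 hred1
  have hrange : ∀ φ : Localization.Away h →ₐ[k] k,
      (∀ x ∈ J, φ x = 0) ↔ kpt φ ∈ Set.range (pullback.snd j κ) := by
    intro φ
    have h1 : Set.range (pullback.snd j κ) =
        Set.range (Spec.map (CommRingCat.ofHom (Ideal.Quotient.mk J))) := by
      rw [he]
      ext x
      constructor
      · rintro ⟨y, rfl⟩; exact ⟨e.hom y, rfl⟩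
      · rintro ⟨y, rfl⟩
        refine ⟨e.inv y, ?_⟩
        rw [← Scheme.Hom.comp_apply, e.inv_hom_id_assoc]
    rw [h1]
    have h2 := range_comap_of_surjective (Localization.Away h ⧸ J)
      (Ideal.Quotient.mk J) Ideal.Quotient.mk_surjective
    have h3 : kpt φ ∈ Set.range (Spec.map (CommRingCat.ofHom (Ideal.Quotient.mk J))) ↔
        (kpt φ : PrimeSpectrum (Localization.Away h)) ∈
          PrimeSpectrum.zeroLocus (RingHom.ker (Ideal.Quotient.mk J) : Set _) := by
      rw [← h2]; rfl
    have h4 : (⟨RingHom.ker φ, RingHom.ker_isPrime φ⟩ : PrimeSpectrum (Localization.Away h)) ∈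
        PrimeSpectrum.zeroLocus (RingHom.ker (Ideal.Quotient.mk J) : Set (Localization.Away h)) ↔
        ∀ x ∈ J, φ x = 0 := by
      rw [PrimeSpectrum.mem_zeroLocus, Ideal.mk_ker]
      rfl
    rw [h3]
    exact h4.symm
  have hJ : ∀ φ : Localization.Away h →ₐ[k] k, (∀ x ∈ J, φ x = 0) ↔
      E (φ.comp (IsScalarTower.toAlgHom k A (Localization.Away h))) := by
    intro φ
    rw [hrange, Scheme.Pullback.range_snd]
    have h1 : κ (kpt φ) = ι (kpt (φ.comp (IsScalarTower.toAlgHom k A (Localization.Away h)))) := by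
      rw [← kpt_comp]; rfl
    have h2 : κ (kpt φ) ∈ U := (hκV _).1.1
    rw [← hE _ (h1 ▸ h2), ← h1]
    rfl
  have hunit : IsUnit (τ h) := by
    apply hφτ
    intro h0
    exact hD0 h0
  exact alg_core E u v w hrel θ g hpts hg hθ τ hτ hu hv hw h hunit J hJ

end Pool.Agent.Helper198.Eqs
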