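import Mathlib
import Pool.Agent.Helper198.Eqs.NS

set_option autoImplicit false

open CategoryTheory CategoryTheory.Limits AlgebraicGeometry

universe u

namespace Pool.Agent.Helper198.Eqs

variable {k : Type u} [Field k]

theorem exists_of_chart {A : Type u} [CommRing A] [Algebra k A] {X : Scheme.{u}}
    (ι : Spec (CommRingCat.of A) ⟶ X) [IsOpenImmersion ι] (q : Ideal A) (g : A) :
    ∃ (Z : Scheme.{u}) (j : Z ⟶ X), IsImmersion j ∧ IsReduced Z ∧
      (Set.range j ⊆ ι '' (PrimeSpectrum.basicOpen g : Set (PrimeSpectrum A))) ∧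
      ∀ φ : A →ₐ[k] k, ι (kpt φ) ∈ Set.range j ↔ (∀ x ∈ q, φ x = 0) ∧ φ g ≠ 0 := by
  let R := A ⧸ q.radical
  let g' : R := Ideal.Quotient.mk _ g
  let L := Localization.Away g'
  let m : A →+* L := (algebraMap R L).comp (Ideal.Quotient.mk q.radical)
  have hm : Spec.map (CommRingCat.ofHom m) = Spec.map (CommRingCat.ofHom (algebraMap R L)) ≫
      Spec.map (CommRingCat.ofHom (Ideal.Quotient.mk q.radical)) := by
    rw [← Spec.map_comp, ← CommRingCat.ofHom_comp]
  have i1 : IsOpenImmersion (Spec.map (CommRingCat.ofHom (algebraMap R L))) := inferInstance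
  have i2 : IsClosedImmersion (Spec.map (CommRingCat.ofHom (Ideal.Quotient.mk q.radical))) :=
    IsClosedImmersion.spec_of_surjective _ Ideal.Quotient.mk_surjective
  have i3 : IsImmersion (Spec.map (CommRingCat.ofHom m)) := by
    rw [hm]; infer_instance
  have hR : _root_.IsReduced R :=
    (Ideal.isRadical_iff_quotient_reduced _).1 q.radical_isRadical
  have hL : _root_.IsReduced L := isReduced_localizationPreserves (Submonoid.powers g') L hR
  refine ⟨Spec (CommRingCat.of L), Spec.map (CommRingCat.ofHom m) ≫ ι, inferInstance, ?_, ?_, ?_⟩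
  · exact (affine_isReduced_iff (CommRingCat.of L)).2 hL
  · rintro _ ⟨x, rfl⟩
    refine ⟨Spec.map (CommRingCat.ofHom m) x, ?_, ?_⟩
    · have hx : IsUnit (m g) := IsLocalization.Away.algebraMap_isUnit g'
      intro hg
      have h1 : m g ∈ x.asIdeal := hg
      exact x.isPrime.ne_top (Ideal.eq_top_of_isUnit_mem _ h1 hx)
    · rw [Scheme.Hom.comp_apply]
  · intro φ
    constructor
    · rintro ⟨x, hx⟩
      rw [Scheme.Hom.comp_apply] at hx
      have h1 := ι.isOpenEmbedding.injective hx
      have h2 : ∀ a, φ a = 0 ↔ m a ∈ x.asIdeal := by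
        intro a
        have h3 : (kpt φ).asIdeal = Ideal.comap m x.asIdeal := by rw [← h1]; rfl
        have h4 : a ∈ (kpt φ).asIdeal ↔ a ∈ Ideal.comap m x.asIdeal := by rw [h3]
        exact h4
      constructor
      · intro a ha
        rw [h2]
        have : m a = 0 := by
          show algebraMap R L (Ideal.Quotient.mk _ a) = 0
          rw [Ideal.Quotient.eq_zero_iff_mem.2 (Ideal.le_radical ha), map_zero]
        rw [this]
        exact x.asIdeal.zero_mem
      · intro h0
        rw [h2] at h0
        have hx : IsUnit (m g) := IsLocalization.Away.algebraMap_isUnit g'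
        exact x.isPrime.ne_top (Ideal.eq_top_of_isUnit_mem _ h0 hx)
    · rintro ⟨h1, h2⟩
      have h3 : ∀ a ∈ q.radical, (φ : A →+* k) a = 0 := by
        rintro a ⟨n, hn⟩
        have := h1 _ hn
        rw [map_pow] at this
        exact eq_zero_of_pow_eq_zero this
      let ψ : R →+* k := Ideal.Quotient.lift _ (φ : A →+* k) h3
      have hψ : IsUnit (ψ g') := IsUnit.mk0 _ h2
      let χ : L →+* k := IsLocalization.Away.lift g' hψ
      have hχ : χ.comp m = (φ : A →+* k) := by
        ext a
        show χ (algebraMap R L (Ideal.Quotient.mk _ a)) = _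
        rw [IsLocalization.Away.lift_eq]
        rfl
      let x : Spec (CommRingCat.of L) := (⟨RingHom.ker χ, RingHom.ker_isPrime χ⟩ : PrimeSpectrum L)
      refine ⟨x, ?_⟩
      rw [Scheme.Hom.comp_apply]
      congr 1
      apply PrimeSpectrum.ext
      ext a
      have : a ∈ (Spec.map (CommRingCat.ofHom m) x).asIdeal ↔ (χ.comp m) a = 0 := Iff.rfl
      rw [this, hχ]
      rfl

end Pool.Agent.Helper198.Eqs
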