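import Mathlib
import Pool.Agent.Helper198.Eqs.Defs2

set_option autoImplicit false

open MvPolynomial
open Pool.Agent.Helper226

universe u

namespace Pool.Agent.Helper198.Eqs

variable {k : Type u} [Field k]

theorem helper167_comap_complete {R : Type u} [CommRing R] (φ : R →+* Polynomial k) (N : ℕ) :
    IsComplete ((Ideal.span {(Polynomial.X : Polynomial k) ^ N}).comap φ) := by
  intro r n a hn ha hr
  rw [Ideal.mem_comap, Ideal.mem_span_singleton]
  have hai : ∀ i, (Polynomial.X : Polynomial k) ^ (N * i) ∣ φ (a i) := by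
    intro i
    have h1 : φ (a i) ∈ (((Ideal.span {(Polynomial.X : Polynomial k) ^ N}).comap φ) ^ i).map φ :=
      Ideal.mem_map_of_mem φ (ha i)
    rw [Ideal.map_pow] at h1
    have h2 := Ideal.pow_right_mono (Ideal.map_comap_le (f := φ)
      (K := Ideal.span {(Polynomial.X : Polynomial k) ^ N})) i h1
    rw [Ideal.span_singleton_pow, Ideal.mem_span_singleton, ← pow_mul] at h2
    exact h2
  by_contra hcon
  classical
  have hex : ∃ p, ¬ (Polynomial.X : Polynomial k) ^ p ∣ φ r := ⟨N, hcon⟩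
  obtain ⟨p, hp⟩ : ∃ p, p = Nat.find hex := ⟨_, rfl⟩
  have hp1 : ¬ (Polynomial.X : Polynomial k) ^ p ∣ φ r := by rw [hp]; exact Nat.find_spec hex
  have hp2 : ∀ q < p, (Polynomial.X : Polynomial k) ^ q ∣ φ r := by
    intro q hq
    rw [hp] at hq
    have := Nat.find_min hex hq
    push Not at this
    exact this
  have hpN : p ≤ N := by rw [hp]; exact Nat.find_min' hex hcon
  have hp0 : p ≠ 0 := by
    rintro rfl
    exact hp1 (by simp)
  obtain ⟨m, rfl⟩ := Nat.exists_eq_succ_of_ne_zero hp0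
  obtain ⟨g, hg⟩ := hp2 m (Nat.lt_succ_self m)
  have hXg : ¬ (Polynomial.X : Polynomial k) ∣ g := by
    rintro ⟨g', rfl⟩
    apply hp1
    rw [hg, pow_succ]
    exact ⟨g', by ring⟩
  have hr' := congrArg φ hr
  rw [map_add, map_pow, map_sum, map_zero] at hr'
  have hdiv : (Polynomial.X : Polynomial k) ^ (m * n + 1) ∣
      ∑ i ∈ Finset.Icc 1 n, φ (a i * r ^ (n - i)) := by
    refine Finset.dvd_sum fun i hi => ?_
    rw [Finset.mem_Icc] at hi
    rw [map_mul, map_pow]
    have h1 : (Polynomial.X : Polynomial k) ^ (N * i + m * (n - i)) ∣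
        φ (a i) * φ r ^ (n - i) := by
      rw [pow_add, pow_mul _ m]
      refine mul_dvd_mul (hai i) (pow_dvd_pow_of_dvd ?_ _)
      exact ⟨g, hg⟩
    refine (pow_dvd_pow _ ?_).trans h1
    obtain ⟨j, hj⟩ := Nat.exists_eq_add_of_le hi.2
    have h2 : n - i = j := by omega
    rw [h2, hj]
    have h3 : (m + 1) * i ≤ N * i := Nat.mul_le_mul_right i hpN
    nlinarith [hi.1]
  have h4 : (Polynomial.X : Polynomial k) ^ (m * n + 1) ∣ φ r ^ n := by
    have h5 : φ r ^ n = -(∑ i ∈ Finset.Icc 1 n, φ (a i * r ^ (n - i))) :=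
      eq_neg_of_add_eq_zero_left hr'
    rw [h5]
    exact (dvd_neg).2 hdiv
  rw [hg, mul_pow, ← pow_mul, pow_succ] at h4
  have h6 : (Polynomial.X : Polynomial k) ∣ g ^ n :=
    (mul_dvd_mul_iff_left (pow_ne_zero _ Polynomial.X_ne_zero)).1 h4
  exact hXg (Polynomial.prime_X.dvd_of_dvd_pow h6)

theorem KK_complete (x₀ y₀ a₁ a₂ G b : k) : IsComplete (KK x₀ y₀ a₁ a₂ G b) :=
  helper167_comap_complete (((br a₁ a₂ G b).comp (shift x₀ y₀)) : Pl k →+* Polynomial k) 12

end Pool.Agent.Helper198.Eqs
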