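import Mathlib
import Pool.Agent.Helper198.Eqs.Defs2

set_option autoImplicit false

open MvPolynomial
open Pool.Agent.Helper226

universe u

namespace Pool.Agent.Helper198.Eqs

variable {k : Type u} [Field k]

theorem helper400_ten (w : Polynomial k) (hw : w.coeff 0 ≠ 0) (p0 p1 p2 q0 p3 q1 p4 q2 p5 q3 : k)
    (h : (Polynomial.X : Polynomial k) ^ 12 ∣ Polynomial.C p0
      + Polynomial.X ^ 2 * (Polynomial.C p1 * w)
      + Polynomial.X ^ 4 * (Polynomial.C p2 * w ^ 2)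
      + Polynomial.X ^ 5 * (Polynomial.C q0 * w ^ 3)
      + Polynomial.X ^ 6 * (Polynomial.C p3 * w ^ 3)
      + Polynomial.X ^ 7 * (Polynomial.C q1 * w ^ 4)
      + Polynomial.X ^ 8 * (Polynomial.C p4 * w ^ 4)
      + Polynomial.X ^ 9 * (Polynomial.C q2 * w ^ 5)
      + Polynomial.X ^ 10 * (Polynomial.C p5 * w ^ 5)
      + Polynomial.X ^ 11 * (Polynomial.C q3 * w ^ 6)) :
    p0 = 0 ∧ p1 = 0 ∧ p2 = 0 ∧ q0 = 0 ∧ p3 = 0 ∧ q1 = 0 ∧ p4 = 0 ∧ q2 = 0 ∧ p5 = 0 ∧ q3 = 0 := by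
  rw [Polynomial.X_pow_dvd_iff] at h
  have hw' : Polynomial.eval 0 w ≠ 0 := by rwa [← Polynomial.coeff_zero_eq_eval_zero]
  have e0 : p0 = 0 := by
    have h0 := h 0 (by norm_num)
    simpa [Polynomial.coeff_X_pow_mul'] using h0
  subst e0
  have e1 : p1 = 0 := by
    have h0 := h 2 (by norm_num)
    simpa [Polynomial.coeff_X_pow_mul', Polynomial.coeff_zero_eq_eval_zero, hw'] using h0
  subst e1
  have e2 : p2 = 0 := by
    have h0 := h 4 (by norm_num)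
    simpa [Polynomial.coeff_X_pow_mul', Polynomial.coeff_zero_eq_eval_zero, hw'] using h0
  subst e2
  have e3 : q0 = 0 := by
    have h0 := h 5 (by norm_num)
    simpa [Polynomial.coeff_X_pow_mul', Polynomial.coeff_zero_eq_eval_zero, hw'] using h0
  subst e3
  have e4 : p3 = 0 := by
    have h0 := h 6 (by norm_num)
    simpa [Polynomial.coeff_X_pow_mul', Polynomial.coeff_zero_eq_eval_zero, hw'] using h0
  subst e4
  have e5 : q1 = 0 := by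
    have h0 := h 7 (by norm_num)
    simpa [Polynomial.coeff_X_pow_mul', Polynomial.coeff_zero_eq_eval_zero, hw'] using h0
  subst e5
  have e6 : p4 = 0 := by
    have h0 := h 8 (by norm_num)
    simpa [Polynomial.coeff_X_pow_mul', Polynomial.coeff_zero_eq_eval_zero, hw'] using h0
  subst e6
  have e7 : q2 = 0 := by
    have h0 := h 9 (by norm_num)
    simpa [Polynomial.coeff_X_pow_mul', Polynomial.coeff_zero_eq_eval_zero, hw'] using h0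
  subst e7
  have e8 : p5 = 0 := by
    have h0 := h 10 (by norm_num)
    simpa [Polynomial.coeff_X_pow_mul', Polynomial.coeff_zero_eq_eval_zero, hw'] using h0
  subst e8
  have e9 : q3 = 0 := by
    have h0 := h 11 (by norm_num)
    simpa [Polynomial.coeff_X_pow_mul', Polynomial.coeff_zero_eq_eval_zero, hw'] using h0
  exact ⟨rfl, rfl, rfl, rfl, rfl, rfl, rfl, rfl, rfl, e9⟩

theorem KK_indep (x₀ y₀ a₁ a₂ G b : k) (hG : G ≠ 0) (r : Fin 10 → k)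
    (h : ∑ i, C (r i) * bas k i ∈ KK x₀ y₀ a₁ a₂ G b) : r = 0 := by
  unfold KK at h
  rw [Ideal.mem_comap, Ideal.mem_span_singleton] at h
  obtain ⟨w, hw⟩ : ∃ w : Polynomial k, w = Polynomial.C G + Polynomial.C b * Polynomial.X :=
    ⟨_, rfl⟩
  have hw0 : w.coeff 0 ≠ 0 := by
    rw [hw]
    simpa using hG
  have hC : ∀ c : k, ((br a₁ a₂ G b).comp (shift x₀ y₀)) (C c) = Polynomial.C c := by
    intro c
    rw [← MvPolynomial.algebraMap_eq, AlgHom.commutes]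
    rfl
  have hX0 : ((br a₁ a₂ G b).comp (shift x₀ y₀)) (X 0) =
      Polynomial.C x₀ + Polynomial.X ^ 2 * w := by
    rw [hw]
    simp [br, shift]
    ring
  have hX1 : ((br a₁ a₂ G b).comp (shift x₀ y₀)) (X 1) =
      Polynomial.C y₀ + Polynomial.C a₁ * (Polynomial.X ^ 2 * w) +
        Polynomial.C a₂ * (Polynomial.X ^ 2 * w) ^ 2 +
        Polynomial.X * w * (Polynomial.X ^ 2 * w) ^ 2 := by
    rw [hw]
    simp [br, shift]
    ring
  have hsum : ∑ i, C (r i) * bas k i = C (r 0) + C (r 1) * X 0 + C (r 2) * X 0 ^ 2 +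
      C (r 3) * X 0 ^ 3 + C (r 4) * X 0 ^ 4 + C (r 5) * X 0 ^ 5 + C (r 6) * X 1 +
      C (r 7) * (X 1 * X 0) + C (r 8) * (X 1 * X 0 ^ 2) + C (r 9) * (X 1 * X 0 ^ 3) := by
    simp only [Fin.sum_univ_succ, Fin.sum_univ_zero]
    have b0 : bas k 0 = 1 := rfl
    have b1 : bas k 1 = X 0 := rfl
    have b2 : bas k 2 = X 0 ^ 2 := rfl
    have b3 : bas k 3 = X 0 ^ 3 := rfl
    have b4 : bas k 4 = X 0 ^ 4 := rfl
    have b5 : bas k 5 = X 0 ^ 5 := rfl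
    have b6 : bas k 6 = X 1 := rfl
    have b7 : bas k 7 = X 1 * X 0 := rfl
    have b8 : bas k 8 = X 1 * X 0 ^ 2 := rfl
    have b9 : bas k 9 = X 1 * X 0 ^ 3 := rfl
    show C (r 0) * bas k 0 + (C (r 1) * bas k 1 + (C (r 2) * bas k 2 + (C (r 3) * bas k 3 +
      (C (r 4) * bas k 4 + (C (r 5) * bas k 5 + (C (r 6) * bas k 6 + (C (r 7) * bas k 7 +
      (C (r 8) * bas k 8 + (C (r 9) * bas k 9 + 0))))))))) = _
    rw [b0, b1, b2, b3, b4, b5, b6, b7, b8, b9]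
    ring
  rw [hsum] at h
  simp only [map_add, map_mul, map_pow, hC, hX0, hX1] at h
  obtain ⟨q3, hq3⟩ : ∃ q, q = r 9 := ⟨_, rfl⟩
  obtain ⟨q2, hq2⟩ : ∃ q, q = r 8 + 3 * x₀ * r 9 := ⟨_, rfl⟩
  obtain ⟨q1, hq1⟩ : ∃ q, q = r 7 + 2 * x₀ * r 8 + 3 * x₀ ^ 2 * r 9 := ⟨_, rfl⟩
  obtain ⟨q0, hq0⟩ : ∃ q, q = r 6 + x₀ * r 7 + x₀ ^ 2 * r 8 + x₀ ^ 3 * r 9 := ⟨_, rfl⟩
  obtain ⟨p5, hp5⟩ : ∃ q, q = r 5 + a₂ * q3 := ⟨_, rfl⟩
  obtain ⟨p4, hp4⟩ : ∃ q, q = r 4 + 5 * x₀ * r 5 + a₁ * q3 + a₂ * q2 := ⟨_, rfl⟩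
  obtain ⟨p3, hp3⟩ : ∃ q, q = r 3 + 4 * x₀ * r 4 + 10 * x₀ ^ 2 * r 5 + y₀ * q3 + a₁ * q2 +
    a₂ * q1 := ⟨_, rfl⟩
  obtain ⟨p2, hp2⟩ : ∃ q, q = r 2 + 3 * x₀ * r 3 + 6 * x₀ ^ 2 * r 4 + 10 * x₀ ^ 3 * r 5 +
    y₀ * q2 + a₁ * q1 + a₂ * q0 := ⟨_, rfl⟩
  obtain ⟨p1, hp1⟩ : ∃ q, q = r 1 + 2 * x₀ * r 2 + 3 * x₀ ^ 2 * r 3 + 4 * x₀ ^ 3 * r 4 +
    5 * x₀ ^ 4 * r 5 + y₀ * q1 + a₁ * q0 := ⟨_, rfl⟩
  obtain ⟨p0, hp0⟩ : ∃ q, q = r 0 + x₀ * r 1 + x₀ ^ 2 * r 2 + x₀ ^ 3 * r 3 + x₀ ^ 4 * r 4 +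
    x₀ ^ 5 * r 5 + y₀ * q0 := ⟨_, rfl⟩
  have h' : (Polynomial.X : Polynomial k) ^ 12 ∣ Polynomial.C p0
      + Polynomial.X ^ 2 * (Polynomial.C p1 * w)
      + Polynomial.X ^ 4 * (Polynomial.C p2 * w ^ 2)
      + Polynomial.X ^ 5 * (Polynomial.C q0 * w ^ 3)
      + Polynomial.X ^ 6 * (Polynomial.C p3 * w ^ 3)
      + Polynomial.X ^ 7 * (Polynomial.C q1 * w ^ 4)
      + Polynomial.X ^ 8 * (Polynomial.C p4 * w ^ 4)
      + Polynomial.X ^ 9 * (Polynomial.C q2 * w ^ 5)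
      + Polynomial.X ^ 10 * (Polynomial.C p5 * w ^ 5)
      + Polynomial.X ^ 11 * (Polynomial.C q3 * w ^ 6) := by
    convert h using 1
    rw [hp0, hp1, hp2, hp3, hp4, hp5, hq0, hq1, hq2, hq3]
    simp only [map_add, map_mul, map_pow, map_ofNat]
    ring
  obtain ⟨e0, e1, e2, e3, e4, e5, e6, e7, e8, e9⟩ :=
    helper400_ten w hw0 p0 p1 p2 q0 p3 q1 p4 q2 p5 q3 h'
  have r9 : r 9 = 0 := by rw [← hq3, e9]
  have r8 : r 8 = 0 := by
    rw [r9, e7] at hq2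
    linear_combination -hq2
  have r7 : r 7 = 0 := by
    rw [r9, r8, e5] at hq1
    linear_combination -hq1
  have r6 : r 6 = 0 := by
    rw [r9, r8, r7, e3] at hq0
    linear_combination -hq0
  have r5 : r 5 = 0 := by
    rw [e8, e9] at hp5
    linear_combination -hp5
  have r4 : r 4 = 0 := by
    rw [e6, e9, e7, r5] at hp4
    linear_combination -hp4
  have r3 : r 3 = 0 := by
    rw [e4, e9, e7, e5, r5, r4] at hp3
    linear_combination -hp3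
  have r2 : r 2 = 0 := by
    rw [e2, e7, e5, e3, r5, r4, r3] at hp2
    linear_combination -hp2
  have r1 : r 1 = 0 := by
    rw [e1, e5, e3, r5, r4, r3, r2] at hp1
    linear_combination -hp1
  have r0 : r 0 = 0 := by
    rw [e0, e3, r5, r4, r3, r2, r1] at hp0
    linear_combination -hp0
  funext i
  fin_cases i
  · exact r0
  · exact r1
  · exact r2
  · exact r3
  · exact r4
  · exact r5
  · exact r6
  · exact r7
  · exact r8
  · exact r9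

end Pool.Agent.Helper198.Eqs
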