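import Mathlib
import Pool.Agent.Helper198.Eqs.Defs2

set_option autoImplicit false

open MvPolynomial
open Pool.Agent.Helper226

universe u

namespace Pool.Agent.Helper198.Eqs

variable {k : Type u} [Field k]

theorem helper396_shift00 : (shift 0 0 : Pl k →ₐ[k] Pl k) = AlgHom.id k (Pl k) := by
  apply MvPolynomial.algHom_ext
  intro i
  fin_cases i
  · show shift 0 0 (X 0 : Pl k) = X 0
    rw [shift_zero', C_0, add_zero]
  · show shift 0 0 (X 1 : Pl k) = X 1
    rw [shift_one', C_0, add_zero]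

/-- span of the monomial basis plus the ideal -/
noncomputable def helper396_V (a₁ a₂ G B : k) : Submodule k (Pl k) :=
  Submodule.span k (Set.range (bas k)) ⊔ (JJ a₁ a₂ G B).restrictScalars k

theorem helper396_basV (a₁ a₂ G B : k) (i : Fin 10) : bas k i ∈ helper396_V a₁ a₂ G B :=
  Submodule.mem_sup_left (Submodule.subset_span ⟨i, rfl⟩)

theorem helper396_JV (a₁ a₂ G B : k) {p : Pl k} (hp : p ∈ JJ a₁ a₂ G B) :
    p ∈ helper396_V a₁ a₂ G B :=
  Submodule.mem_sup_right hp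

theorem helper396_CV (a₁ a₂ G B : k) {p : Pl k} (hp : p ∈ helper396_V a₁ a₂ G B) (r : k) :
    C r * p ∈ helper396_V a₁ a₂ G B := by
  rw [← smul_eq_C_mul]
  exact Submodule.smul_mem _ _ hp

theorem helper396_mulV (a₁ a₂ G B : k) (q : Pl k)
    (h : ∀ i, bas k i * q ∈ helper396_V a₁ a₂ G B) :
    ∀ p ∈ helper396_V a₁ a₂ G B, p * q ∈ helper396_V a₁ a₂ G B := by
  intro p hp
  obtain ⟨s, hs, j, hj, rfl⟩ := Submodule.mem_sup.1 hp
  rw [add_mul]
  apply Submodule.add_mem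
  · refine Submodule.span_induction (p := fun s _ => s * q ∈ helper396_V a₁ a₂ G B)
      ?_ ?_ ?_ ?_ hs
    · rintro _ ⟨i, rfl⟩; exact h i
    · rw [zero_mul]; exact Submodule.zero_mem _
    · intro x y _ _ hx hy; rw [add_mul]; exact Submodule.add_mem _ hx hy
    · intro c x _ hx; rw [smul_mul_assoc]; exact Submodule.smul_mem _ _ hx
  · exact helper396_JV _ _ _ _ (Ideal.mul_mem_right q _ hj)

theorem helper396_g1 (a₁ a₂ G B : k) : (X 1 - C a₁ * X 0 - C a₂ * X 0 ^ 2) ^ 2 - C G * X 0 ^ 5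
      - C B * (X 1 - C a₁ * X 0 - C a₂ * X 0 ^ 2) * X 0 ^ 3 ∈ JJ a₁ a₂ G B :=
  Ideal.subset_span ⟨0, rfl⟩

theorem helper396_g2 (a₁ a₂ G B : k) :
    (X 1 - C a₁ * X 0 - C a₂ * X 0 ^ 2) * X 0 ^ 4 ∈ JJ a₁ a₂ G B :=
  Ideal.subset_span ⟨1, rfl⟩

theorem helper396_g3 (a₁ a₂ G B : k) : (X 0 : Pl k) ^ 6 ∈ JJ a₁ a₂ G B :=
  Ideal.subset_span ⟨2, rfl⟩

theorem helper396_yx4 (a₁ a₂ G B : k) : (X 1 : Pl k) * X 0 ^ 4 ∈ helper396_V a₁ a₂ G B := by
  have h1 := helper396_JV _ _ _ _ (helper396_g2 a₁ a₂ G B)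
  have h2 := helper396_CV _ _ _ _ (helper396_basV a₁ a₂ G B 5) a₁
  have h3 := helper396_CV _ _ _ _ (helper396_JV _ _ _ _ (helper396_g3 a₁ a₂ G B)) a₂
  have h4 := Submodule.add_mem _ (Submodule.add_mem _ h1 h2) h3
  have h5 : (X 1 - C a₁ * X 0 - C a₂ * X 0 ^ 2) * X 0 ^ 4 + C a₁ * bas k 5 + C a₂ * X 0 ^ 6 =
      (X 1 : Pl k) * X 0 ^ 4 := by
    simp only [bas, Matrix.cons_val]
    ring
  rwa [h5] at h4

theorem helper396_mulX0 (a₁ a₂ G B : k) :
    ∀ p ∈ helper396_V a₁ a₂ G B, p * X 0 ∈ helper396_V a₁ a₂ G B := by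
  apply helper396_mulV
  intro i
  have hb := helper396_basV a₁ a₂ G B
  fin_cases i
  · have := hb 1; simpa [bas] using this
  · have := hb 2; simpa [bas, pow_succ] using this
  · have := hb 3; simpa [bas, pow_succ] using this
  · have := hb 4; simpa [bas, pow_succ] using this
  · have := hb 5; simpa [bas, pow_succ] using this
  · have := helper396_JV _ _ _ _ (helper396_g3 a₁ a₂ G B); simpa [bas, pow_succ] using this
  · have := hb 7; simpa [bas] using this
  · have := hb 8; simpa [bas, pow_succ, mul_assoc] using this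
  · have := hb 9; simpa [bas, pow_succ, mul_assoc] using this
  · have := helper396_yx4 a₁ a₂ G B; simpa [bas, pow_succ, mul_assoc] using this

theorem helper396_y2 (a₁ a₂ G B : k) : (X 1 : Pl k) * X 1 ∈ helper396_V a₁ a₂ G B := by
  have hb := helper396_basV a₁ a₂ G B
  have h1 := helper396_JV _ _ _ _ (helper396_g1 a₁ a₂ G B)
  have e : (X 1 : Pl k) * X 1 = ((X 1 - C a₁ * X 0 - C a₂ * X 0 ^ 2) ^ 2 - C G * X 0 ^ 5
      - C B * (X 1 - C a₁ * X 0 - C a₂ * X 0 ^ 2) * X 0 ^ 3) +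
      (C (G - B * a₂) * bas k 5 + C B * bas k 9 + C (- B * a₁ - a₂ ^ 2) * bas k 4 +
      C (2 * a₁) * bas k 7 + C (2 * a₂) * bas k 8 + C (- a₁ ^ 2) * bas k 2 +
      C (- 2 * a₁ * a₂) * bas k 3) := by
    simp only [bas, Matrix.cons_val, C_sub, C_mul, C_neg, C_pow]
    have : (C (2 : k) : Pl k) = 2 := map_ofNat C 2
    rw [this]
    ring
  rw [e]
  have hc := fun i r => helper396_CV _ _ _ _ (hb i) r
  exact Submodule.add_mem _ h1 (Submodule.add_mem _ (Submodule.add_mem _ (Submodule.add_mem _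
    (Submodule.add_mem _ (Submodule.add_mem _ (Submodule.add_mem _ (hc _ _) (hc _ _)) (hc _ _))
    (hc _ _)) (hc _ _)) (hc _ _)) (hc _ _))

theorem helper396_mulX1 (a₁ a₂ G B : k) :
    ∀ p ∈ helper396_V a₁ a₂ G B, p * X 1 ∈ helper396_V a₁ a₂ G B := by
  apply helper396_mulV
  intro i
  have hb := helper396_basV a₁ a₂ G B
  have h0 := helper396_mulX0 a₁ a₂ G B
  have hy := helper396_y2 a₁ a₂ G B
  have hyx := helper396_yx4 a₁ a₂ G B
  fin_cases i
  · have := hb 6; simpa [bas] using this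
  · have h := hb 7
    have e : bas k 1 * X 1 = bas k 7 := by simp only [bas, Matrix.cons_val]; ring
    show bas k 1 * X 1 ∈ _
    rw [e]; exact h
  · have e : bas k 2 * X 1 = bas k 8 := by simp only [bas, Matrix.cons_val]; ring
    show bas k 2 * X 1 ∈ _
    rw [e]; exact hb 8
  · have e : bas k 3 * X 1 = bas k 9 := by simp only [bas, Matrix.cons_val]; ring
    show bas k 3 * X 1 ∈ _
    rw [e]; exact hb 9
  · have e : bas k 4 * X 1 = X 1 * X 0 ^ 4 := by simp only [bas, Matrix.cons_val]; ring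
    show bas k 4 * X 1 ∈ _
    rw [e]; exact hyx
  · have e : bas k 5 * X 1 = X 1 * X 0 ^ 4 * X 0 := by simp only [bas, Matrix.cons_val]; ring
    show bas k 5 * X 1 ∈ _
    rw [e]; exact h0 _ hyx
  · have e : bas k 6 * X 1 = X 1 * X 1 := by simp only [bas, Matrix.cons_val]
    show bas k 6 * X 1 ∈ _
    rw [e]; exact hy
  · have e : bas k 7 * X 1 = X 1 * X 1 * X 0 := by simp only [bas, Matrix.cons_val]; ring
    show bas k 7 * X 1 ∈ _
    rw [e]; exact h0 _ hy
  · have e : bas k 8 * X 1 = X 1 * X 1 * X 0 * X 0 := by simp only [bas, Matrix.cons_val]; ring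
    show bas k 8 * X 1 ∈ _
    rw [e]; exact h0 _ (h0 _ hy)
  · have e : bas k 9 * X 1 = X 1 * X 1 * X 0 * X 0 * X 0 := by
      simp only [bas, Matrix.cons_val]; ring
    show bas k 9 * X 1 ∈ _
    rw [e]; exact h0 _ (h0 _ (h0 _ hy))

theorem helper396_top (a₁ a₂ G B : k) (f : Pl k) : f ∈ helper396_V a₁ a₂ G B := by
  induction f using MvPolynomial.induction_on with
  | C a =>
    have h := helper396_CV _ _ _ _ (helper396_basV a₁ a₂ G B 0) a
    simpa [bas] using h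
  | add p q hp hq => exact Submodule.add_mem _ hp hq
  | mul_X p i hp =>
    fin_cases i
    · exact helper396_mulX0 a₁ a₂ G B p hp
    · exact helper396_mulX1 a₁ a₂ G B p hp

theorem helper396_brX0 (a₁ a₂ G b : k) : br a₁ a₂ G b (X 0) =
    Polynomial.X ^ 2 * (Polynomial.C G + Polynomial.C b * Polynomial.X) := by
  simp [br]

theorem helper396_brX1 (a₁ a₂ G b : k) : br a₁ a₂ G b (X 1) =
    Polynomial.C a₁ * (Polynomial.X ^ 2 * (Polynomial.C G + Polynomial.C b * Polynomial.X)) +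
    Polynomial.C a₂ * (Polynomial.X ^ 2 * (Polynomial.C G + Polynomial.C b * Polynomial.X)) ^ 2 +
    Polynomial.X * (Polynomial.C G + Polynomial.C b * Polynomial.X) *
      (Polynomial.X ^ 2 * (Polynomial.C G + Polynomial.C b * Polynomial.X)) ^ 2 := by
  simp [br]

theorem helper396_brC (a₁ a₂ G b r : k) : br a₁ a₂ G b (C r) = Polynomial.C r := by
  unfold br
  rw [aeval_C]
  rfl

theorem JJ_eq (a₁ a₂ G b : k) (hG : G ≠ 0)
    (hind : ∀ r : Fin 10 → k, ∑ i, C (r i) * bas k i ∈ KK 0 0 a₁ a₂ G b → r = 0) :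
    JJ a₁ a₂ G (b / G) = (Ideal.span {(Polynomial.X : Polynomial k) ^ 12}).comap (br a₁ a₂ G b) := by
  have hle : JJ a₁ a₂ G (b / G) ≤
      (Ideal.span {(Polynomial.X : Polynomial k) ^ 12}).comap (br a₁ a₂ G b) := by
    unfold JJ
    rw [Ideal.span_le]
    rintro _ ⟨i, rfl⟩
    rw [SetLike.mem_coe, Ideal.mem_comap, Ideal.mem_span_singleton]
    have hCG : (Polynomial.C G : Polynomial k) * Polynomial.C (b / G) = Polynomial.C b := by
      rw [← Polynomial.C_mul, mul_div_cancel₀ _ hG]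
    fin_cases i
    · show _ ∣ br a₁ a₂ G b ((X 1 - C a₁ * X 0 - C a₂ * X 0 ^ 2) ^ 2 - C G * X 0 ^ 5
        - C (b / G) * (X 1 - C a₁ * X 0 - C a₂ * X 0 ^ 2) * X 0 ^ 3)
      simp only [map_sub, map_mul, map_pow, helper396_brX0, helper396_brX1, helper396_brC]
      refine ⟨-(Polynomial.C (b / G) * Polynomial.C b *
        (Polynomial.C G + Polynomial.C b * Polynomial.X) ^ 5), ?_⟩
      linear_combination (-(Polynomial.X : Polynomial k) ^ 11 *
        (Polynomial.C G + Polynomial.C b * Polynomial.X) ^ 5) * hCG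
    · show _ ∣ br a₁ a₂ G b ((X 1 - C a₁ * X 0 - C a₂ * X 0 ^ 2) * X 0 ^ 4)
      simp only [map_sub, map_mul, map_pow, helper396_brX0, helper396_brX1, helper396_brC]
      exact ⟨Polynomial.X * (Polynomial.C G + Polynomial.C b * Polynomial.X) ^ 7, by ring⟩
    · show _ ∣ br a₁ a₂ G b (X 0 ^ 6)
      simp only [map_pow, helper396_brX0]
      exact ⟨(Polynomial.C G + Polynomial.C b * Polynomial.X) ^ 6, by ring⟩
  apply le_antisymm hle
  intro f hf
  obtain ⟨s, hs, j, hj, rfl⟩ := Submodule.mem_sup.1 (helper396_top a₁ a₂ G (b / G) f)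
  have hj' : j ∈ JJ a₁ a₂ G (b / G) := hj
  have hs2 : s ∈ (Ideal.span {(Polynomial.X : Polynomial k) ^ 12}).comap (br a₁ a₂ G b) := by
    have := Ideal.sub_mem _ hf (hle hj')
    rwa [add_sub_cancel_right] at this
  obtain ⟨c, rfl⟩ := (Submodule.mem_span_range_iff_exists_fun k).1 hs
  have hc : c = 0 := by
    apply hind
    unfold KK
    rw [helper396_shift00, AlgHom.comp_id]
    simpa only [smul_eq_C_mul] using hs2
  rw [hc]
  simpa using hj'

end Pool.Agent.Helper198.Eqs
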