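import Mathlib
import Pool.Agent.Helper198.Eqs.Defs2

set_option autoImplicit false

open MvPolynomial
open Pool.Agent.Helper226

universe u

namespace Pool.Agent.Helper198.Eqs

variable {k : Type u} [Field k]

lemma h45_tr_zero {I : Ideal (Pl k)} {d : Option k} {f g : Pl k} {m : ℕ} (hm : ordAt I = m)
    (hf : f ∈ I) (h : blow d f = exc d ^ m * g) (hg : (ev0 g : k) ≠ 0) :
    ordAt (transform I d) = 0 := by
  apply ordAt_eq_zero
  rw [SetLike.not_le_iff_exists]
  exact ⟨g, mem_transform_of hm hf h, by rwa [mem_org_iff]⟩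

lemma h45_not_mem (g : Pl k) (m : ℕ) (a b : k)
    (h : (aeval ![Polynomial.C a * Polynomial.X, Polynomial.C b * Polynomial.X] g :
      Polynomial k).coeff m ≠ 0) : g ∉ org k ^ (m + 1) :=
  fun hg => h (Polynomial.X_pow_dvd_iff.1 (test_org_pow g (m + 1) hg a b) m (by omega))

lemma h45_ord3 (g0 g1 g2 : Pl k) (m : ℕ) (h0 : g0 ∈ org k ^ m) (h1 : g1 ∈ org k ^ m)
    (h2 : g2 ∈ org k ^ m) (h : g0 ∉ org k ^ (m + 1)) :
    ordAt (Ideal.span (Set.range ![g0, g1, g2])) = m := by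
  apply ordAt_eq
  · rw [Ideal.span_le]
    rintro _ ⟨i, rfl⟩
    fin_cases i
    exacts [h0, h1, h2]
  · intro hle
    exact h (hle (Ideal.subset_span ⟨0, rfl⟩))

lemma h45_tr3 (g0 g1 g2 g0' g1' g2' : Pl k) (c : Option k) (m : ℕ)
    (hm : ordAt (Ideal.span (Set.range ![g0, g1, g2])) = m)
    (h0 : blow c g0 = exc c ^ m * g0') (h1 : blow c g1 = exc c ^ m * g1')
    (h2 : blow c g2 = exc c ^ m * g2') :
    transform (Ideal.span (Set.range ![g0, g1, g2])) c
      = Ideal.span (Set.range ![g0', g1', g2']) := by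
  apply transform_span _ _ c m hm
  intro i
  fin_cases i
  exacts [h0, h1, h2]

lemma h45_step {I : Ideal (Pl k)} {c : Option k} {w : List (Option k)} (hI : 0 < ordAt I)
    (h : ∀ d, d ≠ c → ordAt (transform I d) = 0)
    (ih : ∀ l : List (Option k), 0 < ordAt (l.foldl transform (transform I c)) ↔ l <+: w) :
    ∀ l : List (Option k), 0 < ordAt (l.foldl transform I) ↔ l <+: (c :: w) := by
  intro l
  cases l with
  | nil => simp [hI]
  | cons d l =>
    rw [List.foldl_cons, List.cons_prefix_cons]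
    by_cases hd : d = c
    · subst hd
      rw [ih l]
      simp
    · rw [ordAt_foldl_zero l (h d hd)]
      simp [hd]

lemma h45_last {I : Ideal (Pl k)} (hI : 0 < ordAt I)
    (h : ∀ d, ordAt (transform I d) = 0) :
    ∀ l : List (Option k), 0 < ordAt (l.foldl transform I) ↔ l <+: [] := by
  intro l
  cases l with
  | nil => simp [hI]
  | cons d l =>
    rw [List.foldl_cons, ordAt_foldl_zero l (h d)]
    simp

/-- the ideal at level 1 -/
noncomputable def h45J1 (a₂ G B : k) : Ideal (Pl k) :=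
  Ideal.span (Set.range ![(X 1 - C a₂ * X 0) ^ 2 - C G * X 0 ^ 3 - C B * (X 1 - C a₂ * X 0) * X 0 ^ 2,
    (X 1 - C a₂ * X 0) * X 0 ^ 3, X 0 ^ 4])

/-- the ideal at level 2 -/
noncomputable def h45J2 (G B : k) : Ideal (Pl k) :=
  Ideal.span (Set.range ![X 1 ^ 2 - X 0 * (C G + C B * X 1), X 0 ^ 2 * X 1, X 0 ^ 2])

/-- the ideal at level 3 -/
noncomputable def h45J3 (G B : k) : Ideal (Pl k) :=
  Ideal.span (Set.range ![X 1 - X 0 * (C G + C B * X 1), X 0 ^ 2 * X 1 ^ 2, X 0 ^ 2 * X 1])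

/-- the ideal at level 4 -/
noncomputable def h45J4 (G B : k) : Ideal (Pl k) :=
  Ideal.span (Set.range ![X 1 - C B * X 0 * (X 1 + C G), X 0 ^ 3 * (X 1 + C G) ^ 2,
    X 0 ^ 2 * (X 1 + C G)])

/-- the ideal at level 5 -/
noncomputable def h45J5 (G B b : k) : Ideal (Pl k) :=
  Ideal.span (Set.range ![X 1 - C B * X 0 * (X 1 + C b), X 0 ^ 2 * (X 0 * (X 1 + C b) + C G) ^ 2,
    X 0 * (X 0 * (X 1 + C b) + C G)])

lemma h45_x_mem : (X 0 : Pl k) ∈ org k := by rw [mem_org_iff]; simp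

lemma h45_xx (f : Pl k) : f * X 0 ^ 2 ∈ org k ^ 2 :=
  Ideal.mul_mem_left _ _ (Ideal.pow_mem_pow h45_x_mem 2)

lemma h45_ord0 (a₁ a₂ G B : k) : ordAt (JJ a₁ a₂ G B) = 2 := by
  apply h45_ord3
  · have hz : (X 1 - C a₁ * X 0 - C a₂ * X 0 ^ 2 : Pl k) ∈ org k := by rw [mem_org_iff]; simp
    have h1 := Ideal.pow_mem_pow hz 2
    have h2 := h45_xx (C G * X 0 ^ 3 + C B * (X 1 - C a₁ * X 0 - C a₂ * X 0 ^ 2) * X 0 : Pl k)
    have h3 := Ideal.sub_mem _ h1 h2
    have h4 : ((X 1 - C a₁ * X 0 - C a₂ * X 0 ^ 2) ^ 2 - C G * X 0 ^ 5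
      - C B * (X 1 - C a₁ * X 0 - C a₂ * X 0 ^ 2) * X 0 ^ 3 : Pl k) =
      (X 1 - C a₁ * X 0 - C a₂ * X 0 ^ 2) ^ 2 -
      (C G * X 0 ^ 3 + C B * (X 1 - C a₁ * X 0 - C a₂ * X 0 ^ 2) * X 0) * X 0 ^ 2 := by ring
    rw [h4]
    exact h3
  · have h4 : ((X 1 - C a₁ * X 0 - C a₂ * X 0 ^ 2) * X 0 ^ 4 : Pl k) =
      ((X 1 - C a₁ * X 0 - C a₂ * X 0 ^ 2) * X 0 ^ 2) * X 0 ^ 2 := by ring
    rw [h4]
    exact h45_xx _
  · have h4 : (X 0 ^ 6 : Pl k) = X 0 ^ 4 * X 0 ^ 2 := by ring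
    rw [h4]
    exact h45_xx _
  · apply h45_not_mem _ 2 0 1
    have h5 : (aeval ![Polynomial.C (0 : k) * Polynomial.X, Polynomial.C (1 : k) * Polynomial.X]
        ((X 1 - C a₁ * X 0 - C a₂ * X 0 ^ 2) ^ 2 - C G * X 0 ^ 5
      - C B * (X 1 - C a₁ * X 0 - C a₂ * X 0 ^ 2) * X 0 ^ 3 : Pl k) : Polynomial k)
        = Polynomial.X ^ 2 := by simp
    rw [h5]
    simp

lemma h45_ord1 (a₂ G B : k) : ordAt (h45J1 a₂ G B) = 2 := by
  apply h45_ord3
  · have hz : (X 1 - C a₂ * X 0 : Pl k) ∈ org k := by rw [mem_org_iff]; simp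
    have h1 := Ideal.pow_mem_pow hz 2
    have h2 := h45_xx (C G * X 0 + C B * (X 1 - C a₂ * X 0) : Pl k)
    have h3 := Ideal.sub_mem _ h1 h2
    have h4 : ((X 1 - C a₂ * X 0) ^ 2 - C G * X 0 ^ 3 - C B * (X 1 - C a₂ * X 0) * X 0 ^ 2 : Pl k) =
      (X 1 - C a₂ * X 0) ^ 2 - (C G * X 0 + C B * (X 1 - C a₂ * X 0)) * X 0 ^ 2 := by ring
    rw [h4]
    exact h3
  · have h4 : ((X 1 - C a₂ * X 0) * X 0 ^ 3 : Pl k) = ((X 1 - C a₂ * X 0) * X 0) * X 0 ^ 2 := by ring
    rw [h4]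
    exact h45_xx _
  · have h4 : (X 0 ^ 4 : Pl k) = X 0 ^ 2 * X 0 ^ 2 := by ring
    rw [h4]
    exact h45_xx _
  · apply h45_not_mem _ 2 0 1
    have h5 : (aeval ![Polynomial.C (0 : k) * Polynomial.X, Polynomial.C (1 : k) * Polynomial.X]
        ((X 1 - C a₂ * X 0) ^ 2 - C G * X 0 ^ 3 - C B * (X 1 - C a₂ * X 0) * X 0 ^ 2 : Pl k) :
          Polynomial k) = Polynomial.X ^ 2 := by simp
    rw [h5]
    simp

lemma h45_ord2 (G B : k) (hG : G ≠ 0) : ordAt (h45J2 G B) = 1 := by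
  apply h45_ord3
  · rw [pow_one, mem_org_iff]; simp
  · rw [pow_one, mem_org_iff]; simp
  · rw [pow_one, mem_org_iff]; simp
  · apply h45_not_mem _ 1 1 0
    have h5 : (aeval ![Polynomial.C (1 : k) * Polynomial.X, Polynomial.C (0 : k) * Polynomial.X]
        (X 1 ^ 2 - X 0 * (C G + C B * X 1) : Pl k) : Polynomial k)
        = - (Polynomial.C G * Polynomial.X) := by
      simp
    rw [h5]
    simpa using hG

lemma h45_ord3' (G B : k) : ordAt (h45J3 G B) = 1 := by
  apply h45_ord3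
  · rw [pow_one, mem_org_iff]; simp
  · rw [pow_one, mem_org_iff]; simp
  · rw [pow_one, mem_org_iff]; simp
  · apply h45_not_mem _ 1 0 1
    have h5 : (aeval ![Polynomial.C (0 : k) * Polynomial.X, Polynomial.C (1 : k) * Polynomial.X]
        (X 1 - X 0 * (C G + C B * X 1) : Pl k) : Polynomial k) = Polynomial.X := by simp
    rw [h5]
    simp

lemma h45_ord4 (G B : k) : ordAt (h45J4 G B) = 1 := by
  apply h45_ord3
  · rw [pow_one, mem_org_iff]; simp
  · rw [pow_one, mem_org_iff]; simp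
  · rw [pow_one, mem_org_iff]; simp
  · apply h45_not_mem _ 1 0 1
    have h5 : (aeval ![Polynomial.C (0 : k) * Polynomial.X, Polynomial.C (1 : k) * Polynomial.X]
        (X 1 - C B * X 0 * (X 1 + C G) : Pl k) : Polynomial k) = Polynomial.X := by simp
    rw [h5]
    simp

lemma h45_ord5 (G B b : k) : ordAt (h45J5 G B b) = 1 := by
  apply h45_ord3
  · rw [pow_one, mem_org_iff]; simp
  · rw [pow_one, mem_org_iff]; simp
  · rw [pow_one, mem_org_iff]; simp
  · apply h45_not_mem _ 1 0 1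
    have h5 : (aeval ![Polynomial.C (0 : k) * Polynomial.X, Polynomial.C (1 : k) * Polynomial.X]
        (X 1 - C B * X 0 * (X 1 + C b) : Pl k) : Polynomial k) = Polynomial.X := by simp
    rw [h5]
    simp

lemma h45_t0 (a₁ a₂ G B : k) : transform (JJ a₁ a₂ G B) (some a₁) = h45J1 a₂ G B := by
  apply h45_tr3 _ _ _ _ _ _ _ 2 (h45_ord0 a₁ a₂ G B) <;>
  simp only [map_sub, map_mul, map_pow, blow_some_zero, blow_some_one, blow_C, exc_some] <;> ring

lemma h45_t1 (a₂ G B : k) : transform (h45J1 a₂ G B) (some a₂) = h45J2 G B := by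
  apply h45_tr3 _ _ _ _ _ _ _ 2 (h45_ord1 a₂ G B) <;>
  simp only [map_sub, map_mul, map_pow, blow_some_zero, blow_some_one, blow_C, exc_some] <;> ring

lemma h45_t2 (G B : k) (hG : G ≠ 0) : transform (h45J2 G B) none = h45J3 G B := by
  apply h45_tr3 _ _ _ _ _ _ _ 1 (h45_ord2 G B hG) <;>
  simp only [map_sub, map_add, map_mul, map_pow, blow_none_zero, blow_none_one, blow_C, exc_none]
    <;> ring

lemma h45_t3 (G B : k) : transform (h45J3 G B) (some G) = h45J4 G B := by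
  apply h45_tr3 _ _ _ _ _ _ _ 1 (h45_ord3' G B) <;>
  simp only [map_sub, map_add, map_mul, map_pow, blow_some_zero, blow_some_one, blow_C, exc_some]
    <;> ring

lemma h45_t4 (G B b : k) (hb : B * G = b) :
    transform (h45J4 G B) (some b) = h45J5 G B b := by
  have hC : (C b : Pl k) = C B * C G := by rw [← hb, map_mul]
  apply h45_tr3 _ _ _ _ _ _ _ 1 (h45_ord4 G B) <;>
  simp only [map_sub, map_add, map_mul, map_pow, blow_some_zero, blow_some_one, blow_C, exc_some]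
    <;> rw [hC] <;> ring

lemma h45_z0 (a₁ a₂ G B : k) (d : Option k) (hd : d ≠ some a₁) :
    ordAt (transform (JJ a₁ a₂ G B) d) = 0 := by
  have hf : ((X 1 - C a₁ * X 0 - C a₂ * X 0 ^ 2) ^ 2 - C G * X 0 ^ 5
      - C B * (X 1 - C a₁ * X 0 - C a₂ * X 0 ^ 2) * X 0 ^ 3 : Pl k) ∈ JJ a₁ a₂ G B :=
    Ideal.subset_span ⟨0, rfl⟩
  cases d with
  | none =>
    apply h45_tr_zero (g := (1 - C a₁ * X 0 - C a₂ * X 0 ^ 2 * X 1) ^ 2 - C G * X 0 ^ 5 * X 1 ^ 3
      - C B * (1 - C a₁ * X 0 - C a₂ * X 0 ^ 2 * X 1) * X 0 ^ 3 * X 1 ^ 2)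
      (h45_ord0 a₁ a₂ G B) hf
    · simp only [map_sub, map_mul, map_pow, blow_none_zero, blow_none_one, blow_C, exc_none]
      ring
    · simp
  | some c =>
    have hc : c - a₁ ≠ 0 := sub_ne_zero.2 (fun h => hd (by rw [h]))
    apply h45_tr_zero (g := (X 1 + C c - C a₁ - C a₂ * X 0) ^ 2 - C G * X 0 ^ 3
      - C B * (X 1 + C c - C a₁ - C a₂ * X 0) * X 0 ^ 2)
      (h45_ord0 a₁ a₂ G B) hf
    · simp only [map_sub, map_mul, map_pow, blow_some_zero, blow_some_one, blow_C, exc_some]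
      ring
    · simpa using hc

lemma h45_z1 (a₂ G B : k) (d : Option k) (hd : d ≠ some a₂) :
    ordAt (transform (h45J1 a₂ G B) d) = 0 := by
  have hf : ((X 1 - C a₂ * X 0) ^ 2 - C G * X 0 ^ 3 - C B * (X 1 - C a₂ * X 0) * X 0 ^ 2 : Pl k)
      ∈ h45J1 a₂ G B := Ideal.subset_span ⟨0, rfl⟩
  cases d with
  | none =>
    apply h45_tr_zero (g := (1 - C a₂ * X 0) ^ 2 - C G * X 0 ^ 3 * X 1
      - C B * (1 - C a₂ * X 0) * X 0 ^ 2 * X 1)
      (h45_ord1 a₂ G B) hf
    · simp only [map_sub, map_mul, map_pow, blow_none_zero, blow_none_one, blow_C, exc_none]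
      ring
    · simp
  | some c =>
    have hc : c - a₂ ≠ 0 := sub_ne_zero.2 (fun h => hd (by rw [h]))
    apply h45_tr_zero (g := (X 1 + C c - C a₂) ^ 2 - C G * X 0
      - C B * (X 1 + C c - C a₂) * X 0)
      (h45_ord1 a₂ G B) hf
    · simp only [map_sub, map_mul, map_pow, blow_some_zero, blow_some_one, blow_C, exc_some]
      ring
    · simpa using hc

lemma h45_z2 (G B : k) (hG : G ≠ 0) (d : Option k) (hd : d ≠ none) :
    ordAt (transform (h45J2 G B) d) = 0 := by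
  have hf : (X 1 ^ 2 - X 0 * (C G + C B * X 1) : Pl k) ∈ h45J2 G B := Ideal.subset_span ⟨0, rfl⟩
  cases d with
  | none => exact absurd rfl hd
  | some c =>
    apply h45_tr_zero (g := X 0 * (X 1 + C c) ^ 2 - (C G + C B * (X 0 * (X 1 + C c))))
      (h45_ord2 G B hG) hf
    · simp only [map_sub, map_add, map_mul, map_pow, blow_some_zero, blow_some_one, blow_C, exc_some]
      ring
    · simpa using hG

lemma h45_z3 (G B : k) (d : Option k) (hd : d ≠ some G) :
    ordAt (transform (h45J3 G B) d) = 0 := by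
  have hf : (X 1 - X 0 * (C G + C B * X 1) : Pl k) ∈ h45J3 G B := Ideal.subset_span ⟨0, rfl⟩
  cases d with
  | none =>
    apply h45_tr_zero (g := 1 - X 0 * (C G + C B * X 1)) (h45_ord3' G B) hf
    · simp only [map_sub, map_add, map_mul, map_pow, blow_none_zero, blow_none_one, blow_C, exc_none]
      ring
    · simp
  | some c =>
    have hc : c - G ≠ 0 := sub_ne_zero.2 (fun h => hd (by rw [h]))
    apply h45_tr_zero (g := X 1 + C c - C G - C B * X 0 * (X 1 + C c)) (h45_ord3' G B) hf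
    · simp only [map_sub, map_add, map_mul, map_pow, blow_some_zero, blow_some_one, blow_C, exc_some]
      ring
    · simpa using hc

lemma h45_z4 (G B b : k) (hb : B * G = b) (d : Option k) (hd : d ≠ some b) :
    ordAt (transform (h45J4 G B) d) = 0 := by
  have hf : (X 1 - C B * X 0 * (X 1 + C G) : Pl k) ∈ h45J4 G B := Ideal.subset_span ⟨0, rfl⟩
  cases d with
  | none =>
    apply h45_tr_zero (g := 1 - C B * X 0 * (X 1 + C G)) (h45_ord4 G B) hf
    · simp only [map_sub, map_add, map_mul, map_pow, blow_none_zero, blow_none_one, blow_C, exc_none]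
      ring
    · simp
  | some c =>
    have hc : c - B * G ≠ 0 := sub_ne_zero.2 (fun h => hd (by rw [h, hb]))
    apply h45_tr_zero (g := X 1 + C c - C B * C G - C B * X 0 * (X 1 + C c)) (h45_ord4 G B) hf
    · simp only [map_sub, map_add, map_mul, map_pow, blow_some_zero, blow_some_one, blow_C, exc_some]
      ring
    · simpa using hc

lemma h45_z5 (G B b : k) (hG : G ≠ 0) (d : Option k) :
    ordAt (transform (h45J5 G B b) d) = 0 := by
  have hf : (X 1 - C B * X 0 * (X 1 + C b) : Pl k) ∈ h45J5 G B b := Ideal.subset_span ⟨0, rfl⟩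
  have hf2 : (X 0 * (X 0 * (X 1 + C b) + C G) : Pl k) ∈ h45J5 G B b := Ideal.subset_span ⟨2, rfl⟩
  cases d with
  | none =>
    apply h45_tr_zero (g := 1 - C B * X 0 * (X 1 + C b)) (h45_ord5 G B b) hf
    · simp only [map_sub, map_add, map_mul, map_pow, blow_none_zero, blow_none_one, blow_C, exc_none]
      ring
    · simp
  | some c =>
    apply h45_tr_zero (g := X 0 * (X 0 * (X 1 + C c) + C b) + C G) (h45_ord5 G B b) hf2
    · simp only [map_sub, map_add, map_mul, map_pow, blow_some_zero, blow_some_one, blow_C, exc_some]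
      ring
    · simpa using hG

lemma h45_shift_shift (a b c d : k) (f : Pl k) :
    shift a b (shift c d f) = shift (a + c) (b + d) f := by
  have h : (shift a b).comp (shift c d) = shift (a + c) (b + d) := by
    apply MvPolynomial.algHom_ext
    intro i
    fin_cases i <;> simp [add_assoc]
  exact DFunLike.congr_fun h f

lemma h45_shift_zero (f : Pl k) : shift 0 0 f = f := by
  have h : shift 0 0 = AlgHom.id k (Pl k) := by
    apply MvPolynomial.algHom_ext
    intro i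
    fin_cases i <;> simp
  rw [h]
  rfl

theorem KK_type (x₀ y₀ a₁ a₂ G b : k) (hG : G ≠ 0)
    (hJ : JJ a₁ a₂ G (b / G) = (Ideal.span {(Polynomial.X : Polynomial k) ^ 12}).comap (br a₁ a₂ G b)) :
    IsType (KK x₀ y₀ a₁ a₂ G b) x₀ y₀ [some a₁, some a₂, none, some G, some b] := by
  have hbG : b / G * G = b := div_mul_cancel₀ b hG
  have hmem : ∀ g : Pl k, g ∈ KK x₀ y₀ a₁ a₂ G b ↔ shift x₀ y₀ g ∈ JJ a₁ a₂ G (b / G) := by
    intro g
    rw [hJ]
    exact Iff.rfl
  have hmem' : ∀ g ∈ JJ a₁ a₂ G (b / G), shift (-x₀) (-y₀) g ∈ KK x₀ y₀ a₁ a₂ G b := by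
    intro g hg
    rw [hmem, h45_shift_shift, add_neg_cancel, add_neg_cancel, h45_shift_zero]
    exact hg
  have hmap : (KK x₀ y₀ a₁ a₂ G b).map (shift x₀ y₀) = JJ a₁ a₂ G (b / G) := by
    apply le_antisymm
    · rw [Ideal.map_le_iff_le_comap]
      intro g hg
      exact (hmem g).1 hg
    · intro g hg
      have h1 := Ideal.mem_map_of_mem (shift x₀ y₀) (hmem' g hg)
      rwa [h45_shift_shift, add_neg_cancel, add_neg_cancel, h45_shift_zero] at h1
  have hother : ∀ a' b' : k, ¬ (a' = x₀ ∧ b' = y₀) →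
      ordAt ((KK x₀ y₀ a₁ a₂ G b).map (shift a' b')) = 0 := by
    intro a' b' hne
    apply ordAt_eq_zero
    rw [SetLike.not_le_iff_exists]
    by_cases ha : a' = x₀
    · have hb' : b' - y₀ ≠ 0 := sub_ne_zero.2 (fun h => hne ⟨ha, h⟩)
      have hf : ((X 1 - C a₁ * X 0 - C a₂ * X 0 ^ 2) ^ 2 - C G * X 0 ^ 5
          - C (b / G) * (X 1 - C a₁ * X 0 - C a₂ * X 0 ^ 2) * X 0 ^ 3 : Pl k)
            ∈ JJ a₁ a₂ G (b / G) := Ideal.subset_span ⟨0, rfl⟩
      refine ⟨_, Ideal.mem_map_of_mem (shift a' b') (hmem' _ hf), ?_⟩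
      rw [h45_shift_shift, mem_org_iff, ha, add_neg_cancel, ← sub_eq_add_neg]
      simpa using hb'
    · have ha' : a' - x₀ ≠ 0 := sub_ne_zero.2 ha
      have hf : (X 0 ^ 6 : Pl k) ∈ JJ a₁ a₂ G (b / G) := Ideal.subset_span ⟨2, rfl⟩
      refine ⟨_, Ideal.mem_map_of_mem (shift a' b') (hmem' _ hf), ?_⟩
      rw [h45_shift_shift, mem_org_iff, ← sub_eq_add_neg]
      simpa using ha'
  have hmain : ∀ l : List (Option k), 0 < ordAt (l.foldl transform (JJ a₁ a₂ G (b / G))) ↔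
      l <+: [some a₁, some a₂, none, some G, some b] := by
    apply h45_step (by rw [h45_ord0]; norm_num) (h45_z0 a₁ a₂ G (b / G))
    rw [h45_t0]
    apply h45_step (by rw [h45_ord1]; norm_num) (h45_z1 a₂ G (b / G))
    rw [h45_t1]
    apply h45_step (by rw [h45_ord2 G _ hG]; norm_num) (h45_z2 G (b / G) hG)
    rw [h45_t2 G _ hG]
    apply h45_step (by rw [h45_ord3']; norm_num) (h45_z3 G (b / G))
    rw [h45_t3]
    apply h45_step (by rw [h45_ord4]; norm_num) (h45_z4 G (b / G) b hbG)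
    rw [h45_t4 G _ b hbG]
    exact h45_last (by rw [h45_ord5]; norm_num) (h45_z5 G (b / G) b hG)
  refine ⟨rfl, ?_, ?_⟩
  · rintro ⟨a', b', l⟩
    show 0 < ordAt (l.foldl transform ((KK x₀ y₀ a₁ a₂ G b).map (shift a' b'))) ↔
      a' = x₀ ∧ b' = y₀ ∧ l <+: [some a₁, some a₂, none, some G, some b]
    by_cases h : a' = x₀ ∧ b' = y₀
    · obtain ⟨rfl, rfl⟩ := h
      rw [hmap, hmain]
      simp
    · rw [ordAt_foldl_zero l (hother a' b' h)]
      constructor
      · intro h0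
        exact absurd h0 (lt_irrefl _)
      · rintro ⟨h1, h2, -⟩
        exact absurd ⟨h1, h2⟩ h
  · intro i
    unfold weight idealAt
    rw [hmap]
    fin_cases i
    · exact h45_ord0 a₁ a₂ G (b / G)
    · show ordAt (transform (JJ a₁ a₂ G (b / G)) (some a₁)) = 2
      rw [h45_t0]
      exact h45_ord1 a₂ G (b / G)
    · show ordAt (transform (transform (JJ a₁ a₂ G (b / G)) (some a₁)) (some a₂)) = 1
      rw [h45_t0, h45_t1]
      exact h45_ord2 G (b / G) hG
    · show ordAt (transform (transform (transform (JJ a₁ a₂ G (b / G)) (some a₁)) (some a₂))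
        none) = 1
      rw [h45_t0, h45_t1, h45_t2 G _ hG]
      exact h45_ord3' G (b / G)
    · show ordAt (transform (transform (transform (transform (JJ a₁ a₂ G (b / G)) (some a₁))
        (some a₂)) none) (some G)) = 1
      rw [h45_t0, h45_t1, h45_t2 G _ hG, h45_t3]
      exact h45_ord4 G (b / G)
    · show ordAt (transform (transform (transform (transform (transform (JJ a₁ a₂ G (b / G))
        (some a₁)) (some a₂)) none) (some G)) (some b)) = 1
      rw [h45_t0, h45_t1, h45_t2 G _ hG, h45_t3, h45_t4 G _ b hbG]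
      exact h45_ord5 G (b / G) b

end Pool.Agent.Helper198.Eqs
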