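import Mathlib
import Pool.Agent.Helper198.Eqs.Defs2

set_option autoImplicit false

open MvPolynomial
open Pool.Agent.Helper226

universe u

namespace Pool.Agent.Helper198.Eqs

variable {k : Type u} [Field k]

lemma helper612_prox {a₁ a₂ G b : k} (hG : G ≠ 0) (i j : ℕ) (hi : i ≤ 5) (hj : j ≤ 5) :
    (∃ l, ([some a₁, some a₂, none, some G, some b] : List (Option k)).take j =
      ([some a₁, some a₂, none, some G, some b] : List (Option k)).take i ++ l ∧ OnExc l) ↔
      (j = i + 1 ∨ (i = 1 ∧ j = 3)) := by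
  interval_cases i <;> interval_cases j <;> simp [OnExc, hG]

lemma helper612_cl {I : Ideal (Pl k)} {x y : k} {w : List (Option k)} (h : IsType I x y w)
    {p : InfPt k} (hp : p ∈ cluster I) :
    p = ⟨x, y, w.take p.dirs.length⟩ ∧ p.dirs.length ≤ 5 := by
  obtain ⟨h1, h2, h3⟩ := h
  obtain ⟨ha, hb, hc⟩ := (h2 p).1 hp
  refine ⟨?_, ?_⟩
  · ext1
    · exact ha
    · exact hb
    · exact List.prefix_iff_eq_take.1 hc
  · rw [← h1]; exact hc.length_le

lemma helper612_mem {I : Ideal (Pl k)} {x y : k} {w : List (Option k)} (h : IsType I x y w)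
    (n : ℕ) : (⟨x, y, w.take n⟩ : InfPt k) ∈ cluster I :=
  (h.2.1 _).2 ⟨rfl, rfl, List.take_prefix _ _⟩

lemma helper612_prec {w : List (Option k)} (x y : k) (n m : ℕ) (hn : n ≤ w.length)
    (hm : m ≤ w.length) :
    Precedes (⟨x, y, w.take n⟩ : InfPt k) ⟨x, y, w.take m⟩ ↔ n ≤ m := by
  constructor
  · rintro ⟨-, -, h⟩
    have := h.length_le
    simp only [List.length_take] at this
    omega
  · intro h
    exact ⟨rfl, rfl, List.take_prefix_take_left h⟩

lemma helper612_wt {I : Ideal (Pl k)} {x y : k} {w : List (Option k)} (h : IsType I x y w)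
    (n : ℕ) (hn : n ≤ 5) : weight I ⟨x, y, w.take n⟩ = ![2, 2, 1, 1, 1, 1] (⟨n, by omega⟩ : Fin 6) :=
  h.2.2 ⟨n, by omega⟩

theorem equisingular_of_type {I J : Ideal (Pl k)} {x₀ y₀ a₁ a₂ G b x₀' y₀' a₁' a₂' G' b' : k}
    (hG : G ≠ 0) (hG' : G' ≠ 0)
    (hI : IsType I x₀ y₀ [some a₁, some a₂, none, some G, some b])
    (hJ : IsType J x₀' y₀' [some a₁', some a₂', none, some G', some b']) : Equisingular I J := by
  set w : List (Option k) := [some a₁, some a₂, none, some G, some b] with hw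
  set w' : List (Option k) := [some a₁', some a₂', none, some G', some b'] with hw'
  have hlen : ∀ n, n ≤ 5 → (w.take n).length = n := fun n hn => by
    rw [List.length_take, hI.1]; omega
  have hlen' : ∀ n, n ≤ 5 → (w'.take n).length = n := fun n hn => by
    rw [List.length_take, hJ.1]; omega
  let e : cluster I ≃ cluster J :=
    { toFun := fun p => ⟨⟨x₀', y₀', w'.take p.1.dirs.length⟩, helper612_mem hJ _⟩
      invFun := fun q => ⟨⟨x₀, y₀, w.take q.1.dirs.length⟩, helper612_mem hI _⟩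
      left_inv := by
        intro p
        obtain ⟨h1, h2⟩ := helper612_cl hI p.2
        apply Subtype.ext
        show (⟨x₀, y₀, w.take (w'.take p.1.dirs.length).length⟩ : InfPt k) = p.1
        rw [hlen' _ h2, ← h1]
      right_inv := by
        intro q
        obtain ⟨h1, h2⟩ := helper612_cl hJ q.2
        apply Subtype.ext
        show (⟨x₀', y₀', w'.take (w.take q.1.dirs.length).length⟩ : InfPt k) = q.1
        rw [hlen _ h2, ← h1] }
  refine ⟨e, ?_, ?_, ?_⟩
  · intro p q
    obtain ⟨h1, h2⟩ := helper612_cl hI p.2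
    obtain ⟨h3, h4⟩ := helper612_cl hI q.2
    have e1 : Precedes p.1 q.1 ↔ p.1.dirs.length ≤ q.1.dirs.length := by
      conv_lhs => rw [h1, h3]
      exact helper612_prec x₀ y₀ _ _ (by rw [hI.1]; exact h2) (by rw [hI.1]; exact h4)
    have e2 : Precedes (e p).1 (e q).1 ↔ p.1.dirs.length ≤ q.1.dirs.length :=
      helper612_prec x₀' y₀' _ _ (by rw [hJ.1]; exact h2) (by rw [hJ.1]; exact h4)
    rw [e1, e2]
  · intro p q
    obtain ⟨h1, h2⟩ := helper612_cl hI p.2
    obtain ⟨h3, h4⟩ := helper612_cl hI q.2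
    have e1 : Proximate p.1 q.1 ↔
        (p.1.dirs.length = q.1.dirs.length + 1 ∨ (q.1.dirs.length = 1 ∧ p.1.dirs.length = 3)) := by
      conv_lhs => rw [h1, h3]
      rw [proximate_iff]
      rw [← helper612_prox (a₁ := a₁) (a₂ := a₂) (b := b) hG _ _ h4 h2]
      simp only [true_and]
      rfl
    have e2 : Proximate (e p).1 (e q).1 ↔
        (p.1.dirs.length = q.1.dirs.length + 1 ∨ (q.1.dirs.length = 1 ∧ p.1.dirs.length = 3)) := by
      show Proximate (⟨x₀', y₀', w'.take p.1.dirs.length⟩ : InfPt k)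
        ⟨x₀', y₀', w'.take q.1.dirs.length⟩ ↔ _
      rw [proximate_iff]
      rw [← helper612_prox (a₁ := a₁') (a₂ := a₂') (b := b') hG' _ _ h4 h2]
      simp only [true_and]
      rfl
    rw [e1, e2]
  · intro p
    obtain ⟨h1, h2⟩ := helper612_cl hI p.2
    have e1 := helper612_wt hI p.1.dirs.length h2
    have e2 := helper612_wt hJ p.1.dirs.length h2
    rw [← h1] at e1
    rw [e1]
    exact e2.symm

end Pool.Agent.Helper198.Eqs
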