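import Mathlib
import Pool.Agent.Helper198.Eqs.Defs2

set_option autoImplicit false

open MvPolynomial
open Pool.Agent.Helper226

universe u

namespace Pool.Agent.Helper198.Eqs

variable {k : Type u} [Field k]

lemma helper264_prox_take (x y : k) (W : List (Option k)) (i j : ℕ) (hij : i ≤ j)
    (hj : j ≤ W.length) :
    Proximate (⟨x, y, W.take j⟩ : InfPt k) ⟨x, y, W.take i⟩ ↔ OnExc ((W.take j).drop i) := by
  rw [proximate_iff]
  have h1 : W.take j = W.take i ++ (W.take j).drop i := by
    have h2 := List.take_append_drop i (W.take j)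
    rw [List.take_take, min_eq_left hij] at h2
    exact h2.symm
  constructor
  · rintro ⟨-, -, l, hl, hl'⟩
    have h3 : W.take j = W.take i ++ l := hl
    rw [h1] at h3
    rw [List.append_cancel_left h3]
    exact hl'
  · intro h
    exact ⟨rfl, rfl, _, h1, h⟩

lemma helper264_prefix_take {l w : List (Option k)} (h : l <+: w) : l = w.take l.length :=
  List.prefix_iff_eq_take.1 h

theorem type_of_equisingular {I J : Ideal (Pl k)} {x₀ y₀ a₁ a₂ G b : k} (hG : G ≠ 0)
    (hI : IsType I x₀ y₀ [some a₁, some a₂, none, some G, some b]) (h : Equisingular I J) :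
    ∃ (x y : k) (w : List (Option k)), IsType J x y w ∧
      (w[0]? = some none ∨ ∃ a₁' a₂' G' b' : k, G' ≠ 0 ∧
        w = [some a₁', some a₂', none, some G', some b']) := by
  obtain ⟨e, he1, he2, he3⟩ := h
  obtain ⟨W, hW⟩ : ∃ W : List (Option k), W = [some a₁, some a₂, none, some G, some b] := ⟨_, rfl⟩
  rw [← hW] at hI
  obtain ⟨hWl, hI2, hI3⟩ := hI
  have hPmem : ∀ i : ℕ, (⟨x₀, y₀, W.take i⟩ : InfPt k) ∈ cluster I := fun i =>
    (hI2 _).2 ⟨rfl, rfl, List.take_prefix _ _⟩
  obtain ⟨P, hP⟩ : ∃ P : ℕ → cluster I, ∀ i, (P i).1 = ⟨x₀, y₀, W.take i⟩ :=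
    ⟨fun i => ⟨_, hPmem i⟩, fun i => rfl⟩
  have hPall : ∀ r : cluster J, ∃ i ≤ 5, r = e (P i) := by
    intro r
    have h1 := (hI2 (e.symm r).1).1 (e.symm r).2
    obtain ⟨h2, h3, h4⟩ := h1
    refine ⟨(e.symm r).1.dirs.length, ?_, ?_⟩
    · rw [← hWl]
      exact h4.length_le
    · have h5 : e.symm r = P (e.symm r).1.dirs.length := by
        apply Subtype.ext
        rw [hP]
        ext1
        · exact h2
        · exact h3
        · exact helper264_prefix_take h4
      rw [← h5, Equiv.apply_symm_apply]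
  have hPprec : ∀ i j, i ≤ j → Precedes (P i).1 (P j).1 := by
    intro i j hij
    rw [hP, hP]
    refine ⟨rfl, rfl, ?_⟩
    show W.take i <+: W.take j
    have : W.take i = (W.take j).take i := by rw [List.take_take, min_eq_left hij]
    rw [this]
    exact List.take_prefix _ _
  have hPinj : ∀ i j, i ≤ 5 → j ≤ 5 → P i = P j → i = j := by
    intro i j hi hj hij
    have h1 : (P i).1.dirs.length = (P j).1.dirs.length := by rw [hij]
    rw [hP, hP] at h1
    simp only [List.length_take, hWl] at h1
    omega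
  obtain ⟨x, hx⟩ : ∃ x, x = (e (P 5)).1.a := ⟨_, rfl⟩
  obtain ⟨y, hy⟩ : ∃ y, y = (e (P 5)).1.b := ⟨_, rfl⟩
  obtain ⟨w, hw⟩ : ∃ w, w = (e (P 5)).1.dirs := ⟨_, rfl⟩
  have hq : ∀ i ≤ 5, (e (P i)).1.a = x ∧ (e (P i)).1.b = y ∧ (e (P i)).1.dirs <+: w := by
    intro i hi
    rw [hx, hy, hw]
    exact (he1 _ _).1 (hPprec i 5 hi)
  obtain ⟨n, hn⟩ : ∃ n : ℕ → ℕ, ∀ i, n i = (e (P i)).1.dirs.length := ⟨_, fun i => rfl⟩
  have hqd : ∀ i ≤ 5, (e (P i)).1 = ⟨x, y, w.take (n i)⟩ := by
    intro i hi
    obtain ⟨h1, h2, h3⟩ := hq i hi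
    ext1
    · exact h1
    · exact h2
    · rw [hn]
      exact helper264_prefix_take h3
  have hnlt : ∀ i, i + 1 ≤ 5 → n i < n (i + 1) := by
    intro i hi
    have h1 := (he1 _ _).1 (hPprec i (i + 1) (by omega))
    have h2 : n i ≤ n (i + 1) := by
      rw [hn, hn]
      exact h1.2.2.length_le
    rcases h2.lt_or_eq with h3 | h3
    · exact h3
    · exfalso
      have h4 : (e (P i)).1 = (e (P (i + 1))).1 := by
        rw [hqd i (by omega), hqd (i + 1) hi, h3]
      have h5 := hPinj i (i + 1) (by omega) hi (e.injective (Subtype.ext h4))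
      omega
  have hmemJ : ∀ l : List (Option k), l <+: w → (⟨x, y, l⟩ : InfPt k) ∈ cluster J := by
    intro l hl
    refine mem_cluster_of_precedes (q := (e (P 5)).1) ⟨hx, hy, ?_⟩ (e (P 5)).2
    rw [← hw]
    exact hl
  have hn5 : n 5 = w.length := by rw [hn, hw]
  have hwlen : w.length ≤ 5 := by
    by_contra hcon
    rw [not_le] at hcon
    -- the prefixes of length `0, ..., 6` give seven different points
    have h1 : ∀ m : Fin 7, ∃ i : Fin 6, (⟨x, y, w.take m⟩ : InfPt k) = (e (P i)).1 := by
      intro m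
      obtain ⟨i, hi, hi'⟩ := hPall ⟨⟨x, y, w.take m⟩, hmemJ _ (List.take_prefix _ _)⟩
      exact ⟨⟨i, by omega⟩, congrArg Subtype.val hi'⟩
    choose f hf using h1
    have hfinj : Function.Injective f := by
      intro m m' hmm
      have h2 : (⟨x, y, w.take m⟩ : InfPt k) = ⟨x, y, w.take m'⟩ := by
        rw [hf m, hf m', hmm]
      have h3 : (w.take m).length = (w.take m').length :=
        congrArg (fun p : InfPt k => p.dirs.length) h2
      rw [List.length_take, List.length_take] at h3
      have h4 := m.2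
      have h5 := m'.2
      exact Fin.ext (by omega)
    have := Fintype.card_le_of_injective f hfinj
    simp at this
  have l0 := hnlt 0 (by norm_num)
  have l1 := hnlt 1 (by norm_num)
  have l2 := hnlt 2 (by norm_num)
  have l3 := hnlt 3 (by norm_num)
  have l4 := hnlt 4 (by norm_num)
  have hni : ∀ i ≤ 5, n i = i := by
    intro i hi
    norm_num at l0 l1 l2 l3 l4
    interval_cases i <;> omega
  have hw5 : w.length = 5 := by rw [← hn5, hni 5 le_rfl]
  have hqt : ∀ i ≤ 5, (e (P i)).1 = ⟨x, y, w.take i⟩ := by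
    intro i hi
    rw [hqd i hi, hni i hi]
  have hprox : ∀ i j, i ≤ j → j ≤ 5 → (OnExc ((W.take j).drop i) ↔ OnExc ((w.take j).drop i)) := by
    intro i j hij hj
    have h1 := he2 (P j) (P i)
    rw [hP, hP, hqt i (by omega), hqt j hj, helper264_prox_take x₀ y₀ W i j hij (by omega),
      helper264_prox_take x y w i j hij (by omega)] at h1
    exact h1
  refine ⟨x, y, w, ⟨hw5, ?_, ?_⟩, ?_⟩
  · intro p
    constructor
    · intro hp
      obtain ⟨i, hi, hi'⟩ := hPall ⟨p, hp⟩
      have h1 : p = ⟨x, y, w.take i⟩ := by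
        rw [← hqt i hi, ← hi']
      rw [h1]
      exact ⟨rfl, rfl, List.take_prefix _ _⟩
    · rintro ⟨h1, h2, h3⟩
      have h4 := hmemJ p.dirs h3
      have h5 : p = ⟨x, y, p.dirs⟩ := by
        ext1
        · exact h1
        · exact h2
        · rfl
      rw [h5]
      exact h4
  · intro i
    have h1 := he3 (P i)
    rw [hP, hqt i (by omega), hI3 i] at h1
    exact h1.symm
  · have hc02 := hprox 0 2 (by norm_num) (by norm_num)
    have hc13 := hprox 1 3 (by norm_num) (by norm_num)
    have hc24 := hprox 2 4 (by norm_num) (by norm_num)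
    have hc14 := hprox 1 4 (by norm_num) (by norm_num)
    have hc35 := hprox 3 5 (by norm_num) (by norm_num)
    clear hprox hqt hni l0 l1 l2 l3 l4 hwlen hn5 hmemJ hnlt hqd hq hPinj hPprec hPall hI2 hI3
    subst hW
    rcases w with _ | ⟨c0, _ | ⟨c1, _ | ⟨c2, _ | ⟨c3, _ | ⟨c4, _ | ⟨c5, w'⟩⟩⟩⟩⟩⟩
    · simp at hw5
    · simp at hw5
    · simp at hw5
    · simp at hw5
    · simp at hw5
    · simp only [List.take_succ_cons, List.take_zero, List.drop_succ_cons, List.drop_zero, OnExc,
        List.mem_cons, List.not_mem_nil, or_false, forall_eq] at hc02 hc13 hc24 hc14 hc35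
      cases c0 with
      | none => left; rfl
      | some a1 =>
        right
        cases c1 with
        | none => simp at hc02
        | some a2 =>
          simp at hc13
          subst hc13
          cases c3 with
          | none => simp at hc14
          | some G' =>
            simp [hG] at hc24
            cases c4 with
            | none => simp at hc35
            | some b' => exact ⟨a1, a2, G', b', hc24, rfl⟩
    · simp at hw5


end Pool.Agent.Helper198.Eqs
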