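import Mathlib
import Pool.Agent.Helper198.Eqs.Defs2

set_option autoImplicit false

open MvPolynomial
open Pool.Agent.Helper226

universe u

namespace Pool.Agent.Helper198.Eqs

variable {k : Type u} [Field k]

noncomputable def helper79_psi5 (k : Type u) [Field k] : Pl k →ₐ[k] Polynomial k :=
  aeval (R := k) ![Polynomial.C 1 * Polynomial.X, Polynomial.C 0 * Polynomial.X]

lemma helper79_psi5_0 : helper79_psi5 k (X 0) = Polynomial.X := by simp [helper79_psi5]
lemma helper79_psi5_1 : helper79_psi5 k (X 1) = 0 := by simp [helper79_psi5]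
lemma helper79_psi5_C (r : k) : helper79_psi5 k (C r) = Polynomial.C r := by
  rw [helper79_psi5, aeval_C]; rfl

lemma helper79_br_0 (a₁ a₂ G b : k) : br a₁ a₂ G b (X 0) =
    Polynomial.X ^ 2 * (Polynomial.C G + Polynomial.C b * Polynomial.X) := by simp [br]
lemma helper79_br_1 (a₁ a₂ G b : k) : br a₁ a₂ G b (X 1) =
    Polynomial.C a₁ * (Polynomial.X ^ 2 * (Polynomial.C G + Polynomial.C b * Polynomial.X)) +
    Polynomial.C a₂ * (Polynomial.X ^ 2 * (Polynomial.C G + Polynomial.C b * Polynomial.X)) ^ 2 +
    Polynomial.X * (Polynomial.C G + Polynomial.C b * Polynomial.X) *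
      (Polynomial.X ^ 2 * (Polynomial.C G + Polynomial.C b * Polynomial.X)) ^ 2 := by simp [br]

theorem helper79_br0 (a₁ a₂ G b : k) :
    helper79_psi5 k
      (blow (some b) (blow (some G) (blow none (blow (some a₂) (blow (some a₁) (X 0)))))) =
      br a₁ a₂ G b (X 0) := by
  simp only [helper79_br_0, blow_some_zero, blow_none_zero, blow_some_one, map_mul, map_add,
    blow_C, helper79_psi5_0, helper79_psi5_1, helper79_psi5_C]
  ring

theorem helper79_br1 (a₁ a₂ G b : k) :
    helper79_psi5 k
      (blow (some b) (blow (some G) (blow none (blow (some a₂) (blow (some a₁) (X 1)))))) =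
      br a₁ a₂ G b (X 1) := by
  simp only [helper79_br_1, blow_some_zero, blow_none_zero, blow_none_one, blow_some_one, map_mul,
    map_add, blow_C, helper79_psi5_0, helper79_psi5_1, helper79_psi5_C]
  ring

theorem helper79_br (a₁ a₂ G b : k) :
    (((((((helper79_psi5 k).comp (blow (some b))).comp (blow (some G))).comp
        (blow none)).comp (blow (some a₂))).comp (blow (some a₁)))) = br a₁ a₂ G b := by
  apply MvPolynomial.algHom_ext
  intro i
  match i with
  | 0 => exact helper79_br0 a₁ a₂ G b
  | 1 => exact helper79_br1 a₁ a₂ G b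

theorem helper79_step {I : Ideal (Pl k)} {c : Option k} {ψ : Pl k →ₐ[k] Polynomial k}
    {N e m : ℕ} (N' : ℕ) (hN : N' = N + e * m) (hm : ordAt I = m)
    (h : ∀ g ∈ transform I c, (Polynomial.X : Polynomial k) ^ N ∣ ψ g)
    (he : (Polynomial.X : Polynomial k) ^ e ∣ ψ (exc c)) :
    ∀ f ∈ I, (Polynomial.X : Polynomial k) ^ N' ∣ (ψ.comp (blow c)) f := by
  subst hN
  intro f hf
  obtain ⟨g, hg, hfg⟩ := exists_transform c hf
  have h1 : (ψ.comp (blow c)) f = ψ g * ψ (exc c) ^ m := by
    rw [AlgHom.comp_apply, hfg, map_mul, map_pow, hm, mul_comm]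
  rw [h1, pow_add, pow_mul]
  exact mul_dvd_mul (h g hg) (pow_dvd_pow_of_dvd he m)

theorem helper79_mem {x₀ y₀ a₁ a₂ G b : k} {f : Pl k}
    (h : (Polynomial.X : Polynomial k) ^ 12 ∣ br a₁ a₂ G b (shift x₀ y₀ f)) :
    f ∈ KK x₀ y₀ a₁ a₂ G b := by
  unfold KK
  rw [Ideal.mem_comap, Ideal.mem_span_singleton]
  exact h

theorem le_KK_of_type {I : Ideal (Pl k)} {x₀ y₀ a₁ a₂ G b : k}
    (hI : IsType I x₀ y₀ [some a₁, some a₂, none, some G, some b]) : I ≤ KK x₀ y₀ a₁ a₂ G b := by
  obtain ⟨-, -, hw⟩ := hI
  have q0 := hw 0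
  have q1 := hw 1
  have q2 := hw 2
  have q3 := hw 3
  have q4 := hw 4
  have q5 := hw 5
  unfold weight idealAt at q0 q1 q2 q3 q4 q5
  have o0 : ordAt (I.map (shift x₀ y₀)) = 2 := by
    simpa using q0
  have o1 : ordAt (transform (I.map (shift x₀ y₀)) (some a₁)) = 2 := by
    simpa using q1
  have o2 : ordAt (transform (transform (I.map (shift x₀ y₀)) (some a₁)) (some a₂)) = 1 := by
    simpa using q2
  have o3 : ordAt (transform (transform (transform (I.map (shift x₀ y₀)) (some a₁)) (some a₂))
      none) = 1 := by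
    simpa using q3
  have o4 : ordAt (transform (transform (transform (transform (I.map (shift x₀ y₀)) (some a₁))
      (some a₂)) none) (some G)) = 1 := by
    simpa using q4
  have o5 : ordAt (transform (transform (transform (transform (transform (I.map (shift x₀ y₀))
      (some a₁)) (some a₂)) none) (some G)) (some b)) = 1 := by
    simpa using q5
  have h5 : ∀ g ∈ transform (transform (transform (transform (transform (I.map (shift x₀ y₀))
      (some a₁)) (some a₂)) none) (some G)) (some b), (Polynomial.X : Polynomial k) ^ 1 ∣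
      helper79_psi5 k g := by
    intro g hg
    have h := le_org_ordAt _ hg
    rw [o5] at h
    exact test_org_pow g 1 h 1 0
  have h4 := helper79_step (e := 1) 2 rfl o4 h5 (by
    rw [exc_some, helper79_psi5_0, pow_one])
  have h3 := helper79_step (e := 1) 3 rfl o3 h4 (by
    rw [exc_some, AlgHom.comp_apply, blow_some_zero, helper79_psi5_0, pow_one])
  have h2 := helper79_step (e := 1) 4 rfl o2 h3 (by
    simp only [exc_none, AlgHom.comp_apply, map_mul, blow_some_one, blow_some_zero,
      map_add, blow_C, helper79_psi5_0, pow_one]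
    exact Dvd.intro _ rfl)
  have h1 := helper79_step (e := 2) 8 rfl o1 h2 (by
    simp only [exc_some, AlgHom.comp_apply, blow_none_zero, map_mul, blow_some_one, blow_some_zero,
      map_add, blow_C, helper79_psi5_0]
    rw [pow_two]
    exact mul_dvd_mul_left _ (Dvd.intro _ rfl))
  have h0 := helper79_step (e := 2) 12 rfl o0 h1 (by
    simp only [exc_some, AlgHom.comp_apply, blow_none_zero, map_mul, blow_some_one, blow_some_zero,
      map_add, blow_C, helper79_psi5_0]
    rw [pow_two]
    exact mul_dvd_mul_left _ (Dvd.intro _ rfl))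
  have hbr := helper79_br a₁ a₂ G b
  intro f hf
  have h := h0 (shift x₀ y₀ f) (Ideal.mem_map_of_mem _ hf)
  rw [hbr] at h
  exact helper79_mem h

end Pool.Agent.Helper198.Eqs
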