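import Mathlib
import Pool.Agent.Helper198.Eqs.Defs2

set_option autoImplicit false

open MvPolynomial
open Pool.Agent.Helper226

universe u

namespace Pool.Agent.Helper198.Eqs

variable {k : Type u} [Field k]

theorem not_type_none {c : Chart k (bas k) k} {I : Ideal (Pl k)} (hc : ∀ f, f ∈ I ↔ c.q f = 0)
    {x₀ y₀ : k} {w : List (Option k)}
    (hI : IsType I x₀ y₀ w) (hw : w[0]? = some none) : False := by
  obtain ⟨hlen, _, hwt⟩ := hI
  obtain ⟨d, hd⟩ : ∃ d : Fin 10 → k, d = c.q (X 1 ^ 2) := ⟨_, rfl⟩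
  obtain ⟨f, hf⟩ : ∃ f : Pl k, f = X 1 ^ 2 - ∑ i, C (d i) * bas k i := ⟨_, rfl⟩
  have hfI : f ∈ I := by
    rw [hc, hf, map_sub, map_sum, ← hd, sub_eq_zero]
    have h1 : ∀ i, c.q (C (d i) * bas k i) = d i • (Pi.single i 1 : Fin 10 → k) := by
      intro i
      rw [← smul_eq_C_mul, map_smul, c.q_b]
    simp_rw [h1]
    funext j
    rw [Finset.sum_apply]
    simp [Pi.single_apply]
  -- the ideal at the root
  have hord0 : ordAt (I.map (shift x₀ y₀)) = 2 := by
    have := hwt 0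
    simpa [weight, idealAt] using this
  have htake : w.take 1 = [none] := by
    cases w with
    | nil => simp at hw
    | cons a l =>
      simp at hw
      simp [hw]
  have hord1 : ordAt (transform (I.map (shift x₀ y₀)) none) = 2 := by
    have := hwt 1
    simp only [weight, idealAt, Fin.val_one, Matrix.cons_val_one, Matrix.cons_val_zero] at this
    rw [htake] at this
    simpa using this
  have hf0 : shift x₀ y₀ f ∈ I.map (shift x₀ y₀) := Ideal.mem_map_of_mem _ hfI
  obtain ⟨g, hg, hgf⟩ := exists_transform none hf0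
  rw [hord0, exc_none] at hgf
  have hg2 : g ∈ org k ^ 2 := by
    have h := le_org_ordAt _ hg
    rwa [hord1] at h
  have hg1 : g ∈ org k := Ideal.pow_le_self (by norm_num) hg2
  rw [mem_org_iff] at hg1
  -- restriction to the line `x = 0`
  obtain ⟨ρ, hρ⟩ : ∃ ρ : Pl k →ₐ[k] Polynomial k, ρ = aeval ![0, Polynomial.X] := ⟨_, rfl⟩
  have hρg : (ρ g).coeff 0 = ev0 g := by
    rw [Polynomial.coeff_zero_eq_eval_zero]
    have h2 : ((Polynomial.aeval (0 : k)).comp ρ : Pl k →ₐ[k] k) = ev0 := by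
      apply MvPolynomial.algHom_ext
      intro i
      fin_cases i <;> simp [hρ, ev0]
    have h3 := DFunLike.congr_fun h2 g
    rw [← h3]
    simp [Polynomial.aeval_def]
  have h4 : ρ (blow none (shift x₀ y₀ f)) = Polynomial.X ^ 2 * ρ g := by
    rw [hgf, map_mul, map_pow]
    congr 2
    simp [hρ]
  have h5 : (ρ (blow none (shift x₀ y₀ f))).coeff 2 = 0 := by
    rw [h4, mul_comm, Polynomial.coeff_mul_X_pow' , if_pos le_rfl]
    simpa [hρg] using hg1
  have hX0 : ρ (blow none (shift x₀ y₀ (X 0))) = Polynomial.C x₀ := by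
    simp [hρ]
  have hX1 : ρ (blow none (shift x₀ y₀ (X 1))) = Polynomial.X + Polynomial.C y₀ := by
    simp [hρ]
  have hC : ∀ r : k, ρ (blow none (shift x₀ y₀ (C r))) = Polynomial.C r := by
    intro r
    simp [hρ]
  have h6 : ρ (blow none (shift x₀ y₀ f)) = Polynomial.X ^ 2 +
      Polynomial.C (y₀ + y₀ - (d 6 + d 7 * x₀ + d 8 * x₀ ^ 2 + d 9 * x₀ ^ 3)) * Polynomial.X +
      Polynomial.C (y₀ ^ 2 - (d 0 + d 1 * x₀ + d 2 * x₀ ^ 2 + d 3 * x₀ ^ 3 + d 4 * x₀ ^ 4 +
        d 5 * x₀ ^ 5) - y₀ * (d 6 + d 7 * x₀ + d 8 * x₀ ^ 2 + d 9 * x₀ ^ 3)) := by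
    rw [hf]
    simp only [map_sub, map_sum, map_mul, map_pow, hX1, hC]
    have hb : ∀ i, ρ (blow none (shift x₀ y₀ (bas k i))) =
        ![1, Polynomial.C x₀, Polynomial.C x₀ ^ 2, Polynomial.C x₀ ^ 3, Polynomial.C x₀ ^ 4,
          Polynomial.C x₀ ^ 5, Polynomial.X + Polynomial.C y₀,
          (Polynomial.X + Polynomial.C y₀) * Polynomial.C x₀,
          (Polynomial.X + Polynomial.C y₀) * Polynomial.C x₀ ^ 2,
          (Polynomial.X + Polynomial.C y₀) * Polynomial.C x₀ ^ 3] i := by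
      intro i
      fin_cases i <;> simp only [bas, Fin.zero_eta, Fin.mk_one, Fin.reduceFinMk, Matrix.cons_val,
        Matrix.cons_val_zero, Matrix.cons_val_one, map_one, map_mul, map_pow, hX0, hX1]
    simp only [hb]
    simp only [Fin.sum_univ_succ, Fin.sum_univ_zero]
    simp
    ring
  have h7 : ∀ β α : k, (Polynomial.X ^ 2 + Polynomial.C β * Polynomial.X +
      Polynomial.C α : Polynomial k).coeff 2 = 1 := by
    intro β α
    simp [Polynomial.coeff_X, Polynomial.coeff_C]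
  rw [h6, h7] at h5
  exact one_ne_zero h5

end Pool.Agent.Helper198.Eqs
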