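import Mathlib
import Pool.Agent.Helper198.Eqs.T1
import Pool.Agent.Helper198.Eqs.T2
import Pool.Agent.Helper198.Eqs.T3
import Pool.Agent.Helper198.Eqs.K1
import Pool.Agent.Helper198.Eqs.K2
import Pool.Agent.Helper198.Eqs.K3
import Pool.Agent.Helper198.Eqs.V1
import Pool.Agent.Helper198.Eqs.V2
import Pool.Agent.Helper226.LociPts

set_option autoImplicit false

open MvPolynomial
open Pool.Agent.Helper226

universe u

namespace Pool.Agent.Helper198.Eqs

variable {k : Type u} [Field k]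

lemma shift_zero_zero : shift (0 : k) 0 = AlgHom.id k (Pl k) := by
  apply MvPolynomial.algHom_ext
  intro i
  fin_cases i <;> simp

lemma JJ_eq' (a₁ a₂ G b : k) (hG : G ≠ 0) :
    JJ a₁ a₂ G (b / G) = (Ideal.span {(Polynomial.X : Polynomial k) ^ 12}).comap (br a₁ a₂ G b) :=
  JJ_eq a₁ a₂ G b hG (KK_indep 0 0 a₁ a₂ G b hG)

lemma KK_type' (x₀ y₀ a₁ a₂ G b : k) (hG : G ≠ 0) :
    IsType (KK x₀ y₀ a₁ a₂ G b) x₀ y₀ [some a₁, some a₂, none, some G, some b] :=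
  KK_type x₀ y₀ a₁ a₂ G b hG (JJ_eq' a₁ a₂ G b hG)

lemma baseIdeal_eq : baseIdeal k = KK 0 0 0 0 1 0 := by
  unfold KK
  rw [shift_zero_zero, AlgHom.comp_id, ← JJ_eq' 0 0 1 0 one_ne_zero]
  unfold baseIdeal JJ
  congr 1
  simp only [map_zero, zero_mul, sub_zero, map_one, one_mul, zero_div, Matrix.range_cons,
    Matrix.range_empty, Set.union_empty]
  rw [mul_comm (X 1) (X 0 ^ 4)]
  rfl

lemma bas_0 : bas k 0 = 1 := rfl
lemma bas_1 : bas k 1 = X 0 := rfl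
lemma bas_2 : bas k 2 = X 0 ^ 2 := rfl
lemma bas_3 : bas k 3 = X 0 ^ 3 := rfl
lemma bas_4 : bas k 4 = X 0 ^ 4 := rfl
lemma bas_5 : bas k 5 = X 0 ^ 5 := rfl
lemma bas_6 : bas k 6 = X 1 := rfl
lemma bas_7 : bas k 7 = X 1 * X 0 := rfl
lemma bas_8 : bas k 8 = X 1 * X 0 ^ 2 := rfl
lemma bas_9 : bas k 9 = X 1 * X 0 ^ 3 := rfl

/-- the stratum condition -/
def Pst (I : Ideal (Pl k)) : Prop := IsComplete I ∧ Equisingular (baseIdeal k) I

lemma base_type : IsType (baseIdeal k) 0 0 [some 0, some 0, none, some 1, some 0] := by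
  rw [baseIdeal_eq]
  exact KK_type' 0 0 0 0 1 0 one_ne_zero

lemma Pst_KK (x₀ y₀ a₁ a₂ G b : k) (hG : G ≠ 0) : Pst (KK x₀ y₀ a₁ a₂ G b) :=
  ⟨KK_complete _ _ _ _ _ _, equisingular_of_type one_ne_zero hG base_type
    (KK_type' x₀ y₀ a₁ a₂ G b hG)⟩

/-- reduction modulo the kernel of a chart datum -/
lemma sub_mem_ker (c : Chart k (bas k) k) (f : Pl k) :
    f - ∑ i, C (c.q f i) * bas k i ∈ c.ker := by
  rw [Chart.mem_ker, map_sub, map_sum]
  have h1 : ∀ (r : k) (g : Pl k), c.q (C r * g) = r • c.q g := by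
    intro r g
    rw [← MvPolynomial.smul_eq_C_mul, map_smul]
  simp only [h1, c.q_b]
  rw [sub_eq_zero]
  ext j
  simp [Pi.single_apply]

lemma ker_eq_of_le {c : Chart k (bas k) k} {K : Ideal (Pl k)} (h : c.ker ≤ K)
    (hind : ∀ r : Fin 10 → k, ∑ i, C (r i) * bas k i ∈ K → r = 0) : c.ker = K := by
  refine le_antisymm h fun f hf => ?_
  have h1 := h (sub_mem_ker c f)
  have h2 : ∑ i, C (c.q f i) * bas k i ∈ K := by
    have := K.sub_mem hf h1
    simpa using this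
  rw [Chart.mem_ker]
  exact hind _ h2

/-- the members of the stratum in the chart -/
lemma exists_KK_of_Pst {c : Chart k (bas k) k} (h : Pst c.ker) :
    ∃ x₀ y₀ a₁ a₂ G b : k, G ≠ 0 ∧ c.ker = KK x₀ y₀ a₁ a₂ G b := by
  obtain ⟨x, y, w, hw, h1⟩ := type_of_equisingular one_ne_zero base_type h.2
  rcases h1 with h1 | ⟨a₁, a₂, G, b, hG, rfl⟩
  · exact (not_type_none (fun f => Chart.mem_ker c f) hw h1).elim
  · exact ⟨x, y, a₁, a₂, G, b, hG, ker_eq_of_le (le_KK_of_type hw) (KK_indep _ _ _ _ _ _ hG)⟩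

/-- reduction modulo the span of the basis -/
noncomputable def redc (c : Chart k (bas k) k) : Pl k →ₗ[k] Pl k :=
  LinearMap.id - (Fintype.linearCombination k (bas k)).comp c.q

lemma redc_apply (c : Chart k (bas k) k) (f : Pl k) :
    redc c f = f - ∑ i, C (c.q f i) * bas k i := by
  simp only [redc, LinearMap.sub_apply, LinearMap.id_apply, LinearMap.comp_apply,
    Fintype.linearCombination_apply, MvPolynomial.smul_eq_C_mul]

lemma redc_bas (c : Chart k (bas k) k) (i : Fin 10) : redc c (bas k i) = 0 := by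
  rw [redc_apply, c.q_b]
  simp [Pi.single_apply]

/-- the elements whose reduction is in `K` -/
noncomputable def NN (c : Chart k (bas k) k) (K : Ideal (Pl k)) : Submodule k (Pl k) :=
  (K.restrictScalars k).comap (redc c)

lemma mem_NN {c : Chart k (bas k) k} {K : Ideal (Pl k)} {f : Pl k} :
    f ∈ NN c K ↔ redc c f ∈ K := Iff.rfl

lemma bas_mem_NN (c : Chart k (bas k) k) (K : Ideal (Pl k)) (i : Fin 10) : bas k i ∈ NN c K := by
  rw [mem_NN, redc_bas]; exact K.zero_mem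

lemma mul_mem_NN {c : Chart k (bas k) k} {K : Ideal (Pl k)} {m : Pl k}
    (hm : ∀ i, m * bas k i ∈ NN c K) {f : Pl k} (hf : f ∈ NN c K) : m * f ∈ NN c K := by
  have h1 : m * redc c f ∈ K := K.mul_mem_left _ hf
  have h2 : ∑ i, c.q f i • (m * bas k i) ∈ NN c K :=
    Submodule.sum_mem _ fun i _ => Submodule.smul_mem _ _ (hm i)
  have h3 : c.q (∑ i, c.q f i • (m * bas k i)) = c.q (m * f) := by
    rw [map_sum, mul_comm m f, c.q_mul f m]
    apply Finset.sum_congr rfl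
    intro i _
    rw [map_smul, mul_comm m]
  have h4 : m * redc c f = m * f - ∑ i, c.q f i • (m * bas k i) := by
    rw [redc_apply, mul_sub, Finset.mul_sum]
    congr 1
    apply Finset.sum_congr rfl
    intro i _
    rw [MvPolynomial.smul_eq_C_mul]
    ring
  have h5 : redc c (∑ i, c.q f i • (m * bas k i)) =
      (∑ i, c.q f i • (m * bas k i)) - ∑ i, C (c.q (m * f) i) * bas k i := by
    rw [redc_apply, h3]
  rw [mem_NN] at h2 ⊢
  rw [h5] at h2
  rw [h4] at h1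
  rw [redc_apply]
  have := K.add_mem h1 h2
  rwa [sub_add_sub_cancel] at this

lemma bas_cases {P : Fin 10 → Prop} (h0 : P 0) (h1 : P 1) (h2 : P 2) (h3 : P 3) (h4 : P 4)
    (h5 : P 5) (h6 : P 6) (h7 : P 7) (h8 : P 8) (h9 : P 9) : ∀ i, P i := by
  intro i
  fin_cases i <;> assumption

lemma X0_mul_mem_NN {c : Chart k (bas k) k} {K : Ideal (Pl k)} (h6 : X 0 ^ 6 ∈ NN c K)
    (h14 : X 1 * X 0 ^ 4 ∈ NN c K) {f : Pl k} (hf : f ∈ NN c K) : X 0 * f ∈ NN c K := by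
  refine mul_mem_NN (bas_cases ?_ ?_ ?_ ?_ ?_ ?_ ?_ ?_ ?_ ?_) hf
  · rw [show X 0 * bas k 0 = bas k 1 by rw [bas_0, bas_1]; ring]; exact bas_mem_NN c K 1
  · rw [show X 0 * bas k 1 = bas k 2 by rw [bas_1, bas_2]; ring]; exact bas_mem_NN c K 2
  · rw [show X 0 * bas k 2 = bas k 3 by rw [bas_2, bas_3]; ring]; exact bas_mem_NN c K 3
  · rw [show X 0 * bas k 3 = bas k 4 by rw [bas_3, bas_4]; ring]; exact bas_mem_NN c K 4
  · rw [show X 0 * bas k 4 = bas k 5 by rw [bas_4, bas_5]; ring]; exact bas_mem_NN c K 5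
  · rw [show X 0 * bas k 5 = X 0 ^ 6 by rw [bas_5]; ring]; exact h6
  · rw [show X 0 * bas k 6 = bas k 7 by rw [bas_6, bas_7]; ring]; exact bas_mem_NN c K 7
  · rw [show X 0 * bas k 7 = bas k 8 by rw [bas_7, bas_8]; ring]; exact bas_mem_NN c K 8
  · rw [show X 0 * bas k 8 = bas k 9 by rw [bas_8, bas_9]; ring]; exact bas_mem_NN c K 9
  · rw [show X 0 * bas k 9 = X 1 * X 0 ^ 4 by rw [bas_9]; ring]; exact h14

lemma X1_mul_mem_NN {c : Chart k (bas k) k} {K : Ideal (Pl k)} (h6 : X 0 ^ 6 ∈ NN c K)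
    (h14 : X 1 * X 0 ^ 4 ∈ NN c K) (h02 : X 1 ^ 2 ∈ NN c K) {f : Pl k} (hf : f ∈ NN c K) :
    X 1 * f ∈ NN c K := by
  have a1 := X0_mul_mem_NN h6 h14 h02
  have a2 := X0_mul_mem_NN h6 h14 a1
  have a3 := X0_mul_mem_NN h6 h14 a2
  have a4 := X0_mul_mem_NN h6 h14 h14
  refine mul_mem_NN (bas_cases ?_ ?_ ?_ ?_ ?_ ?_ ?_ ?_ ?_ ?_) hf
  · rw [show X 1 * bas k 0 = bas k 6 by rw [bas_0, bas_6]; ring]; exact bas_mem_NN c K 6
  · rw [show X 1 * bas k 1 = bas k 7 by rw [bas_1, bas_7]]; exact bas_mem_NN c K 7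
  · rw [show X 1 * bas k 2 = bas k 8 by rw [bas_2, bas_8]]; exact bas_mem_NN c K 8
  · rw [show X 1 * bas k 3 = bas k 9 by rw [bas_3, bas_9]]; exact bas_mem_NN c K 9
  · rw [show X 1 * bas k 4 = X 1 * X 0 ^ 4 by rw [bas_4]]; exact h14
  · rw [show X 1 * bas k 5 = X 0 * (X 1 * X 0 ^ 4) by rw [bas_5]; ring]; exact a4
  · rw [show X 1 * bas k 6 = X 1 ^ 2 by rw [bas_6]; ring]; exact h02
  · rw [show X 1 * bas k 7 = X 0 * X 1 ^ 2 by rw [bas_7]; ring]; exact a1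
  · rw [show X 1 * bas k 8 = X 0 * (X 0 * X 1 ^ 2) by rw [bas_8]; ring]; exact a2
  · rw [show X 1 * bas k 9 = X 0 * (X 0 * (X 0 * X 1 ^ 2)) by rw [bas_9]; ring]; exact a3

/-- criterion for the kernel of a chart datum -/
lemma ker_eq_of_rel {c : Chart k (bas k) k} {K : Ideal (Pl k)}
    (hind : ∀ r : Fin 10 → k, ∑ i, C (r i) * bas k i ∈ K → r = 0)
    (h6 : X 0 ^ 6 - ∑ i, C (c.q (X 0 ^ 6) i) * bas k i ∈ K)
    (h14 : X 1 * X 0 ^ 4 - ∑ i, C (c.q (X 1 * X 0 ^ 4) i) * bas k i ∈ K)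
    (h02 : X 1 ^ 2 - ∑ i, C (c.q (X 1 ^ 2) i) * bas k i ∈ K) : c.ker = K := by
  rw [← redc_apply, ← mem_NN] at h6 h14 h02
  have hall : ∀ f : Pl k, f ∈ NN c K := by
    intro f
    induction f using MvPolynomial.induction_on with
    | C r =>
      have := (NN c K).smul_mem r (bas_mem_NN c K 0)
      rwa [bas_0, MvPolynomial.smul_eq_C_mul, mul_one] at this
    | add p q hp hq => exact (NN c K).add_mem hp hq
    | mul_X p i hp =>
      rw [mul_comm]
      fin_cases i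
      · exact X0_mul_mem_NN h6 h14 hp
      · exact X1_mul_mem_NN h6 h14 h02 hp
  apply ker_eq_of_le _ hind
  intro f hf
  have h1 := hall f
  rw [mem_NN, redc_apply] at h1
  rw [Chart.mem_ker] at hf
  rw [hf] at h1
  simpa using h1

end Pool.Agent.Helper198.Eqs
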