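import Mathlib
import Pool.Agent.Helper198.Eqs.Defs2

set_option autoImplicit false

open MvPolynomial
open Pool.Agent.Helper226

universe u

namespace Pool.Agent.Helper198.Eqs

variable {k : Type u} [Field k]

section aux9460

variable {A : Type u} [CommRing A]

theorem h235_vec10 {α : Type*} (a0 a1 a2 a3 a4 a5 a6 a7 a8 a9 b0 b1 b2 b3 b4 b5 b6 b7 b8 b9 : α)
    (h0 : a0 = b0) (h1 : a1 = b1) (h2 : a2 = b2) (h3 : a3 = b3) (h4 : a4 = b4) (h5 : a5 = b5)
    (h6 : a6 = b6) (h7 : a7 = b7) (h8 : a8 = b8) (h9 : a9 = b9) :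
    ![a0, a1, a2, a3, a4, a5, a6, a7, a8, a9] = ![b0, b1, b2, b3, b4, b5, b6, b7, b8, b9] := by
  rw [h0, h1, h2, h3, h4, h5, h6, h7, h8, h9]

theorem h235_add10 (a0 a1 a2 a3 a4 a5 a6 a7 a8 a9 b0 b1 b2 b3 b4 b5 b6 b7 b8 b9 : A) :
    ![a0, a1, a2, a3, a4, a5, a6, a7, a8, a9] + ![b0, b1, b2, b3, b4, b5, b6, b7, b8, b9]
    = ![a0 + b0, a1 + b1, a2 + b2, a3 + b3, a4 + b4, a5 + b5, a6 + b6, a7 + b7, a8 + b8,
      a9 + b9] := by
  simp only [Matrix.cons_add_cons, Matrix.empty_add_empty]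

theorem h235_smul10 (c a0 a1 a2 a3 a4 a5 a6 a7 a8 a9 : A) :
    c • ![a0, a1, a2, a3, a4, a5, a6, a7, a8, a9]
    = ![c * a0, c * a1, c * a2, c * a3, c * a4, c * a5, c * a6, c * a7, c * a8, c * a9] := by
  simp only [Matrix.smul_cons, Matrix.smul_empty, smul_eq_mul]

/-- multiplication by `x` -/
noncomputable def h235MX (u : A) : Module.End A (Fin 10 → A) where
  toFun t := ![u ^ 3 * t 5, t 0, t 1 + u ^ 2 * t 5, t 2, t 3 + u * t 5, t 4, u ^ 2 * t 9, t 6,
    t 7, t 8]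
  map_add' s t := by
    rw [h235_add10]
    simp only [Pi.add_apply]
    apply h235_vec10 <;> ring
  map_smul' c t := by
    rw [h235_smul10]
    simp only [Pi.smul_apply, smul_eq_mul, RingHom.id_apply]
    apply h235_vec10 <;> ring

/-- multiplication by `y` -/
noncomputable def h235MY (u v w : A) : Module.End A (Fin 10 → A) where
  toFun t := ![u ^ 3 * t 7 + u ^ 4 * t 9, u ^ 2 * t 6 + u ^ 3 * t 8, 0, 0,
    u * t 7 + u ^ 2 * t 9, t 6 + u * t 8,
    t 0 + u ^ 2 * t 4 + u * w * t 6 + u ^ 2 * v * t 7 + u ^ 2 * w * t 8 + u ^ 3 * v * t 9,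
    t 1 + u ^ 2 * t 5 + u * v * t 6 + u * w * t 7 + u ^ 2 * v * t 8 + u ^ 2 * w * t 9,
    t 2 + w * t 6 + u * v * t 7 + u * w * t 8 + u ^ 2 * v * t 9,
    t 3 + v * t 6 + w * t 7 + u * v * t 8 + u * w * t 9]
  map_add' s t := by
    rw [h235_add10]
    simp only [Pi.add_apply]
    apply h235_vec10 <;> ring
  map_smul' c t := by
    rw [h235_smul10]
    simp only [Pi.smul_apply, smul_eq_mul, RingHom.id_apply]
    apply h235_vec10 <;> ring

theorem h235MX_apply (u a0 a1 a2 a3 a4 a5 a6 a7 a8 a9 : A) :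
    h235MX u ![a0, a1, a2, a3, a4, a5, a6, a7, a8, a9] =
    ![u ^ 3 * a5, a0, a1 + u ^ 2 * a5, a2, a3 + u * a5, a4, u ^ 2 * a9, a6, a7, a8] := rfl

theorem h235MY_apply (u v w a0 a1 a2 a3 a4 a5 a6 a7 a8 a9 : A) :
    h235MY u v w ![a0, a1, a2, a3, a4, a5, a6, a7, a8, a9] =
    ![u ^ 3 * a7 + u ^ 4 * a9, u ^ 2 * a6 + u ^ 3 * a8, 0, 0,
    u * a7 + u ^ 2 * a9, a6 + u * a8,
    a0 + u ^ 2 * a4 + u * w * a6 + u ^ 2 * v * a7 + u ^ 2 * w * a8 + u ^ 3 * v * a9,
    a1 + u ^ 2 * a5 + u * v * a6 + u * w * a7 + u ^ 2 * v * a8 + u ^ 2 * w * a9,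
    a2 + w * a6 + u * v * a7 + u * w * a8 + u ^ 2 * v * a9,
    a3 + v * a6 + w * a7 + u * v * a8 + u * w * a9] := rfl

omit [CommRing A] in
theorem h235_vec (f : Fin 10 → A) :
    f = ![f 0, f 1, f 2, f 3, f 4, f 5, f 6, f 7, f 8, f 9] := by
  funext i
  fin_cases i <;> rfl

theorem h235_comm (h2 : (2 : A) = 0) (u v w : A) : Commute (h235MX u) (h235MY u v w) := by
  apply LinearMap.ext
  intro t
  rw [Module.End.mul_apply, Module.End.mul_apply, h235_vec t]
  generalize t 0 = t0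
  generalize t 1 = t1
  generalize t 2 = t2
  generalize t 3 = t3
  generalize t 4 = t4
  generalize t 5 = t5
  generalize t 6 = t6
  generalize t 7 = t7
  generalize t 8 = t8
  generalize t 9 = t9
  rw [h235MX_apply, h235MY_apply, h235MX_apply, h235MY_apply]
  apply h235_vec10
  · ring
  · ring
  · linear_combination (u ^ 2 * t6 + u ^ 3 * t8) * h2
  · ring
  · ring
  · ring
  · linear_combination (-(u ^ 3 * t5)) * h2
  · ring
  · ring
  · ring

end aux9460

/-- evaluation of a polynomial in two variables at commuting elements -/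
theorem h235_eval {B : Type u} [Ring B] [Algebra k B] (a b : B) (hab : Commute a b) :
    ∃ P : MvPolynomial (Fin 2) k →ₐ[k] B, P (X 0) = a ∧ P (X 1) = b := by
  obtain ⟨φ, hφ⟩ : ∃ φ : Multiplicative (Fin 2 →₀ ℕ) →* B,
      ∀ s, φ s = a ^ (Multiplicative.toAdd s 0) * b ^ (Multiplicative.toAdd s 1) := by
    refine ⟨{ toFun := fun s => a ^ (Multiplicative.toAdd s 0) * b ^ (Multiplicative.toAdd s 1)
              map_one' := by simp
              map_mul' := ?_ }, fun s => rfl⟩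
    intro s t
    simp only [toAdd_mul, Finsupp.add_apply, pow_add]
    have h := (hab.symm.pow_pow (Multiplicative.toAdd s 1) (Multiplicative.toAdd t 0)).eq
    rw [mul_assoc, mul_assoc]
    congr 1
    rw [← mul_assoc, ← h, mul_assoc]
  refine ⟨AddMonoidAlgebra.lift k B (Fin 2 →₀ ℕ) φ, ?_, ?_⟩
  · have h1 : (X 0 : MvPolynomial (Fin 2) k) = AddMonoidAlgebra.single (Finsupp.single 0 1) 1 := rfl
    rw [h1, AddMonoidAlgebra.lift_single, hφ]
    simp
  · have h1 : (X 1 : MvPolynomial (Fin 2) k) = AddMonoidAlgebra.single (Finsupp.single 1 1) 1 := rfl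
    rw [h1, AddMonoidAlgebra.lift_single, hφ]
    simp

section aux9460b

variable {A : Type u} [CommRing A]

theorem h235_e0 : (Pi.single 0 1 : Fin 10 → A) = ![1, 0, 0, 0, 0, 0, 0, 0, 0, 0] := by
  rw [h235_vec (Pi.single 0 1 : Fin 10 → A)]
  apply h235_vec10 <;> simp

theorem h235_e1 : (Pi.single 1 1 : Fin 10 → A) = ![0, 1, 0, 0, 0, 0, 0, 0, 0, 0] := by
  rw [h235_vec (Pi.single 1 1 : Fin 10 → A)]
  apply h235_vec10 <;> simp

theorem h235_e2 : (Pi.single 2 1 : Fin 10 → A) = ![0, 0, 1, 0, 0, 0, 0, 0, 0, 0] := by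
  rw [h235_vec (Pi.single 2 1 : Fin 10 → A)]
  apply h235_vec10 <;> simp

theorem h235_e3 : (Pi.single 3 1 : Fin 10 → A) = ![0, 0, 0, 1, 0, 0, 0, 0, 0, 0] := by
  rw [h235_vec (Pi.single 3 1 : Fin 10 → A)]
  apply h235_vec10 <;> simp

theorem h235_e4 : (Pi.single 4 1 : Fin 10 → A) = ![0, 0, 0, 0, 1, 0, 0, 0, 0, 0] := by
  rw [h235_vec (Pi.single 4 1 : Fin 10 → A)]
  apply h235_vec10 <;> simp

theorem h235_e5 : (Pi.single 5 1 : Fin 10 → A) = ![0, 0, 0, 0, 0, 1, 0, 0, 0, 0] := by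
  rw [h235_vec (Pi.single 5 1 : Fin 10 → A)]
  apply h235_vec10 <;> simp

theorem h235_e6 : (Pi.single 6 1 : Fin 10 → A) = ![0, 0, 0, 0, 0, 0, 1, 0, 0, 0] := by
  rw [h235_vec (Pi.single 6 1 : Fin 10 → A)]
  apply h235_vec10 <;> simp

theorem h235_e7 : (Pi.single 7 1 : Fin 10 → A) = ![0, 0, 0, 0, 0, 0, 0, 1, 0, 0] := by
  rw [h235_vec (Pi.single 7 1 : Fin 10 → A)]
  apply h235_vec10 <;> simp

theorem h235_e8 : (Pi.single 8 1 : Fin 10 → A) = ![0, 0, 0, 0, 0, 0, 0, 0, 1, 0] := by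
  rw [h235_vec (Pi.single 8 1 : Fin 10 → A)]
  apply h235_vec10 <;> simp

theorem h235_e9 : (Pi.single 9 1 : Fin 10 → A) = ![0, 0, 0, 0, 0, 0, 0, 0, 0, 1] := by
  rw [h235_vec (Pi.single 9 1 : Fin 10 → A)]
  apply h235_vec10 <;> simp

end aux9460b

theorem exists_family (A : Type u) [CommRing A] [Algebra k A] (h2 : (2 : A) = 0) (u v w : A) :
    ∃ c : Chart k (bas k) A,
      c.q (X 0 ^ 6) = ![u ^ 3, 0, u ^ 2, 0, u, 0, 0, 0, 0, 0] ∧
      c.q (X 1 * X 0 ^ 4) = ![0, 0, 0, 0, 0, 0, u ^ 2, 0, 0, 0] ∧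
      c.q (X 1 ^ 2) = ![0, u ^ 2, 0, 0, 0, 1, u * w, u * v, w, v] := by
  obtain ⟨P, hP0, hP1⟩ := h235_eval (k := k) (h235MX u) (h235MY u v w) (h235_comm h2 u v w)
  have hx : ∀ (n : ℕ) (t : Fin 10 → A), P (X 0 ^ (n + 1)) t = h235MX u (P (X 0 ^ n) t) := by
    intro n t
    rw [pow_succ', map_mul, hP0, Module.End.mul_apply]
  have hy : ∀ (f : MvPolynomial (Fin 2) k) (t : Fin 10 → A),
      P (X 1 * f) t = h235MY u v w (P f t) := by
    intro f t
    rw [map_mul, hP1, Module.End.mul_apply]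
  have x0 : P 1 (Pi.single 0 1) = Pi.single 0 1 := by rw [map_one]; rfl
  have x1 : P (X 0) (Pi.single 0 1) = Pi.single 1 1 := by
    rw [hP0, h235_e0, h235MX_apply, h235_e1]
    apply h235_vec10 <;> ring
  have x2 : P (X 0 ^ 2) (Pi.single 0 1) = Pi.single 2 1 := by
    rw [hx, pow_one, x1, h235_e1, h235MX_apply, h235_e2]
    apply h235_vec10 <;> ring
  have x3 : P (X 0 ^ 3) (Pi.single 0 1) = Pi.single 3 1 := by
    rw [hx, x2, h235_e2, h235MX_apply, h235_e3]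
    apply h235_vec10 <;> ring
  have x4 : P (X 0 ^ 4) (Pi.single 0 1) = Pi.single 4 1 := by
    rw [hx, x3, h235_e3, h235MX_apply, h235_e4]
    apply h235_vec10 <;> ring
  have x5 : P (X 0 ^ 5) (Pi.single 0 1) = Pi.single 5 1 := by
    rw [hx, x4, h235_e4, h235MX_apply, h235_e5]
    apply h235_vec10 <;> ring
  have x6 : P (X 0 ^ 6) (Pi.single 0 1) = ![u ^ 3, 0, u ^ 2, 0, u, 0, 0, 0, 0, 0] := by
    rw [hx, x5, h235_e5, h235MX_apply]
    apply h235_vec10 <;> ring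
  have y0 : P (X 1) (Pi.single 0 1) = Pi.single 6 1 := by
    rw [hP1, h235_e0, h235MY_apply, h235_e6]
    apply h235_vec10 <;> ring
  have y1 : P (X 1 * X 0) (Pi.single 0 1) = Pi.single 7 1 := by
    rw [hy, x1, h235_e1, h235MY_apply, h235_e7]
    apply h235_vec10 <;> ring
  have y2 : P (X 1 * X 0 ^ 2) (Pi.single 0 1) = Pi.single 8 1 := by
    rw [hy, x2, h235_e2, h235MY_apply, h235_e8]
    apply h235_vec10 <;> ring
  have y3 : P (X 1 * X 0 ^ 3) (Pi.single 0 1) = Pi.single 9 1 := by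
    rw [hy, x3, h235_e3, h235MY_apply, h235_e9]
    apply h235_vec10 <;> ring
  have y4 : P (X 1 * X 0 ^ 4) (Pi.single 0 1) = ![0, 0, 0, 0, 0, 0, u ^ 2, 0, 0, 0] := by
    rw [hy, x4, h235_e4, h235MY_apply]
    apply h235_vec10 <;> ring
  have yy : P (X 1 ^ 2) (Pi.single 0 1) = ![0, u ^ 2, 0, 0, 0, 1, u * w, u * v, w, v] := by
    rw [sq, hy, y0, h235_e6, h235MY_apply]
    apply h235_vec10 <;> ring
  have hb : ∀ i : Fin 10, P (bas k i) (Pi.single 0 1) = Pi.single i 1 := by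
    intro i
    fin_cases i
    · exact x0
    · exact x1
    · exact x2
    · exact x3
    · exact x4
    · exact x5
    · exact y0
    · exact y1
    · exact y2
    · exact y3
  refine ⟨{ q := { toFun := fun f => P f (Pi.single 0 1)
                   map_add' := ?_
                   map_smul' := ?_ }
            q_b := ?_
            q_mul := ?_ }, x6, y4, yy⟩
  · intro f g
    rw [map_add]
    rfl
  · intro c f
    rw [map_smul]
    rfl
  · exact hb
  · intro f g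
    show P (f * g) (Pi.single 0 1)
      = ∑ j, P f (Pi.single 0 1) j • P (bas k j * g) (Pi.single 0 1)
    have e1 : ∀ j, P (bas k j * g) (Pi.single 0 1) = P g (Pi.single j 1) := by
      intro j
      rw [mul_comm, map_mul, Module.End.mul_apply, hb]
    rw [mul_comm, map_mul, Module.End.mul_apply]
    simp only [e1]
    conv_lhs => rw [LinearMap.pi_apply_eq_sum_univ (P g) (P f (Pi.single 0 1))]
    refine Finset.sum_congr rfl fun j _ => ?_
    congr 2
    funext i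
    rw [Pi.single_apply]
    by_cases h : j = i
    · rw [if_pos h, if_pos h.symm]
    · rw [if_neg h, if_neg (Ne.symm h)]

end Pool.Agent.Helper198.Eqs
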