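import Mathlib
import Pool.Agent.Helper198.Eqs.Loc

set_option autoImplicit false

open MvPolynomial
open Pool.Agent.Helper226

universe u

namespace Pool.Agent.Helper198.Eqs

section ring
variable {R : Type u} [CommRing R] (h2 : (2 : R) = 0)
include h2

lemma rel6 (x x0 : R) :
    x ^ 6 - (x0 ^ 6 + x0 ^ 4 * x ^ 2 + x0 ^ 2 * x ^ 4) = (x - x0) ^ 6 := by
  linear_combination (-1*x0^6 + 3*x*x0^5 - 8*x^2*x0^4 + 10*x^3*x0^3 - 8*x^4*x0^2 + 3*x^5*x0) * h2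

lemma rel14 (x y x0 y0 a1 a2 : R) :
    y * x ^ 4 - ((x0 * a1 + y0) * x0 ^ 4 + a1 * x0 ^ 4 * x + (x0 * a1 + y0) * x ^ 4 + a1 * x ^ 5
      + x0 ^ 4 * y) =
    (y - y0 - a1 * (x - x0) - a2 * (x - x0) ^ 2) * (x - x0) ^ 4 + a2 * (x - x0) ^ 6 := by
  linear_combination (-1*x0^5*a1 - 1*y*x0^4 - 2*x*x0^3*y0 + 2*x*x0^4*a1 + 2*x*y*x0^3 + 3*x^2*x0^2*y0 - 5*x^2*x0^3*a1 - 3*x^2*y*x0^2 - 2*x^3*x0*y0 + 5*x^3*x0^2*a1 + 2*x^3*y*x0 - 3*x^4*x0*a1) * h2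

lemma rel02 (x y x0 y0 a1 a2 G B c u v w G' T : R) (hc : c = x0 * a1 + y0) (hu : u = x0 ^ 2)
    (hv : v = B) (hw : w = x0 * B) (hG' : G' = G + a2 * B) (hT : T = a2 ^ 2 + x0 * G') :
    y ^ 2 - ((c ^ 2 + T * u ^ 2 + c * u * w) + (G' * u ^ 2 + c * u * v + a1 * u * w) * x
      + (a1 ^ 2 + c * w + a1 * u * v) * x ^ 2 + (c * v + a1 * w) * x ^ 3 + (T + a1 * v) * x ^ 4
      + G' * x ^ 5 + u * w * y + u * v * (y * x) + w * (y * x ^ 2) + v * (y * x ^ 3)) =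
    (y - y0 - a1 * (x - x0) - a2 * (x - x0) ^ 2) ^ 2 - G * (x - x0) ^ 5
      - B * (y - y0 - a1 * (x - x0) - a2 * (x - x0) ^ 2) * (x - x0) ^ 3 := by
  rw [hT, hG', hw, hv, hu, hc]
  linear_combination (-1*y0^2 - 1*x0^2*a1^2 - 1*x0^2*y0*a2 + 1*x0^3*a1*a2 - 1*x0^4*a2^2 - 1*x0^4*a1*B - 1*x0^5*G + 1*y*y0 - 1*y*x0*a1 + 1*y*x0^2*a2 - 1*y*x0^3*B - 1*x*y0*a1 + 1*x*x0*a1^2 + 2*x*x0*y0*a2 - 3*x*x0^2*a1*a2 - 2*x*x0^2*y0*B + 2*x*x0^3*a2^2 + 1*x*x0^3*a1*B + 2*x*x0^4*G - 3*x*x0^4*a2*B + 1*x*y*a1 - 2*x*y*x0*a2 + 1*x*y*x0^2*B - 1*x^2*a1^2 - 1*x^2*y0*a2 + 3*x^2*x0*a1*a2 + 1*x^2*x0*y0*B - 3*x^2*x0^2*a2^2 - 4*x^2*x0^2*a1*B - 5*x^2*x0^3*G + 5*x^2*x0^3*a2*B + 1*x^2*y*a2 - 2*x^2*y*x0*B - 1*x^3*a1*a2 - 1*x^3*y0*B + 2*x^3*x0*a2^2 + 1*x^3*x0*a1*B + 5*x^3*x0^2*G - 5*x^3*x0^2*a2*B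 - 1*x^4*a2^2 - 1*x^4*a1*B - 3*x^4*x0*G + 2*x^4*x0*a2*B - 1*x^5*a2*B) * h2

end ring

end Pool.Agent.Helper198.Eqs
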