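import Mathlib
import Pool.Agent.Helper198.Eqs.Rel
import Pool.Agent.Helper198.Eqs.M

set_option autoImplicit false

open MvPolynomial
open Pool.Agent.Helper226

universe u

namespace Pool.Agent.Helper198.Eqs

variable {k : Type u} [Field k]

lemma sum_bas (r : Fin 10 → k) : ∑ i, C (r i) * bas k i =
    C (r 0) + C (r 1) * X 0 + C (r 2) * X 0 ^ 2 + C (r 3) * X 0 ^ 3 + C (r 4) * X 0 ^ 4
      + C (r 5) * X 0 ^ 5 + C (r 6) * X 1 + C (r 7) * (X 1 * X 0) + C (r 8) * (X 1 * X 0 ^ 2)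
      + C (r 9) * (X 1 * X 0 ^ 3) := by
  have h : ∀ f : Fin 10 → Pl k, ∑ i, f i =
      f 0 + f 1 + f 2 + f 3 + f 4 + f 5 + f 6 + f 7 + f 8 + f 9 := by
    intro f
    simp only [Fin.sum_univ_succ, Fin.sum_univ_zero]
    ring_nf
    rfl
  rw [h, bas_0, bas_1, bas_2, bas_3, bas_4, bas_5, bas_6, bas_7, bas_8, bas_9, mul_one]

/-- coordinates of `x ^ 6` -/
def vec6 {R : Type u} [CommRing R] (u : R) : Fin 10 → R := ![u ^ 3, 0, u ^ 2, 0, u, 0, 0, 0, 0, 0]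
/-- coordinates of `y x ^ 4` -/
def vec14 {R : Type u} [CommRing R] (u a c : R) : Fin 10 → R := ![c * u ^ 2, a * u ^ 2, 0, 0, c, a, u ^ 2, 0, 0, 0]
/-- coordinates of `y ^ 2` -/
def vec02 {R : Type u} [CommRing R] (u v w a c G T : R) : Fin 10 → R :=
  ![c ^ 2 + T * u ^ 2 + c * u * w, G * u ^ 2 + c * u * v + a * u * w, a ^ 2 + c * w + a * u * v,
    c * v + a * w, T + a * v, G, u * w, u * v, w, v]

lemma mem_KK_iff {x₀ y₀ a₁ a₂ G b : k} (hG : G ≠ 0) (f : Pl k) :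
    f ∈ KK x₀ y₀ a₁ a₂ G b ↔ shift x₀ y₀ f ∈ JJ a₁ a₂ G (b / G) := by
  rw [JJ_eq' a₁ a₂ G b hG]
  rfl

lemma U6_mem {x₀ y₀ a₁ a₂ G b : k} (hG : G ≠ 0) :
    ((X 0 - C x₀) ^ 6 : Pl k) ∈ KK x₀ y₀ a₁ a₂ G b := by
  rw [mem_KK_iff hG]
  simp only [map_pow, map_sub, shift_zero', shift_C, add_sub_cancel_right]
  exact Ideal.subset_span ⟨2, rfl⟩

lemma ZU4_mem {x₀ y₀ a₁ a₂ G b : k} (hG : G ≠ 0) :
    ((X 1 - C y₀ - C a₁ * (X 0 - C x₀) - C a₂ * (X 0 - C x₀) ^ 2) * (X 0 - C x₀) ^ 4 : Pl k) ∈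
      KK x₀ y₀ a₁ a₂ G b := by
  rw [mem_KK_iff hG]
  simp only [map_pow, map_sub, map_mul, shift_zero', shift_one', shift_C, add_sub_cancel_right]
  exact Ideal.subset_span ⟨1, rfl⟩

lemma ZZ_mem {x₀ y₀ a₁ a₂ G b : k} (hG : G ≠ 0) :
    ((X 1 - C y₀ - C a₁ * (X 0 - C x₀) - C a₂ * (X 0 - C x₀) ^ 2) ^ 2 - C G * (X 0 - C x₀) ^ 5
      - C (b / G) * (X 1 - C y₀ - C a₁ * (X 0 - C x₀) - C a₂ * (X 0 - C x₀) ^ 2) *
        (X 0 - C x₀) ^ 3 : Pl k) ∈ KK x₀ y₀ a₁ a₂ G b := by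
  rw [mem_KK_iff hG]
  simp only [map_pow, map_sub, map_mul, shift_zero', shift_one', shift_C, add_sub_cancel_right]
  exact Ideal.subset_span ⟨0, rfl⟩

section char2
variable (h2 : (2 : k) = 0)
include h2

lemma h2C : (2 : Pl k) = 0 := by
  have : (2 : Pl k) = C 2 := (map_ofNat C 2).symm
  rw [this, h2, map_zero]

lemma red6_mem {x₀ y₀ a₁ a₂ G b : k} (hG : G ≠ 0) :
    X 0 ^ 6 - ∑ i, C (vec6 (x₀ ^ 2) i) * bas k i ∈ KK x₀ y₀ a₁ a₂ G b := by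
  have h1 := rel6 (h2C h2) (X 0 : Pl k) (C x₀)
  have h3 := U6_mem (y₀ := y₀) (a₁ := a₁) (a₂ := a₂) (b := b) (x₀ := x₀) hG
  rw [← h1] at h3
  convert h3 using 1
  rw [sum_bas]
  simp [vec6]
  ring

lemma red14_mem {x₀ y₀ a₁ a₂ G b : k} (hG : G ≠ 0) :
    X 1 * X 0 ^ 4 - ∑ i, C (vec14 (x₀ ^ 2) a₁ (x₀ * a₁ + y₀) i) * bas k i ∈
      KK x₀ y₀ a₁ a₂ G b := by
  have h1 := rel14 (h2C h2) (X 0 : Pl k) (X 1) (C x₀) (C y₀) (C a₁) (C a₂)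
  have h3 := (KK x₀ y₀ a₁ a₂ G b).add_mem (ZU4_mem (y₀ := y₀) (a₁ := a₁) (a₂ := a₂) (b := b)
    (x₀ := x₀) hG) ((KK x₀ y₀ a₁ a₂ G b).mul_mem_left (C a₂) (U6_mem (y₀ := y₀) (a₁ := a₁)
    (a₂ := a₂) (b := b) (x₀ := x₀) hG))
  rw [← h1] at h3
  convert h3 using 1
  rw [sum_bas]
  simp [vec14]
  ring

lemma red02_mem {x₀ y₀ a₁ a₂ G b u v w a c G' T : k} (hG : G ≠ 0) (hu : u = x₀ ^ 2)
    (hv : v = b / G) (hw : w = x₀ * v) (ha : a = a₁) (hc : c = x₀ * a₁ + y₀)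
    (hG' : G' = G + a₂ * v) (hT : T = a₂ ^ 2 + x₀ * G') :
    X 1 ^ 2 - ∑ i, C (vec02 u v w a c G' T i) * bas k i ∈ KK x₀ y₀ a₁ a₂ G b := by
  have h1 := rel02 (h2C h2) (X 0 : Pl k) (X 1) (C x₀) (C y₀) (C a₁) (C a₂) (C G) (C v)
    (C c) (C u) (C v) (C w) (C G') (C T) (by rw [hc]; simp) (by rw [hu]; simp) rfl
    (by rw [hw]; simp) (by rw [hG']; simp) (by rw [hT]; simp)
  have h3 := ZZ_mem (y₀ := y₀) (a₁ := a₁) (a₂ := a₂) (b := b) (x₀ := x₀) hG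
  rw [← hv, ← h1] at h3
  convert h3 using 1
  rw [sum_bas]
  simp [vec02, ha]

/-- The chart data of the stratum. -/
theorem ker_eq_KK_iff {x₀ y₀ a₁ a₂ G b u v w a c G' T : k} (hG : G ≠ 0) (hu : u = x₀ ^ 2)
    (hv : v = b / G) (hw : w = x₀ * v) (ha : a = a₁) (hc : c = x₀ * a₁ + y₀)
    (hG' : G' = G + a₂ * v) (hT : T = a₂ ^ 2 + x₀ * G') (ch : Chart k (bas k) k) :
    ch.ker = KK x₀ y₀ a₁ a₂ G b ↔
      ch.q (X 0 ^ 6) = vec6 u ∧ ch.q (X 1 * X 0 ^ 4) = vec14 u a c ∧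
        ch.q (X 1 ^ 2) = vec02 u v w a c G' T := by
  have key : ∀ (f : Pl k) (r : Fin 10 → k), f - ∑ i, C (r i) * bas k i ∈ ch.ker → ch.q f = r := by
    intro f r h
    have h1 := sub_mem_ker ch f
    have h3 := ch.ker.sub_mem h h1
    rw [Chart.mem_ker] at h3
    have h4 : ∀ (r : Fin 10 → k), ch.q (∑ i, C (r i) * bas k i) = r := by
      intro r
      simp only [map_sum, ← MvPolynomial.smul_eq_C_mul, map_smul, ch.q_b]
      ext j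
      simp [Pi.single_apply]
    rw [map_sub, map_sub, map_sub, h4, h4, sub_sub_sub_cancel_left, sub_eq_zero] at h3
    exact h3
  constructor
  · intro h
    refine ⟨key _ _ ?_, key _ _ ?_, key _ _ ?_⟩
    · rw [h, hu]; exact red6_mem h2 hG
    · rw [h, hu, ha, hc]; exact red14_mem h2 hG
    · rw [h]; exact red02_mem h2 hG hu hv hw ha hc hG' hT
  · rintro ⟨h6, h14, h02⟩
    apply ker_eq_of_rel (KK_indep _ _ _ _ _ _ hG)
    · rw [h6, hu]; exact red6_mem h2 hG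
    · rw [h14, hu, ha, hc]; exact red14_mem h2 hG
    · rw [h02]; exact red02_mem h2 hG hu hv hw ha hc hG' hT

end char2

lemma map_vec6 {R S : Type u} [CommRing R] [CommRing S] (f : R →+* S) (u : R) (i : Fin 10) :
    f (vec6 u i) = vec6 (f u) i := by
  fin_cases i <;> simp [vec6]

lemma map_vec14 {R S : Type u} [CommRing R] [CommRing S] (f : R →+* S) (u a c : R) (i : Fin 10) :
    f (vec14 u a c i) = vec14 (f u) (f a) (f c) i := by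
  fin_cases i <;> simp [vec14]

lemma map_vec02 {R S : Type u} [CommRing R] [CommRing S] (f : R →+* S) (u v w a c G T : R)
    (i : Fin 10) :
    f (vec02 u v w a c G T i) = vec02 (f u) (f v) (f w) (f a) (f c) (f G) (f T) i := by
  fin_cases i <;> simp [vec02]

end Pool.Agent.Helper198.Eqs
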