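import Mathlib
import Pool.Agent.Helper198.Eqs.Vec
import Pool.Agent.Helper198.Eqs.NS

set_option autoImplicit false

open Pool.Agent.Helper226

universe u

namespace Pool.Agent.Helper198.Eqs

variable {k : Type u} [Field k]

open Polynomial

/-- `k[v][x]` -/
abbrev SS (k : Type u) [Field k] : Type u := Polynomial (Polynomial k)

/-- the polynomials in `x, v` without the monomial `x` -/
noncomputable def S1 (k : Type u) [Field k] : Subalgebra k (SS k) where
  carrier := {f | (f.coeff 1).coeff 0 = 0}
  mul_mem' := by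
    intro f g hf hg
    simp only [Set.mem_ofPred_eq] at *
    rw [Polynomial.mul_coeff_one, Polynomial.coeff_add, Polynomial.mul_coeff_zero,
      Polynomial.mul_coeff_zero, hf, hg]
    ring
  add_mem' := by
    intro f g hf hg
    simp only [Set.mem_ofPred_eq] at *
    rw [Polynomial.coeff_add, Polynomial.coeff_add, hf, hg, add_zero]
  algebraMap_mem' := by
    intro r
    simp only [Set.mem_ofPred_eq]
    rw [IsScalarTower.algebraMap_apply k (Polynomial k) (SS k)]
    simp [Polynomial.algebraMap_eq, Polynomial.coeff_C]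

lemma mem_S1 {f : SS k} : f ∈ S1 k ↔ (f.coeff 1).coeff 0 = 0 := Iff.rfl

/-- the tangent vector -/
noncomputable def tau1 (k : Type u) [Field k] : S1 k →ₐ[k] Tr k 2 where
  toFun f := Ideal.Quotient.mk _ (C ((f.1.coeff 0).coeff 0) + C ((f.1.coeff 1).coeff 1) * X)
  map_one' := by
    simp [Polynomial.coeff_one]
  map_mul' := by
    rintro ⟨f, hf⟩ ⟨g, hg⟩
    rw [mem_S1] at hf hg
    rw [← map_mul, ← sub_eq_zero, ← map_sub]
    refine (mk_eq_zero_iff 2 _).2 ?_
    have e0 : ((f * g).coeff 0).coeff 0 = (f.coeff 0).coeff 0 * (g.coeff 0).coeff 0 := by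
      rw [Polynomial.mul_coeff_zero, Polynomial.mul_coeff_zero]
    have e1 : ((f * g).coeff 1).coeff 1 = (f.coeff 0).coeff 0 * (g.coeff 1).coeff 1 +
        (f.coeff 1).coeff 1 * (g.coeff 0).coeff 0 := by
      rw [Polynomial.mul_coeff_one, Polynomial.coeff_add, Polynomial.mul_coeff_one,
        Polynomial.mul_coeff_one, hf, hg]
      ring
    show X ^ 2 ∣ (C (((f * g).coeff 0).coeff 0) + C (((f * g).coeff 1).coeff 1) * X) - _
    rw [e0, e1]
    refine ⟨-(C ((f.coeff 1).coeff 1) * C ((g.coeff 1).coeff 1)), ?_⟩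
    simp only [map_mul, map_add]
    ring
  map_zero' := by simp
  map_add' := by
    rintro ⟨f, hf⟩ ⟨g, hg⟩
    rw [← map_add]
    congr 1
    simp only [MulMemClass.mk_mul_mk, AddMemClass.mk_add_mk, Polynomial.coeff_add, map_add]
    ring
  commutes' := by
    intro r
    have : algebraMap k (SS k) r = C (C r) := by
      rw [IsScalarTower.algebraMap_apply k (Polynomial k) (SS k)]
      simp [Polynomial.algebraMap_eq]
    show Ideal.Quotient.mk _ (C (((algebraMap k (SS k) r).coeff 0).coeff 0) +
      C (((algebraMap k (SS k) r).coeff 1).coeff 1) * X) = Ideal.Quotient.mk _ (algebraMap k _ r)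
    rw [this]
    simp [Polynomial.coeff_C, Polynomial.algebraMap_eq]

lemma tau1_apply (f : S1 k) : tau1 k f =
    Ideal.Quotient.mk _ (C ((f.1.coeff 0).coeff 0) + C ((f.1.coeff 1).coeff 1) * X) := rfl

/-- evaluation at the origin -/
noncomputable def ev2 (k : Type u) [Field k] : Tr k 2 →ₐ[k] k :=
  Ideal.Quotient.liftₐ _ (Polynomial.aeval (0 : k)) (by
    intro a ha
    rw [Ideal.mem_span_singleton] at ha
    obtain ⟨b, rfl⟩ := ha
    simp)

lemma ev2_mk (p : Polynomial k) : ev2 k (Ideal.Quotient.mk _ p) = p.coeff 0 := by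
  show Polynomial.aeval (0 : k) p = _
  rw [Polynomial.coeff_zero_eq_aeval_zero]

lemma isUnit_of_ev2 (x : Tr k 2) (h : ev2 k x ≠ 0) : IsUnit x := by
  obtain ⟨p, rfl⟩ := Ideal.Quotient.mk_surjective x
  rw [ev2_mk] at h
  have h1 : p = C (p.coeff 0) + p.divX * X := by
    rw [add_comm]; exact (Polynomial.divX_mul_X_add p).symm
  rw [h1, map_add]
  have h2 : IsUnit (Ideal.Quotient.mk (Ideal.span {(X : Polynomial k) ^ 2}) (C (p.coeff 0))) :=
    (Polynomial.isUnit_C.2 (IsUnit.mk0 _ h)).map _
  have h3 : IsNilpotent (Ideal.Quotient.mk (Ideal.span {(X : Polynomial k) ^ 2}) (p.divX * X)) := by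
    refine ⟨2, ?_⟩
    rw [← map_pow]
    refine (mk_eq_zero_iff 2 _).2 ?_
    rw [mul_pow]
    exact Dvd.intro_left _ rfl
  exact IsNilpotent.isUnit_add_left_of_commute h3 h2 (Commute.all _ _)

/-- polynomials are determined by their values -/
lemma SS_points [Infinite k] (f : SS k) (h : ∀ ρ : SS k →ₐ[k] k, ρ f = 0) : f = 0 := by
  have key : ∀ x v : k, (f.eval (C x)).eval v = 0 := by
    intro x v
    let ρ : SS k →ₐ[k] k :=
      { toRingHom := (Polynomial.evalRingHom v).comp (Polynomial.evalRingHom (C x))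
        commutes' := by
          intro r
          rw [IsScalarTower.algebraMap_apply k (Polynomial k) (SS k)]
          simp [Polynomial.algebraMap_eq] }
    exact h ρ
  have key2 : ∀ x : k, f.eval (C x) = 0 := by
    intro x
    apply Polynomial.funext
    intro v
    rw [key, Polynomial.eval_zero]
  have hinf : Set.Infinite {y : Polynomial k | f.eval y = 0} := by
    apply Set.Infinite.mono (s := Set.range (C : k →+* Polynomial k))
    · rintro _ ⟨x, rfl⟩; exact key2 x
    · exact Set.infinite_range_of_injective Polynomial.C_injective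
  by_contra hf
  apply hinf
  have : {y : Polynomial k | f.eval y = 0} ⊆ f.rootSet (Polynomial k) := by
    intro y hy
    rw [Polynomial.mem_rootSet]
    exact ⟨hf, by simpa [Polynomial.aeval_def] using hy⟩
  exact (Polynomial.rootSet_finite f _).subset this

end Pool.Agent.Helper198.Eqs
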