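import Mathlib
import Pool.Agent.Helper198.Eqs.Tan
import Pool.Agent.Helper413.Gal.Uniq

set_option autoImplicit false

open Pool.Agent.Helper226 Pool.Agent.Helper413.Gal
open CategoryTheory AlgebraicGeometry

universe u

namespace Pool.Agent.Helper198.Eqs

variable {k : Type u} [Field k]

/-- the chart ring -/
abbrev AA (k : Type u) [Field k] : Type u := AR k (bas k)

instance : Algebra.FiniteType k (AA k) := univ_finiteType (k := k) (Idx.single (bas k))

lemma clf_uc (φ : AA k →ₐ[k] k) : clf ((uc k (bas k)).map φ) = φ := by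
  apply hom_ext_uc
  rw [uc_map_clf]

lemma chartι_str : chartι k (Idx.single (bas k)) ≫ HilbS.str k (Pl k) 10 =
    Spec.map (CommRingCat.ofHom (algebraMap k (AA k))) := by
  have h1 := mor_str (uc k (bas k))
  unfold mor at h1
  have h2 : clf (uc k (bas k)) = AlgHom.id k (AA k) := by
    apply hom_ext_uc
    rw [uc_map_clf, Chart.map_id]
  rw [h2] at h1
  have h3 : Spec.map (CommRingCat.ofHom (AlgHom.id k (AA k)).toRingHom) = 𝟙 _ := by
    have : CommRingCat.ofHom (AlgHom.id k (AA k)).toRingHom = 𝟙 (CommRingCat.of (AA k)) := rfl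
    rw [this, Spec.map_id]
  rw [h3, Category.id_comp] at h1
  exact h1

/-- the constructed Hilbert scheme -/
noncomputable def H0 (k : Type u) [Field k] : HilbertScheme k (Pl k) 10 := hilb k (Pl k) 10

/-- the chart of the constructed Hilbert scheme -/
noncomputable def chι (k : Type u) [Field k] : Spec (CommRingCat.of (AA k)) ⟶ (H0 k).H :=
  chartι k (Idx.single (bas k))

instance : IsOpenImmersion (chι k) :=
  inferInstanceAs (IsOpenImmersion (chartι k (Idx.single (bas k))))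

lemma chι_s : chι k ≫ (H0 k).s = Spec.map (CommRingCat.ofHom (algebraMap k (AA k))) := chartι_str

/-- the `k`-point of a point of the chart -/
noncomputable def f0 (φ : AA k →ₐ[k] k) : PointsOver k (H0 k).H (H0 k).s k :=
  ⟨Spec.map (CommRingCat.ofHom φ.toRingHom) ≫ chι k, by
    rw [Category.assoc, chι_s, ← Spec.map_comp, ← CommRingCat.ofHom_comp]
    congr 2
    ext x
    exact φ.commutes x⟩

lemma Φ_f0 (φ : AA k →ₐ[k] k) :
    ((H0 k).Φ k (f0 φ)).1 = ((uc k (bas k)).map φ).ideal := by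
  have h1 : f0 φ = ⟨mor ((uc k (bas k)).map φ), mor_str _⟩ := by
    apply Subtype.ext
    show Spec.map (CommRingCat.ofHom φ.toRingHom) ≫ chι k = mor ((uc k (bas k)).map φ)
    unfold mor
    rw [clf_uc]
    rfl
  rw [h1]
  exact homEquiv_mor _

/-- the chart in any Hilbert scheme -/
noncomputable def cι (𝓗 : HilbertScheme k (Pl k) 10) : Spec (CommRingCat.of (AA k)) ⟶ 𝓗.H :=
  chι k ≫ tmor (H0 k) 𝓗

instance (𝓗 : HilbertScheme k (Pl k) 10) : IsOpenImmersion (cι 𝓗) := by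
  unfold cι
  infer_instance

lemma cι_s (𝓗 : HilbertScheme k (Pl k) 10) :
    cι 𝓗 ≫ 𝓗.s = Spec.map (CommRingCat.ofHom (algebraMap k (AA k))) := by
  unfold cι
  rw [Category.assoc, tmor_s]
  exact chι_s

/-- the `k`-point of the Hilbert scheme given by a point of the chart -/
noncomputable def kf (𝓗 : HilbertScheme k (Pl k) 10) (φ : AA k →ₐ[k] k) :
    PointsOver k 𝓗.H 𝓗.s k :=
  tr (H0 k) 𝓗 k (f0 φ)

lemma specMap_specPt {A : Type u} [CommRing A] [Algebra k A] (φ : A →ₐ[k] k) :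
    Spec.map (CommRingCat.ofHom φ.toRingHom) (specPt k) = kpt φ := rfl

lemma pt_kf (𝓗 : HilbertScheme k (Pl k) 10) (φ : AA k →ₐ[k] k) :
    pt 𝓗 (kf 𝓗 φ) = cι 𝓗 (kpt φ) := by
  unfold pt kf
  rw [tr_val]
  show ((Spec.map (CommRingCat.ofHom φ.toRingHom) ≫ chι k) ≫ tmor (H0 k) 𝓗) (specPt k) = _
  rw [Category.assoc, Scheme.Hom.comp_apply, specMap_specPt]
  rfl

lemma idealOf_kf (𝓗 : HilbertScheme k (Pl k) 10) (φ : AA k →ₐ[k] k) :
    𝓗.idealOf (kf 𝓗 φ) = ((uc k (bas k)).map φ).ker := by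
  unfold HilbertScheme.idealOf kf
  rw [Φ_tr, Φ_f0]
  rfl

section
variable [IsAlgClosed k] [CharP k 2]

lemma two_eq_zero : (2 : k) = 0 := by
  have := CharP.cast_eq_zero k 2
  exact_mod_cast this

/-- the stratum condition on points of the chart -/
def EE (φ : AA k →ₐ[k] k) : Prop := Pst ((uc k (bas k)).map φ).ker

lemma S1_char : (2 : S1 k) = 0 := by
  have h : (2 : k) = 0 := two_eq_zero
  have h1 : (algebraMap k (S1 k)) 2 = 0 := by rw [h, map_zero]
  have h2 : (algebraMap k (S1 k)) 2 = 2 := map_ofNat _ 2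
  rw [← h2, h1]

open Polynomial in
lemma mem_u : (X ^ 2 : SS k) ∈ S1 k := by
  rw [mem_S1]; simp [Polynomial.coeff_X_pow]
open Polynomial in
lemma mem_v : (C X : SS k) ∈ S1 k := by
  rw [mem_S1]; simp [Polynomial.coeff_C]
open Polynomial in
lemma mem_w : (X * C X : SS k) ∈ S1 k := by
  rw [mem_S1]; simp

/-- the chart datum over `S1` -/
lemma exists_c1 : ∃ c : Chart k (bas k) (S1 k),
      c.q (MvPolynomial.X 0 ^ 6) = ![⟨_, mem_u⟩ ^ 3, 0, ⟨_, mem_u⟩ ^ 2, 0, ⟨_, mem_u⟩, 0, 0, 0, 0, 0] ∧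
      c.q (MvPolynomial.X 1 * MvPolynomial.X 0 ^ 4) = ![0, 0, 0, 0, 0, 0, ⟨_, mem_u⟩ ^ 2, 0, 0, 0] ∧
      c.q (MvPolynomial.X 1 ^ 2) = ![0, ⟨_, mem_u⟩ ^ 2, 0, 0, 0, 1, ⟨_, mem_u⟩ * ⟨_, mem_w⟩,
        ⟨_, mem_u⟩ * ⟨_, mem_v⟩, ⟨_, mem_w⟩, ⟨_, mem_v⟩] :=
  exists_family (S1 k) S1_char ⟨_, mem_u⟩ ⟨_, mem_v⟩ ⟨_, mem_w⟩

end

end Pool.Agent.Helper198.Eqs
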