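import Mathlib
import Pool.Agent.Helper198.Eqs.Main1

set_option autoImplicit false

open Pool.Agent.Helper226 Pool.Agent.Helper413.Gal
open CategoryTheory AlgebraicGeometry

universe u

namespace Pool.Agent.Helper198.Eqs

variable {k : Type u} [Field k]

lemma idealOf_injective (𝓗 : HilbertScheme k (Pl k) 10) {f f' : PointsOver k 𝓗.H 𝓗.s k}
    (h : 𝓗.idealOf f = 𝓗.idealOf f') : f = f' := by
  apply (𝓗.Φ k).injective
  apply Subtype.ext
  unfold HilbertScheme.idealOf at h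
  have hs : Function.Surjective
      (Algebra.TensorProduct.includeRight : Pl k →ₐ[k] TensorProduct k k (Pl k)) := by
    intro x
    induction x using TensorProduct.induction_on with
    | zero => exact ⟨0, map_zero _⟩
    | add x y hx hy =>
      obtain ⟨a, rfl⟩ := hx
      obtain ⟨b, rfl⟩ := hy
      exact ⟨a + b, map_add _ _ _⟩
    | tmul r b =>
      refine ⟨r • b, ?_⟩
      rw [Algebra.TensorProduct.includeRight_apply, ← TensorProduct.smul_tmul, smul_eq_mul, mul_one]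
  exact Ideal.comap_injective_of_surjective _ hs h

lemma kf_of_ideal (𝓗 : HilbertScheme k (Pl k) 10) {f : PointsOver k 𝓗.H 𝓗.s k}
    {φ : AA k →ₐ[k] k} (h : 𝓗.idealOf f = ((uc k (bas k)).map φ).ker) : f = kf 𝓗 φ :=
  idealOf_injective 𝓗 (by rw [idealOf_kf, h])

lemma vec14_zero (u : k) : vec14 u 0 0 = ![0, 0, 0, 0, 0, 0, u ^ 2, 0, 0, 0] := by
  simp [vec14]

lemma vec02_zero (u v w : k) :
    vec02 u v w 0 0 1 0 = ![0, u ^ 2, 0, 0, 0, 1, u * w, u * v, w, v] := by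
  simp [vec02]

/-- the coordinate functions -/
noncomputable def cu (k : Type u) [Field k] : AA k := (uc k (bas k)).q (MvPolynomial.X 0 ^ 6) 4
noncomputable def cv (k : Type u) [Field k] : AA k := (uc k (bas k)).q (MvPolynomial.X 1 ^ 2) 9
noncomputable def cw (k : Type u) [Field k] : AA k := (uc k (bas k)).q (MvPolynomial.X 1 ^ 2) 8

section
variable [IsAlgClosed k] [CharP k 2]

/-- the points of the stratum satisfy the equation of the Whitney umbrella -/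
lemma rel_of_EE (φ : AA k →ₐ[k] k) (h : EE φ) :
    φ (cw k) ^ 2 = φ (cu k) * φ (cv k) ^ 2 := by
  obtain ⟨x₀, y₀, a₁, a₂, G, b, hG, hK⟩ := exists_KK_of_Pst h
  obtain ⟨h6, -, h02⟩ := (ker_eq_KK_iff two_eq_zero hG rfl rfl rfl rfl rfl rfl rfl _).1 hK
  have e1 : φ (cu k) = x₀ ^ 2 := by
    have := congrFun h6 4
    exact this
  have e2 : φ (cv k) = b / G := by
    have := congrFun h02 9
    exact this
  have e3 : φ (cw k) = x₀ * (b / G) := by
    have := congrFun h02 8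
    exact this
  rw [e1, e2, e3]
  ring

end

section
variable [IsAlgClosed k] [CharP k 2]

open Polynomial in
/-- Members of the family belong to the stratum. -/
lemma Pst_of_family (ch : Chart k (bas k) k) (x v : k) (hg : 1 + x * v ^ 2 ≠ 0)
    (h6 : ch.q (MvPolynomial.X 0 ^ 6) = ![(x ^ 2) ^ 3, 0, (x ^ 2) ^ 2, 0, x ^ 2, 0, 0, 0, 0, 0])
    (h14 : ch.q (MvPolynomial.X 1 * MvPolynomial.X 0 ^ 4) =
      ![0, 0, 0, 0, 0, 0, (x ^ 2) ^ 2, 0, 0, 0])
    (h02 : ch.q (MvPolynomial.X 1 ^ 2) =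
      ![0, (x ^ 2) ^ 2, 0, 0, 0, 1, x ^ 2 * (x * v), x ^ 2 * v, x * v, v]) : Pst ch.ker := by
  obtain ⟨s, hs⟩ := IsAlgClosed.exists_pow_nat_eq x (n := 2) (by norm_num)
  have h2 : (2 : k) = 0 := two_eq_zero
  have hG : 1 + s * v ≠ 0 := by
    intro h0
    apply hg
    have : (1 + s * v) ^ 2 = 0 := by rw [h0]; ring
    calc 1 + x * v ^ 2 = (1 + s * v) ^ 2 - s * v * 2 := by rw [← hs]; ring
      _ = 0 := by rw [this, h2]; ring
  have hK : ch.ker = KK x 0 0 s (1 + s * v) ((1 + s * v) * v) := by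
    refine (ker_eq_KK_iff (u := x ^ 2) (v := v) (w := x * v) (a := 0) (c := 0) (G' := 1) (T := 0)
      h2 hG rfl (by rw [mul_div_cancel_left₀ _ hG]) rfl rfl (by ring) ?_ ?_ ch).2 ⟨?_, ?_, ?_⟩
    · linear_combination (-s * v) * h2
    · rw [hs]; linear_combination (-x) * h2
    · rw [h6]; rfl
    · rw [h14, vec14_zero]
    · rw [h02, vec02_zero]
  rw [hK]
  exact Pst_KK _ _ _ _ _ _ hG

/-- the non-smoothness, with an abstract ring `T` in the place of `S1` -/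
theorem stratum_not_smooth_aux (T : Type u) [CommRing T] [Algebra k T] (val : T →ₐ[k] SS k)
    (hval : Function.Injective val) (τ₁ : T →ₐ[k] Tr k 2) (u₁ v₁ w₁ : T) (hT : (2 : T) = 0)
    (hu₁ : val u₁ = Polynomial.X ^ 2) (hv₁ : val v₁ = Polynomial.C Polynomial.X)
    (hw₁ : val w₁ = Polynomial.X * Polynomial.C Polynomial.X) (tu : τ₁ u₁ = 0) (tv : τ₁ v₁ = 0)
    (tw : τ₁ w₁ = Ideal.Quotient.mk _ Polynomial.X)
    (𝓗 : HilbertScheme k (Pl k) 10) (U : 𝓗.H.Opens) {Z : Scheme.{u}}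
    (j : Z ⟶ 𝓗.H) (hZ : IsStratumOn 𝓗 (baseIdeal k) U j) (f₀ : PointsOver k 𝓗.H 𝓗.s k)
    (hf₀ : 𝓗.idealOf f₀ = baseIdeal k) (h₀ : pt 𝓗 f₀ ∈ U)
    (z : Z) (hz : j z = pt 𝓗 f₀) (W : Z.Opens) (hzW : z ∈ W) :
    ¬ Smooth (W.ι ≫ j ≫ 𝓗.s) := by
  intro hW
  obtain ⟨hj, hred, -, hpts⟩ := hZ
  obtain ⟨c₁, h6, h14, h02⟩ := exists_family (k := k) T hT u₁ v₁ w₁
  let θ : AA k →ₐ[k] SS k := val.comp (clf c₁)
  let τ : AA k →ₐ[k] Tr k 2 := τ₁.comp (clf c₁)
  let φ₀ : AA k →ₐ[k] k := (ev2 k).comp τ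
  -- charts
  have hc : ∀ σ : T →ₐ[k] k, (uc k (bas k)).map (σ.comp (clf c₁)) = c₁.map σ := by
    intro σ
    rw [← Chart.map_map, uc_map_clf]
  have hq : ∀ (σ : T →ₐ[k] k) (x v : k), σ u₁ = x ^ 2 → σ v₁ = v →
      σ w₁ = x * v → 1 + x * v ^ 2 ≠ 0 → Pst (c₁.map σ).ker := by
    intro σ x v hu hv hw hg
    apply Pst_of_family _ x v hg
    · ext i
      rw [Chart.map_q, h6]
      rw [← hu]
      fin_cases i <;> simp
    · ext i
      rw [Chart.map_q, h14]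
      rw [← hu]
      fin_cases i <;> simp
    · ext i
      rw [Chart.map_q, h02]
      rw [← hu, ← hw, ← hv]
      fin_cases i <;> simp
  -- the base point
  have hφ₀ : ((uc k (bas k)).map φ₀).ker = baseIdeal k := by
    have e : φ₀ = ((ev2 k).comp τ₁).comp (clf c₁) := rfl
    have e0 : ev2 k (Ideal.Quotient.mk _ Polynomial.X) = 0 := by
      rw [ev2_mk, Polynomial.coeff_X_zero]
    rw [e, hc, baseIdeal_eq]
    refine (ker_eq_KK_iff (u := 0) (v := 0) (w := 0) (a := 0) (c := 0) (G' := 1) (T := 0)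
      two_eq_zero one_ne_zero (by ring) (by simp) (by ring) rfl (by ring) (by ring)
      (by ring) _).2 ⟨?_, ?_, ?_⟩
    · ext i
      rw [Chart.map_q, h6]
      fin_cases i <;> simp [vec6, tu]
    · ext i
      rw [Chart.map_q, h14]
      fin_cases i <;> simp [vec14, tu]
    · ext i
      rw [Chart.map_q, h02]
      fin_cases i <;> simp [vec02, tu, tv, tw, e0]
  have hf₀' : f₀ = kf 𝓗 φ₀ := kf_of_ideal 𝓗 (by rw [hf₀, hφ₀])
  have hpt₀ : pt 𝓗 f₀ = cι 𝓗 (kpt φ₀) := by rw [hf₀', pt_kf]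
  refine not_smooth_at (A := AA k) 𝓗.s (cι 𝓗) (cι_s 𝓗) j U EE ?_ φ₀ (hpt₀ ▸ h₀) (cu k) (cv k) (cw k)
    rel_of_EE θ (1 + Polynomial.X * Polynomial.C Polynomial.X ^ 2) (SS_points) ?_ ?_ τ ?_ ?_ ?_ ?_
    ?_ z (by rw [hz, hpt₀]) W hzW hW
  · intro φ hφ
    have := hpts (kf 𝓗 φ) (by rw [pt_kf]; exact hφ)
    rw [pt_kf, idealOf_kf] at this
    exact this
  · intro h
    have := congrArg (fun p : SS k => p.coeff 0) h
    simp at this
  · intro ρ hρ
    show Pst _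
    have e : ρ.comp θ = (ρ.comp val).comp (clf c₁) := rfl
    rw [e, hc]
    apply hq _ (ρ Polynomial.X) (ρ (Polynomial.C Polynomial.X))
    · rw [AlgHom.comp_apply, hu₁, map_pow]
    · rw [AlgHom.comp_apply, hv₁]
    · rw [AlgHom.comp_apply, hw₁, map_mul]
    · rw [map_add, map_one, map_mul, map_pow] at hρ
      exact hρ
  · intro a ha
    have h1 : clf c₁ a = 0 := by
      apply hval
      rw [map_zero]
      exact ha
    show τ₁ (clf c₁ a) = 0
    rw [h1, map_zero]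
  · show τ₁ (clf c₁ (cu k)) = 0
    have : clf c₁ (cu k) = c₁.q (MvPolynomial.X 0 ^ 6) 4 := by
      unfold cu
      rw [← Chart.map_q, uc_map_clf]
    rw [this, h6]
    exact tu
  · show τ₁ (clf c₁ (cv k)) = 0
    have : clf c₁ (cv k) = c₁.q (MvPolynomial.X 1 ^ 2) 9 := by
      unfold cv
      rw [← Chart.map_q, uc_map_clf]
    rw [this, h02]
    exact tv
  · show τ₁ (clf c₁ (cw k)) = _
    have : clf c₁ (cw k) = c₁.q (MvPolynomial.X 1 ^ 2) 8 := by
      unfold cw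
      rw [← Chart.map_q, uc_map_clf]
    rw [this, h02]
    exact tw
  · intro a ha
    exact isUnit_of_ev2 _ ha

open Polynomial in
theorem stratum_not_smooth (𝓗 : HilbertScheme k (Pl k) 10) (U : 𝓗.H.Opens) {Z : Scheme.{u}}
    (j : Z ⟶ 𝓗.H) (hZ : IsStratumOn 𝓗 (baseIdeal k) U j) (f₀ : PointsOver k 𝓗.H 𝓗.s k)
    (hf₀ : 𝓗.idealOf f₀ = baseIdeal k) (h₀ : pt 𝓗 f₀ ∈ U)
    (z : Z) (hz : j z = pt 𝓗 f₀) (W : Z.Opens) (hzW : z ∈ W) :
    ¬ Smooth (W.ι ≫ j ≫ 𝓗.s) := by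
  refine stratum_not_smooth_aux (S1 k) (S1 k).val Subtype.val_injective (tau1 k)
    ⟨_, mem_u⟩ ⟨_, mem_v⟩ ⟨_, mem_w⟩ S1_char rfl rfl rfl ?_ ?_ ?_ 𝓗 U j hZ f₀ hf₀ h₀ z hz W hzW
  · rw [tau1_apply]; simp [Polynomial.coeff_X_pow]
  · rw [tau1_apply]; simp [Polynomial.coeff_C]
  · rw [tau1_apply]; simp

end

end Pool.Agent.Helper198.Eqs
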