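import Mathlib
import Pool.Agent.Helper198.Eqs.Main2
import Pool.Agent.Helper198.Eqs.Ex

set_option autoImplicit false

open Pool.Agent.Helper226 Pool.Agent.Helper413.Gal
open CategoryTheory AlgebraicGeometry

universe u

namespace Pool.Agent.Helper198.Eqs

variable {k : Type u} [Field k]

/-- coordinate functions on the chart -/
noncomputable def ca (k : Type u) [Field k] : AA k :=
  (uc k (bas k)).q (MvPolynomial.X 1 * MvPolynomial.X 0 ^ 4) 5
noncomputable def cc (k : Type u) [Field k] : AA k :=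
  (uc k (bas k)).q (MvPolynomial.X 1 * MvPolynomial.X 0 ^ 4) 4
noncomputable def cG (k : Type u) [Field k] : AA k := (uc k (bas k)).q (MvPolynomial.X 1 ^ 2) 5
noncomputable def cT (k : Type u) [Field k] : AA k :=
  (uc k (bas k)).q (MvPolynomial.X 1 ^ 2) 4 - ca k * cv k

/-- the equations of the stratum in the chart -/
noncomputable def qq (k : Type u) [Field k] : Ideal (AA k) :=
  Ideal.span (Set.range (fun i => (uc k (bas k)).q (MvPolynomial.X 0 ^ 6) i - vec6 (cu k) i) ∪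
    (Set.range (fun i => (uc k (bas k)).q (MvPolynomial.X 1 * MvPolynomial.X 0 ^ 4) i -
      vec14 (cu k) (ca k) (cc k) i)) ∪
    (Set.range (fun i => (uc k (bas k)).q (MvPolynomial.X 1 ^ 2) i -
      vec02 (cu k) (cv k) (cw k) (ca k) (cc k) (cG k) (cT k) i)) ∪
    {cw k ^ 2 - cu k * cv k ^ 2})

/-- the open condition -/
noncomputable def cg (k : Type u) [Field k] : AA k :=
  cG k ^ 2 + cw k * cv k * cG k + cT k * cv k ^ 2

lemma qq_iff (φ : AA k →ₐ[k] k) : (∀ x ∈ qq k, φ x = 0) ↔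
    ((uc k (bas k)).map φ).q (MvPolynomial.X 0 ^ 6) = vec6 (φ (cu k)) ∧
    ((uc k (bas k)).map φ).q (MvPolynomial.X 1 * MvPolynomial.X 0 ^ 4) =
      vec14 (φ (cu k)) (φ (ca k)) (φ (cc k)) ∧
    ((uc k (bas k)).map φ).q (MvPolynomial.X 1 ^ 2) =
      vec02 (φ (cu k)) (φ (cv k)) (φ (cw k)) (φ (ca k)) (φ (cc k)) (φ (cG k)) (φ (cT k)) ∧
    φ (cw k) ^ 2 = φ (cu k) * φ (cv k) ^ 2 := by
  have h0 : (∀ x ∈ qq k, φ x = 0) ↔ qq k ≤ RingHom.ker φ := Iff.rfl
  rw [h0]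
  unfold qq
  rw [Ideal.span_le, Set.union_subset_iff, Set.union_subset_iff, Set.union_subset_iff,
    Set.range_subset_iff, Set.range_subset_iff, Set.range_subset_iff, Set.singleton_subset_iff,
    and_assoc, and_assoc]
  refine and_congr ?_ (and_congr ?_ (and_congr ?_ ?_))
  · rw [funext_iff]
    apply forall_congr'
    intro i
    rw [SetLike.mem_coe, RingHom.mem_ker, map_sub, sub_eq_zero, Chart.map_q]
    have := map_vec6 (φ : AA k →+* k) (cu k) i
    rw [← AlgHom.coe_toRingHom, this]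
  · rw [funext_iff]
    apply forall_congr'
    intro i
    rw [SetLike.mem_coe, RingHom.mem_ker, map_sub, sub_eq_zero, Chart.map_q]
    have := map_vec14 (φ : AA k →+* k) (cu k) (ca k) (cc k) i
    rw [← AlgHom.coe_toRingHom, this]
  · rw [funext_iff]
    apply forall_congr'
    intro i
    rw [SetLike.mem_coe, RingHom.mem_ker, map_sub, sub_eq_zero, Chart.map_q]
    have := map_vec02 (φ : AA k →+* k) (cu k) (cv k) (cw k) (ca k) (cc k) (cG k) (cT k) i
    rw [← AlgHom.coe_toRingHom, this]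
  · rw [SetLike.mem_coe, RingHom.mem_ker, map_sub, sub_eq_zero, map_mul, map_pow, map_pow]

section
variable [IsAlgClosed k] [CharP k 2]

lemma EE_iff (φ : AA k →ₐ[k] k) : EE φ ↔ (∀ x ∈ qq k, φ x = 0) ∧ φ (cg k) ≠ 0 := by
  have h2 : (2 : k) = 0 := two_eq_zero
  rw [qq_iff]
  constructor
  · intro h
    obtain ⟨x₀, y₀, a₁, a₂, G, b, hG, hK⟩ := exists_KK_of_Pst h
    obtain ⟨h6, h14, h02⟩ := (ker_eq_KK_iff h2 hG rfl rfl rfl rfl rfl rfl rfl _).1 hK
    have e1 : φ (cu k) = x₀ ^ 2 := congrFun h6 4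
    have e2 : φ (cv k) = b / G := congrFun h02 9
    have e3 : φ (cw k) = x₀ * (b / G) := congrFun h02 8
    have e4 : φ (ca k) = a₁ := congrFun h14 5
    have e5 : φ (cc k) = x₀ * a₁ + y₀ := congrFun h14 4
    have e6 : φ (cG k) = G + a₂ * (b / G) := congrFun h02 5
    have e7 : φ (cT k) = a₂ ^ 2 + x₀ * (G + a₂ * (b / G)) := by
      have h7 : φ ((uc k (bas k)).q (MvPolynomial.X 1 ^ 2) 4) =
          (a₂ ^ 2 + x₀ * (G + a₂ * (b / G))) + a₁ * (b / G) := congrFun h02 4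
      unfold cT
      rw [map_sub, map_mul, h7, e4, e2]
      ring
    refine ⟨⟨?_, ?_, ?_, ?_⟩, ?_⟩
    · rw [e1]; exact h6
    · rw [e1, e4, e5]; exact h14
    · rw [e1, e2, e3, e4, e5, e6, e7]; exact h02
    · rw [e1, e2, e3]; ring
    · have : φ (cg k) = G ^ 2 := by
        unfold cg
        rw [map_add, map_add, map_mul, map_mul, map_mul, map_pow, map_pow, e2, e3, e6, e7]
        linear_combination (G * a₂ * (b / G) + a₂ ^ 2 * (b / G) ^ 2 +
          x₀ * (b / G) ^ 2 * (G + a₂ * (b / G))) * h2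
      rw [this]
      exact pow_ne_zero 2 hG
  · rintro ⟨⟨h6, h14, h02, hrel⟩, hg⟩
    obtain ⟨x₀, hx₀⟩ := IsAlgClosed.exists_pow_nat_eq (φ (cu k)) (n := 2) (by norm_num)
    obtain ⟨a₂, ha₂⟩ := IsAlgClosed.exists_pow_nat_eq (φ (cT k) + x₀ * φ (cG k)) (n := 2)
      (by norm_num)
    obtain ⟨v, hv⟩ : ∃ v, v = φ (cv k) := ⟨_, rfl⟩
    obtain ⟨w, hw⟩ : ∃ w, w = φ (cw k) := ⟨_, rfl⟩
    obtain ⟨G', hG'⟩ : ∃ G', G' = φ (cG k) := ⟨_, rfl⟩
    obtain ⟨T, hT⟩ : ∃ T, T = φ (cT k) := ⟨_, rfl⟩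
    have hw' : w = x₀ * v := by
      have h1 : (w - x₀ * v) ^ 2 = 0 := by
        rw [← hw, ← hv, ← hx₀] at hrel
        linear_combination hrel + (x₀ ^ 2 * v ^ 2 - w * x₀ * v) * h2
      have h3 := eq_zero_of_pow_eq_zero h1
      exact sub_eq_zero.1 h3
    rw [← hG', ← hT] at ha₂
    obtain ⟨G, hG⟩ : ∃ G, G = G' + a₂ * v := ⟨_, rfl⟩
    have hG0 : G ≠ 0 := by
      intro h0
      apply hg
      have : φ (cg k) = G ^ 2 := by
        unfold cg
        rw [map_add, map_add, map_mul, map_mul, map_mul, map_pow, map_pow, ← hv, ← hw, ← hG', ← hT,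
          hG, hw']
        linear_combination (- v ^ 2) * ha₂ + (-G' * a₂ * v) * h2
      rw [this, h0]; ring
    have hK : ((uc k (bas k)).map φ).ker = KK x₀ (φ (cc k) + x₀ * φ (ca k)) (φ (ca k)) a₂ G
        (G * v) := by
      refine (ker_eq_KK_iff (u := φ (cu k)) (v := v) (w := w) (a := φ (ca k)) (c := φ (cc k))
        (G' := G') (T := T) h2 hG0 hx₀.symm (by rw [mul_div_cancel_left₀ _ hG0]) hw' rfl ?_ ?_ ?_
        _).2 ⟨h6, h14, ?_⟩
      · linear_combination (- x₀ * φ (ca k)) * h2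
      · rw [hG]; linear_combination (- a₂ * v) * h2
      · linear_combination (-1) * ha₂ + (- x₀ * G') * h2
      · rw [hv, hw, hG', hT]; exact h02
    show Pst _
    rw [hK]
    exact Pst_KK _ _ _ _ _ _ hG0

end

/-- A `k`-point in the chart comes from the chart. -/
lemma exists_kf (𝓗 : HilbertScheme k (Pl k) 10) (f : PointsOver k 𝓗.H 𝓗.s k)
    (h : pt 𝓗 f ∈ Set.range (cι 𝓗)) : ∃ φ : AA k →ₐ[k] k, f = kf 𝓗 φ := by
  have hr : Set.range f.1 ⊆ Set.range (cι 𝓗) := by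
    rintro _ ⟨x, rfl⟩
    have : x = specPt k := by
      have h1 : Subsingleton (PrimeSpectrum k) := inferInstance
      exact h1.elim x (specPt k)
    rw [this]; exact h
  let l := IsOpenImmersion.lift (cι 𝓗) f.1 hr
  have hl : l ≫ cι 𝓗 = f.1 := IsOpenImmersion.lift_fac _ _ _
  obtain ⟨g, hg⟩ := Spec.map_surjective l
  have h1 : Spec.map (CommRingCat.ofHom (algebraMap k k)) =
      Spec.map (CommRingCat.ofHom (algebraMap k (AA k)) ≫ g) := by
    rw [← f.2, ← hl, Category.assoc, cι_s, ← hg, ← Spec.map_comp]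
  have h2 := Spec.map_injective h1
  let φ : AA k →ₐ[k] k := { g.hom with
    commutes' := by
      intro r
      have := congrArg (fun z => z.hom r) h2
      exact this.symm }
  refine ⟨φ, ?_⟩
  apply Subtype.ext
  unfold kf
  rw [tr_val, ← hl, ← hg]
  unfold cι
  show _ = (Spec.map (CommRingCat.ofHom φ.toRingHom) ≫ chι k) ≫ tmor (H0 k) 𝓗
  rw [Category.assoc]
  rfl

section
variable [IsAlgClosed k] [CharP k 2]

lemma exists_base (k : Type u) [Field k] [IsAlgClosed k] [CharP k 2] :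
    ∃ φ₀ : AA k →ₐ[k] k, ((uc k (bas k)).map φ₀).ker = baseIdeal k := by
  obtain ⟨c, h6, h14, h02⟩ := exists_family (k := k) k two_eq_zero 0 0 0
  refine ⟨clf c, ?_⟩
  rw [uc_map_clf, baseIdeal_eq]
  refine (ker_eq_KK_iff (u := 0) (v := 0) (w := 0) (a := 0) (c := 0) (G' := 1) (T := 0)
      two_eq_zero one_ne_zero (by ring) (by simp) (by ring) rfl (by ring) (by ring)
      (by ring) _).2 ⟨?_, ?_, ?_⟩
  · rw [h6]; rfl
  · rw [h14, vec14_zero]
  · rw [h02, vec02_zero]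

theorem exists_stratum (𝓗 : HilbertScheme k (Pl k) 10) (f₀ : PointsOver k 𝓗.H 𝓗.s k)
    (hf₀ : 𝓗.idealOf f₀ = baseIdeal k) :
    ∃ (U : 𝓗.H.Opens) (Z : Scheme.{u}) (j : Z ⟶ 𝓗.H),
      pt 𝓗 f₀ ∈ U ∧ IsStratumOn 𝓗 (baseIdeal k) U j := by
  obtain ⟨Z, j, hj, hred, hr, hpts⟩ := exists_of_chart (k := k) (cι 𝓗) (qq k) (cg k)
  let V : (Spec (CommRingCat.of (AA k))).Opens := PrimeSpectrum.basicOpen (cg k)
  have hpt : ∀ φ : AA k →ₐ[k] k, cι 𝓗 (kpt φ) ∈ Set.range j ↔ EE φ := by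
    intro φ
    rw [hpts, EE_iff]
  obtain ⟨φ₀, hφ₀⟩ := exists_base k
  have hf₀' : f₀ = kf 𝓗 φ₀ := kf_of_ideal 𝓗 (by rw [hf₀, hφ₀])
  have hE0 : EE φ₀ := by
    show Pst _
    rw [hφ₀, baseIdeal_eq]
    exact Pst_KK _ _ _ _ _ _ one_ne_zero
  refine ⟨cι 𝓗 ''ᵁ V, Z, j, ?_, hj, hred, hr, ?_⟩
  · rw [hf₀', pt_kf]
    have h1 := (hpt φ₀).2 hE0
    exact hr h1
  · intro f hf
    obtain ⟨φ, rfl⟩ := exists_kf 𝓗 f (by
      obtain ⟨x, -, hx⟩ := hf
      exact ⟨x, hx⟩)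
    rw [pt_kf, hpt, idealOf_kf]
    rfl

end

end Pool.Agent.Helper198.Eqs
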